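import Pool.Agent.Helper97.BG.Defs

/-!
Project BG (MP_8410f8_pr), piece G3.
-/

open MeasureTheory Set
open scoped ENNReal

namespace Pool.Agent.Helper97.BG

variable {d : ℕ}

private theorem g3_aux {x y : V d} (hu : ‖x‖ = 1) (hv : ‖y‖ = 1) (h : ‖x - y‖ ≤ 1) {t : ℝ}
    (ht : 0 ≤ t) (ht1 : t ≤ 1) : ∃ p : V d, ‖p‖ = 1 ∧
      ‖p - x‖ ≤ t * ‖x - y‖ + ‖x - y‖ ^ 2 / 4 ∧
      ‖p - y‖ ≤ (1 - t) * ‖x - y‖ + ‖x - y‖ ^ 2 / 4 := by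
  obtain ⟨w, hw⟩ : ∃ w : V d, w = x + t • (y - x) := ⟨_, rfl⟩
  have h1 : ‖w‖ ^ 2 = 1 - t * (1 - t) * ‖x - y‖ ^ 2 := by
    have e1 : ‖w‖ ^ 2 = ‖x‖ ^ 2 + 2 * (t * (inner ℝ x (y - x))) + t ^ 2 * ‖y - x‖ ^ 2 := by
      rw [hw, norm_add_sq_real, inner_smul_right, norm_smul, mul_pow, Real.norm_eq_abs, sq_abs]
    have e2 : (inner ℝ x (y - x)) = inner ℝ x y - ‖x‖ ^ 2 := by
      rw [inner_sub_right, real_inner_self_eq_norm_sq]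
    have e3 : ‖x - y‖ ^ 2 = ‖x‖ ^ 2 - 2 * inner ℝ x y + ‖y‖ ^ 2 := norm_sub_sq_real x y
    have e4 : ‖y - x‖ = ‖x - y‖ := norm_sub_rev _ _
    rw [e1, e2, e4, e3, hu, hv]
    ring
  have h0 : 0 ≤ ‖x - y‖ := norm_nonneg _
  have hδ : ‖x - y‖ ^ 2 ≤ 1 := by nlinarith
  have htt : t * (1 - t) ≤ 1 / 4 := by nlinarith [sq_nonneg (t - 1 / 2)]
  have htt0 : 0 ≤ t * (1 - t) := mul_nonneg ht (by linarith)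
  have h2 : ‖w‖ ^ 2 ≤ 1 := by
    rw [h1]; nlinarith [mul_nonneg htt0 (sq_nonneg ‖x - y‖)]
  have hw1 : ‖w‖ ≤ 1 := by nlinarith [norm_nonneg w]
  have h3 : 1 - ‖x - y‖ ^ 2 / 4 ≤ ‖w‖ ^ 2 := by
    rw [h1]; nlinarith [sq_nonneg ‖x - y‖]
  have h4 : 1 - ‖x - y‖ ^ 2 / 4 ≤ ‖w‖ := by nlinarith [norm_nonneg w]
  have hwpos : 0 < ‖w‖ := by nlinarith
  have hwne : ‖w‖ ≠ 0 := hwpos.ne'
  have hp : ‖(‖w‖⁻¹ • w)‖ = 1 := by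
    rw [norm_smul, norm_inv, norm_norm]
    field_simp
  have h5 : ‖(‖w‖⁻¹ • w) - w‖ ≤ ‖x - y‖ ^ 2 / 4 := by
    have e : (‖w‖⁻¹ • w) - w = (‖w‖⁻¹ - 1) • w := by rw [sub_smul, one_smul]
    rw [e, norm_smul, Real.norm_eq_abs, abs_of_nonneg]
    · rw [sub_mul, inv_mul_cancel₀ hwne]; linarith
    · have : 1 ≤ ‖w‖⁻¹ := (one_le_inv₀ hwpos).2 hw1
      linarith
  have h6 : ‖w - x‖ = t * ‖x - y‖ := by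
    rw [hw, add_sub_cancel_left, norm_smul, Real.norm_eq_abs, abs_of_nonneg ht, norm_sub_rev]
  have h7 : ‖w - y‖ = (1 - t) * ‖x - y‖ := by
    have e : w - y = (1 - t) • (x - y) := by
      rw [hw]; module
    rw [e, norm_smul, Real.norm_eq_abs, abs_of_nonneg (by linarith)]
  refine ⟨‖w‖⁻¹ • w, hp, ?_, ?_⟩
  · have : ‖(‖w‖⁻¹ • w) - x‖ ≤ ‖(‖w‖⁻¹ • w) - w‖ + ‖w - x‖ :=
      norm_sub_le_norm_sub_add_norm_sub _ _ _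
    linarith
  · have : ‖(‖w‖⁻¹ • w) - y‖ ≤ ‖(‖w‖⁻¹ • w) - w‖ + ‖w - y‖ :=
      norm_sub_le_norm_sub_add_norm_sub _ _ _
    linarith

/-- Normalise `w = (1-t) u + t v`: `‖w‖² = 1 - t(1-t)‖u-v‖² ≥ 1 - ‖u-v‖²/4`, so
`‖w‖ ≥ 1 - ‖u-v‖²/4` (and `‖w‖ ≤ 1`), `‖w/‖w‖ - w‖ = 1 - ‖w‖ ≤ ‖u-v‖²/4`, while
`‖w - u‖ = t‖u-v‖`, `‖w - v‖ = (1-t)‖u-v‖`. -/
theorem exists_between (u v : Sph d) (h : ‖(u : V d) - v‖ ≤ 1) {t : ℝ} (ht : 0 ≤ t)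
    (ht1 : t ≤ 1) : ∃ p : Sph d,
      ‖(p : V d) - u‖ ≤ t * ‖(u : V d) - v‖ + ‖(u : V d) - v‖ ^ 2 / 4 ∧
      ‖(p : V d) - v‖ ≤ (1 - t) * ‖(u : V d) - v‖ + ‖(u : V d) - v‖ ^ 2 / 4 := by
  have hu : ‖(u : V d)‖ = 1 := by simp
  have hv : ‖(v : V d)‖ = 1 := by simp
  obtain ⟨p, hp, h1, h2⟩ := g3_aux hu hv h ht ht1
  exact ⟨⟨p, by simpa using hp⟩, h1, h2⟩

end Pool.Agent.Helper97.BG
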