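import Pool.Agent.Helper97.BG.Defs

/-!
Project BG (MP_8410f8_pr), piece G1.
-/

open MeasureTheory Set
open scoped ENNReal

namespace Pool.Agent.Helper97.BG

variable {d : ℕ}

theorem nrm_self (x : Sph d) : nrm x x = 0 := by
  unfold nrm
  rw [sub_self, norm_zero]
  exact min_eq_left (norm_nonneg _)

theorem nrm_nonneg (x v : Sph d) : 0 ≤ nrm x v := by
  exact le_min (norm_nonneg _) (norm_nonneg _)

theorem nrm_symm (x v : Sph d) : nrm x v = nrm v x := by
  unfold nrm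
  have h1 : ‖(v : V d) - x‖ = ‖(x : V d) - v‖ := norm_sub_rev _ _
  have h2 : ‖(v : V d) + x‖ = ‖(x : V d) + v‖ := congrArg norm (add_comm (v : V d) (x : V d))
  rw [h1, h2]

/-- If `‖u + v‖ < a` then `‖v - x‖ ≤ ‖v + u‖ + ‖u + x‖` and `‖v + x‖ ≤ ‖v + u‖ + ‖u - x‖`. -/
theorem nrm_lt_of_adj {a : ℝ} {x u v : Sph d} (h : ‖(u : V d) + v‖ < a) :
    nrm x v < nrm x u + a := by
  have h1 : ‖(v : V d) + x‖ ≤ ‖(u : V d) + v‖ + ‖(u : V d) - x‖ := by
    have : (v : V d) + x = ((u : V d) + v) - ((u : V d) - x) := by abel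
    rw [this]
    exact norm_sub_le _ _
  have h2 : ‖(v : V d) - x‖ ≤ ‖(u : V d) + v‖ + ‖(u : V d) + x‖ := by
    have : (v : V d) - x = ((u : V d) + v) - ((u : V d) + x) := by abel
    rw [this]
    exact norm_sub_le _ _
  unfold nrm
  rcases min_choice ‖(u : V d) - x‖ ‖(u : V d) + x‖ with h3 | h3
  · rw [h3]
    exact lt_of_le_of_lt (min_le_right _ _) (by linarith)
  · rw [h3]
    exact lt_of_le_of_lt (min_le_left _ _) (by linarith)

/-- If `tau x u = true` then `‖u - x‖ = nrm x u`, so `‖v + x‖ ≤ ‖v + u‖ + ‖u - x‖ < 1`, and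
`‖v - x‖ ≥ ‖2x‖ - ‖v + x‖ > 1`, so `tau x v = false`. If `tau x u = false` then
`‖u + x‖ = nrm x u`, `‖v - x‖ ≤ ‖v + u‖ + ‖u + x‖ < 1`, `‖v + x‖ > 1`, so `tau x v = true`. -/
theorem tau_ne_of_adj {a : ℝ} {x u v : Sph d} (h : ‖(u : V d) + v‖ < a)
    (hu : nrm x u + a ≤ 1) : tau x u ≠ tau x v := by
  have h1 : ‖(v : V d) + x‖ ≤ ‖(u : V d) + v‖ + ‖(u : V d) - x‖ := by
    have : (v : V d) + x = ((u : V d) + v) - ((u : V d) - x) := by abel
    rw [this]
    exact norm_sub_le _ _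
  have h2 : ‖(v : V d) - x‖ ≤ ‖(u : V d) + v‖ + ‖(u : V d) + x‖ := by
    have : (v : V d) - x = ((u : V d) + v) - ((u : V d) + x) := by abel
    rw [this]
    exact norm_sub_le _ _
  have hx : ‖(x : V d)‖ = 1 := by
    have := x.2
    rwa [mem_sphere_zero_iff_norm] at this
  have h3 : (2 : ℝ) ≤ ‖(v : V d) + x‖ + ‖(v : V d) - x‖ := by
    have h4 : (2 : ℝ) • (x : V d) = ((v : V d) + x) - ((v : V d) - x) := by
      rw [two_smul]; abel
    have h5 : ‖(2 : ℝ) • (x : V d)‖ = 2 := by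
      rw [norm_smul, hx]; norm_num
    rw [← h5, h4]
    exact norm_sub_le _ _
  unfold nrm at hu
  unfold tau
  by_cases h6 : ‖(u : V d) - x‖ < ‖(u : V d) + x‖
  · rw [min_eq_left h6.le] at hu
    have h7 : ¬ ‖(v : V d) - x‖ < ‖(v : V d) + x‖ := by
      intro h8
      linarith
    rw [decide_eq_true h6, decide_eq_false h7]
    decide
  · rw [min_eq_right (not_lt.mp h6)] at hu
    have h7 : ‖(v : V d) - x‖ < ‖(v : V d) + x‖ := by
      linarith
    rw [decide_eq_true h7, decide_eq_false h6]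
    decide

theorem continuous_nrm : Continuous fun p : Sph d × Sph d => nrm p.1 p.2 := by
  unfold nrm
  fun_prop

theorem isOpen_Dg (x : Sph d) (r : ℝ) : IsOpen (Dg x r) := by
  have h : Continuous fun v : Sph d => nrm x v := by
    unfold nrm
    fun_prop
  have h2 : Dg x r = (fun v : Sph d => nrm x v) ⁻¹' Iio r := rfl
  rw [h2]
  exact isOpen_Iio.preimage h

theorem measurableSet_Dg (x : Sph d) (r : ℝ) : MeasurableSet (Dg x r) :=
  (isOpen_Dg x r).measurableSet

theorem Dg_mono (x : Sph d) {r s : ℝ} (h : r ≤ s) : Dg x r ⊆ Dg x s :=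
  fun _ hv => lt_of_lt_of_le hv h

/-- `-x` is the antipodal point (`Metric.sphere` has a negation). -/
theorem Dg_subset (x : Sph d) (r : ℝ) : Dg x r ⊆ Metric.ball x r ∪ Metric.ball (-x) r := by
  intro v hv
  have hv' : min ‖(v : V d) - x‖ ‖(v : V d) + x‖ < r := hv
  rcases min_lt_iff.mp hv' with h | h
  · left
    rw [Metric.mem_ball, Subtype.dist_eq, dist_eq_norm]
    exact h
  · right
    rw [Metric.mem_ball, Subtype.dist_eq, dist_eq_norm]
    have : ((-x : Sph d) : V d) = -(x : V d) := rfl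
    rw [this, sub_neg_eq_add]
    exact h

/-- A colouring of a larger set colours the smaller set. -/
theorem Bad_mono {a : ℝ} (A B : Set (Sph d)) (h : A ⊆ B) (hA : Bad a A) : Bad a B := by
  intro hB
  apply hA
  obtain ⟨c, hc⟩ := hB
  exact ⟨c, fun u hu v hv => hc u (h hu) v (h hv)⟩

theorem not_Bad_empty (a : ℝ) : ¬ Bad a (∅ : Set (Sph d)) := by
  intro h
  apply h
  exact ⟨fun _ => true, fun u hu => absurd hu (Set.notMem_empty u)⟩

/-- `(A \ D) \ D = A \ D`. -/
theorem FF_local {a : ℝ} (x : Sph d) (r : ℝ) (A : Set (Sph d)) :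
    FF a x r A ↔ FF a x r (A \ Dg x r) := by
  unfold FF Ext
  have h : (A \ Dg x r) \ Dg x r = A \ Dg x r := by
    rw [Set.sdiff_sdiff, Set.union_self]
  rw [h]

theorem Col_two_iff {a : ℝ} (A : Set (Sph d)) : Col a 2 A ↔ Col2 a A := by
  constructor
  · rintro ⟨c, hc⟩
    refine ⟨fun u => finTwoEquiv (c u), fun u hu v hv huv => ?_⟩
    intro h
    exact hc u hu v hv huv (finTwoEquiv.injective h)
  · rintro ⟨c, hc⟩
    refine ⟨fun u => finTwoEquiv.symm (c u), fun u hu v hv huv => ?_⟩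
    intro h
    exact hc u hu v hv huv (finTwoEquiv.symm.injective h)

end Pool.Agent.Helper97.BG
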