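import Pool.Agent.Helper97.BG.Defs

/-!
Project BG (MP_8410f8_pr), piece V1.
-/

open MeasureTheory Set
open scoped ENNReal

namespace Pool.Agent.Helper97.BG

/-- `toSphere` of Lebesgue measure is finite and nonzero. -/
instance sig_prob (d : ℕ) : IsProbabilityMeasure (sig d) := by
  constructor
  unfold sig
  rw [Measure.smul_apply, smul_eq_mul]
  apply ENNReal.inv_mul_cancel
  · rw [Ne, Measure.measure_univ_eq_zero]
    exact Measure.toSphere_ne_zero _
  · exact measure_ne_top _ _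

open scoped Pointwise in
private lemma v1_cone (d : ℕ) (p : Sph d) (r : ℝ) (hr : 0 < r) (hr1 : r ≤ 1) :
    ENNReal.ofReal (1 / 4 * (r / (4 * (d + 1))) ^ d) ≤
      volume (Ioo (0 : ℝ) 1 • ((fun x : Sph d => (x : V d)) '' Metric.ball p r)) ∧
    volume (Ioo (0 : ℝ) 1 • ((fun x : Sph d => (x : V d)) '' Metric.ball p r)) ≤
      ENNReal.ofReal (2 * (2 * r) ^ d) := by
  have hp : ‖(p : V d)‖ = 1 := by simp
  obtain ⟨b, hb⟩ := Orthonormal.exists_orthonormalBasis_extension_of_card_eq (𝕜 := ℝ)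
    (E := V d) (ι := Fin (d + 1)) (by simp) (v := fun _ => (p : V d)) (s := {0}) (by
      rw [orthonormal_iff_ite]
      rintro ⟨i, hi⟩ ⟨j, hj⟩
      simp only [Set.mem_singleton_iff] at hi hj
      subst hi; subst hj
      simp [hp])
  have hb0 : b 0 = (p : V d) := hb 0 rfl
  let φ : V d → (Fin (d + 1) → ℝ) := fun y i => inner ℝ (b i) y
  have hφ : MeasurePreserving φ (volume : Measure (V d)) volume := by
    have h1 := (PiLp.volume_preserving_ofLp (Fin (d + 1))).comp b.measurePreserving_repr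
    have h2 : (WithLp.ofLp : V d → (Fin (d + 1) → ℝ)) ∘ b.repr = φ := by
      funext y i
      simp [φ, OrthonormalBasis.repr_apply_apply]
    rw [← h2]
    exact h1
  have hbox : ∀ a c : Fin (d + 1) → ℝ, volume (φ ⁻¹' (Set.pi univ fun i => Ioo (a i) (c i))) =
      ∏ i, ENNReal.ofReal (c i - a i) := by
    intro a c
    rw [hφ.measure_preimage (MeasurableSet.univ_pi fun i => measurableSet_Ioo).nullMeasurableSet,
      Real.volume_pi_Ioo]
  constructor
  · let e : ℝ := r / (8 * (d + 1))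
    have he : 0 < e := by positivity
    let a : Fin (d + 1) → ℝ := Fin.cons (1 / 2) fun _ => -e
    let c : Fin (d + 1) → ℝ := Fin.cons (3 / 4) fun _ => e
    have hv : ∏ i, ENNReal.ofReal (c i - a i) =
        ENNReal.ofReal (1 / 4 * (r / (4 * (d + 1))) ^ d) := by
      rw [Fin.prod_univ_succ]
      simp only [a, c, Fin.cons_zero, Fin.cons_succ, Finset.prod_const, Finset.card_univ,
        Fintype.card_fin]
      rw [← ENNReal.ofReal_pow (by linarith), ← ENNReal.ofReal_mul (by norm_num)]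
      congr 2
      · norm_num
      · congr 1
        simp only [e]
        field_simp
        ring
    rw [← hv, ← hbox]
    apply measure_mono
    intro y hy
    have h0 : 1 / 2 < inner ℝ (p : V d) y ∧ inner ℝ (p : V d) y < 3 / 4 := by
      have := hy 0 (Set.mem_univ _)
      simpa [φ, a, c, hb0] using this
    have hi : ∀ i : Fin d, |inner ℝ (b i.succ) y| < e := by
      intro i
      have := hy i.succ (Set.mem_univ _)
      rw [abs_lt]
      simpa [φ, a, c] using this
    set s : ℝ := inner ℝ (p : V d) y with hs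
    -- the orthogonal part
    have hsum : y - s • (p : V d) = ∑ i : Fin d, (inner ℝ (b i.succ) y : ℝ) • b i.succ := by
      have h1 := b.sum_repr' y
      rw [Fin.sum_univ_succ, hb0] at h1
      rw [sub_eq_iff_eq_add, add_comm, hs]
      exact h1.symm
    have horth : ‖y - s • (p : V d)‖ ≤ r / 8 := by
      rw [hsum]
      calc ‖∑ i : Fin d, (inner ℝ (b i.succ) y : ℝ) • b i.succ‖
          ≤ ∑ i : Fin d, ‖(inner ℝ (b i.succ) y : ℝ) • b i.succ‖ := norm_sum_le _ _
        _ ≤ ∑ _i : Fin d, e := by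
            apply Finset.sum_le_sum
            intro i _
            rw [norm_smul, b.norm_eq_one, mul_one]
            exact (hi i).le
        _ = d * e := by simp
        _ ≤ r / 8 := by
            simp only [e]
            rw [mul_div_assoc', div_le_div_iff₀ (by positivity) (by norm_num)]
            nlinarith
    have hsp : ‖s • (p : V d)‖ = s := by
      rw [norm_smul, hp, mul_one, Real.norm_eq_abs, abs_of_pos (by linarith [h0.1])]
    have hny1 : ‖y‖ ≤ s + r / 8 := by
      have : y = s • (p : V d) + (y - s • (p : V d)) := by abel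
      calc ‖y‖ = ‖s • (p : V d) + (y - s • (p : V d))‖ := by rw [← this]
        _ ≤ ‖s • (p : V d)‖ + ‖y - s • (p : V d)‖ := norm_add_le _ _
        _ ≤ s + r / 8 := by rw [hsp]; linarith
    have hny2 : s ≤ ‖y‖ := by
      calc s = inner ℝ (p : V d) y := hs
        _ ≤ ‖(p : V d)‖ * ‖y‖ := real_inner_le_norm _ _
        _ = ‖y‖ := by rw [hp, one_mul]
    have hy0 : 0 < ‖y‖ := by linarith [h0.1]
    have hyne : y ≠ 0 := norm_pos_iff.mp hy0
    have hyy : ‖y‖ • ((‖y‖⁻¹ : ℝ) • y) = y := by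
      rw [smul_smul, mul_inv_cancel₀ hy0.ne', one_smul]
    refine ⟨‖y‖, ⟨hy0, by linarith [h0.2]⟩, (‖y‖⁻¹ : ℝ) • y, ?_, hyy⟩
    refine ⟨⟨(‖y‖⁻¹ : ℝ) • y, ?_⟩, ?_, rfl⟩
    · rw [mem_sphere_zero_iff_norm, norm_smul, norm_inv, norm_norm, inv_mul_cancel₀ hy0.ne']
    · rw [Metric.mem_ball, Subtype.dist_eq, dist_eq_norm]
      change ‖(‖y‖⁻¹ : ℝ) • y - (p : V d)‖ < r
      have h1 : ‖y‖ • ((‖y‖⁻¹ : ℝ) • y - (p : V d)) =
          (y - s • (p : V d)) - (‖y‖ - s) • (p : V d) := by
        rw [smul_sub, hyy, sub_smul]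
        abel
      have h2 : ‖y‖ * ‖(‖y‖⁻¹ : ℝ) • y - (p : V d)‖ ≤ r / 8 + r / 8 := by
        calc ‖y‖ * ‖(‖y‖⁻¹ : ℝ) • y - (p : V d)‖
            = ‖‖y‖ • ((‖y‖⁻¹ : ℝ) • y - (p : V d))‖ := by rw [norm_smul, norm_norm]
          _ = ‖(y - s • (p : V d)) - (‖y‖ - s) • (p : V d)‖ := by rw [h1]
          _ ≤ ‖y - s • (p : V d)‖ + ‖(‖y‖ - s) • (p : V d)‖ := norm_sub_le _ _
          _ ≤ r / 8 + r / 8 := by
              apply add_le_add horth
              rw [norm_smul, hp, mul_one, Real.norm_eq_abs, abs_of_nonneg (by linarith)]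
              linarith
      have h3 : (1 / 2 : ℝ) * ‖(‖y‖⁻¹ : ℝ) • y - (p : V d)‖ ≤ r / 8 + r / 8 := by
        refine le_trans ?_ h2
        apply mul_le_mul_of_nonneg_right _ (norm_nonneg _)
        linarith [h0.1]
      linarith
  · let a : Fin (d + 1) → ℝ := Fin.cons (-1) fun _ => -r
    let c : Fin (d + 1) → ℝ := Fin.cons 1 fun _ => r
    have hv : ∏ i, ENNReal.ofReal (c i - a i) = ENNReal.ofReal (2 * (2 * r) ^ d) := by
      rw [Fin.prod_univ_succ]
      simp only [a, c, Fin.cons_zero, Fin.cons_succ, Finset.prod_const, Finset.card_univ,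
        Fintype.card_fin]
      rw [← ENNReal.ofReal_pow (by linarith), ← ENNReal.ofReal_mul (by norm_num)]
      congr 2
      · norm_num
      · congr 1
        ring
    rw [← hv, ← hbox]
    apply measure_mono
    rintro y ⟨t, ⟨ht0, ht1⟩, _, ⟨z, hz, rfl⟩, rfl⟩
    have hzn : ‖(z : V d)‖ = 1 := by simp
    rw [Metric.mem_ball, Subtype.dist_eq, dist_eq_norm] at hz
    intro i _
    change inner ℝ (b i) (t • (z : V d)) ∈ Ioo (a i) (c i)
    rw [inner_smul_right]
    refine Fin.cases ?_ (fun j => ?_) i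
    · have h1 : |inner ℝ (b 0) (z : V d)| ≤ 1 := by
        calc |inner ℝ (b 0) (z : V d)| ≤ ‖b 0‖ * ‖(z : V d)‖ := abs_real_inner_le_norm _ _
          _ = 1 := by rw [b.norm_eq_one, hzn, mul_one]
      have h2 : |t * inner ℝ (b 0) (z : V d)| < 1 := by
        rw [abs_mul, abs_of_pos ht0]
        nlinarith [abs_nonneg (inner ℝ (b 0) (z : V d))]
      exact abs_lt.mp h2
    · have h0 : inner ℝ (b j.succ) (p : V d) = 0 := by
        rw [← hb0]
        exact b.inner_eq_zero (Fin.succ_ne_zero j)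
      have h1 : |inner ℝ (b j.succ) (z : V d)| ≤ ‖(z : V d) - p‖ := by
        calc |inner ℝ (b j.succ) (z : V d)| = |inner ℝ (b j.succ) ((z : V d) - p)| := by
              rw [inner_sub_right, h0, sub_zero]
          _ ≤ ‖b j.succ‖ * ‖(z : V d) - p‖ := abs_real_inner_le_norm _ _
          _ = ‖(z : V d) - p‖ := by rw [b.norm_eq_one, one_mul]
      have h2 : |t * inner ℝ (b j.succ) (z : V d)| < r := by
        rw [abs_mul, abs_of_pos ht0]
        nlinarith [abs_nonneg (inner ℝ (b j.succ) (z : V d))]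
      exact abs_lt.mp h2

private lemma v1_dim (d : ℕ) : ((Module.finrank ℝ (V d) : ℕ) : ℝ≥0∞) = ENNReal.ofReal (d + 1) := by
  rw [finrank_euclideanSpace_fin]
  rw [← Nat.cast_succ, ENNReal.ofReal_natCast]

private lemma v1_toSphere (d : ℕ) (p : Sph d) (r : ℝ) (hr : 0 < r) (hr1 : r ≤ 1) :
    ENNReal.ofReal (d + 1) * ENNReal.ofReal (1 / 4 * (r / (4 * (d + 1))) ^ d) ≤
      (volume : Measure (V d)).toSphere (Metric.ball p r) ∧
    (volume : Measure (V d)).toSphere (Metric.ball p r) ≤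
      ENNReal.ofReal (d + 1) * ENNReal.ofReal (2 * (2 * r) ^ d) := by
  obtain ⟨h1, h2⟩ := v1_cone d p r hr hr1
  rw [Measure.toSphere_apply' _ measurableSet_ball, v1_dim]
  exact ⟨by gcongr, by gcongr⟩

/-- Volumes of caps. `Measure.toSphere_apply'`: the unnormalised measure of `s` is
`(d+1) * volume (Ioo 0 1 • s)`, so `sig d (ball p r)` is the volume of the open cone
`{t y | 0 < t < 1, y ∈ S^d, ‖y - p‖ < r}` divided by the volume of the unit ball. Reflecting
(`reflection_sub`, a volume preserving linear isometry) we may take `p = e_0`. Upper bound: the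
cone lies in the box `|y_0| ≤ 1`, `|y_i| ≤ r` (`i ≥ 1`): if `y = t z`, `‖z - e_0‖ < r` then
`|y_i| = t |z_i| ≤ r`. Lower bound: the cone contains the box `1/2 < y_0 < 3/4`,
`|y_i| < r / (8 (d+1))` (`i ≥ 1`): then `‖y‖ < 1`, and for `z = y/‖y‖`,
`‖z - e_0‖ ≤ 2 ‖y - y_0 e_0‖ / y_0 ≤ 4 ‖y - y_0 e_0‖ < r`. Volume of a box in
`EuclideanSpace`: `EuclideanSpace.volume_preserving_measurableEquiv` / `Real.volume_pi_Ioo`. -/
theorem sig_ball (d : ℕ) : ∃ v w : ℝ, 0 < v ∧ 0 < w ∧ ∀ (p : Sph d) (r : ℝ), 0 < r → r ≤ 1 →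
    ENNReal.ofReal (v * r ^ d) ≤ sig d (Metric.ball p r) ∧
    sig d (Metric.ball p r) ≤ ENNReal.ofReal (w * r ^ d) := by
  set T : ℝ≥0∞ := (volume : Measure (V d)).toSphere univ with hT
  have hT0 : T ≠ 0 := by
    rw [hT, Ne, Measure.measure_univ_eq_zero]
    exact Measure.toSphere_ne_zero _
  have hT1 : T ≠ ⊤ := measure_ne_top _ _
  have hTp : 0 < T.toReal := ENNReal.toReal_pos hT0 hT1
  have hTi : T⁻¹ = ENNReal.ofReal (T.toReal)⁻¹ := by
    rw [ENNReal.ofReal_inv_of_pos hTp, ENNReal.ofReal_toReal hT1]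
  refine ⟨(T.toReal)⁻¹ * ((d + 1) * (1 / 4 * (1 / (4 * (d + 1))) ^ d)),
    (T.toReal)⁻¹ * ((d + 1) * (2 * 2 ^ d)), by positivity, by positivity, ?_⟩
  intro p r hr hr1
  obtain ⟨h1, h2⟩ := v1_toSphere d p r hr hr1
  have h3 : sig d (Metric.ball p r) = ENNReal.ofReal (T.toReal)⁻¹ *
      (volume : Measure (V d)).toSphere (Metric.ball p r) := by
    unfold sig
    rw [Measure.smul_apply, smul_eq_mul, ← hT, hTi]
  rw [h3]
  constructor
  · calc ENNReal.ofReal ((T.toReal)⁻¹ * ((d + 1) * (1 / 4 * (1 / (4 * (d + 1))) ^ d)) * r ^ d)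
        = ENNReal.ofReal (T.toReal)⁻¹ * (ENNReal.ofReal (d + 1) *
          ENNReal.ofReal (1 / 4 * (r / (4 * (d + 1))) ^ d)) := by
          rw [← ENNReal.ofReal_mul (by positivity), ← ENNReal.ofReal_mul (by positivity)]
          congr 1
          rw [div_pow, div_pow]
          ring
      _ ≤ _ := by gcongr
  · calc ENNReal.ofReal (T.toReal)⁻¹ * (volume : Measure (V d)).toSphere (Metric.ball p r)
        ≤ ENNReal.ofReal (T.toReal)⁻¹ * (ENNReal.ofReal (d + 1) *
          ENNReal.ofReal (2 * (2 * r) ^ d)) := by gcongr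
      _ = _ := by
          rw [← ENNReal.ofReal_mul (by positivity), ← ENNReal.ofReal_mul (by positivity)]
          congr 1
          rw [mul_pow]
          ring

end Pool.Agent.Helper97.BG
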