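import Pool.Agent.Helper97.BG.Defs

/-!
Project BG (MP_8410f8_pr), piece M1.
-/

open MeasureTheory Set
open scoped ENNReal

namespace Pool.Agent.Helper97.BG

variable {d : ℕ}

/-- `Col a k (range X)` iff there is `c : Fin n → Fin k` with `c i ≠ c j` whenever
`‖X i + X j‖ < a` (from right to left use, for each point `u` of the range, one chosen index `i`
with `X i = u`, and `0 : Fin k` off the range). -/
theorem Col_range_iff (a : ℝ) {k : ℕ} (hk : 0 < k) {n : ℕ} (X : Fin n → Sph d) :
    Col a k (Set.range X) ↔
      ∃ c : Fin n → Fin k, ∀ i j, ‖(X i : V d) + X j‖ < a → c i ≠ c j := by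
  classical
  constructor
  · rintro ⟨c, hc⟩
    exact ⟨fun i => c (X i), fun i j hij => hc (X i) ⟨i, rfl⟩ (X j) ⟨j, rfl⟩ hij⟩
  · rintro ⟨c, hc⟩
    refine ⟨fun u => if h : ∃ i, X i = u then c h.choose else ⟨0, hk⟩, ?_⟩
    rintro u hu v hv huv
    have hu' : ∃ i, X i = u := hu
    have hv' : ∃ i, X i = v := hv
    simp only [dif_pos hu', dif_pos hv']
    apply hc
    rw [hu'.choose_spec, hv'.choose_spec]
    exact huv

theorem m1_nonempty (d : ℕ) : Nonempty (Sph d) := by
  refine ⟨⟨EuclideanSpace.single 0 (1 : ℝ), ?_⟩⟩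
  simp

theorem m1_set (a : ℝ) {k : ℕ} (hk : 0 < k) (n : ℕ) :
    MeasurableSet {X : Fin n → Sph d | Col a k (Set.range X)} := by
  classical
  have hset : {X : Fin n → Sph d | Col a k (Set.range X)} =
      ⋃ c : Fin n → Fin k, ⋂ i : Fin n, ⋂ j : Fin n,
        {X : Fin n → Sph d | ‖(X i : V d) + X j‖ < a → c i ≠ c j} := by
    ext X
    simp only [Set.mem_setOf_eq, Set.mem_iUnion, Set.mem_iInter]
    exact Col_range_iff a hk X
  rw [hset]
  refine MeasurableSet.iUnion fun c => MeasurableSet.iInter fun i => MeasurableSet.iInter fun j => ?_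
  by_cases hcc : c i ≠ c j
  · have : {X : Fin n → Sph d | ‖(X i : V d) + X j‖ < a → c i ≠ c j} = Set.univ := by
      ext X; simp [hcc]
    rw [this]; exact MeasurableSet.univ
  · have : {X : Fin n → Sph d | ‖(X i : V d) + X j‖ < a → c i ≠ c j} =
        {X : Fin n → Sph d | a ≤ ‖(X i : V d) + X j‖} := by
      ext X
      simp only [Set.mem_setOf_eq]
      constructor
      · intro h
        by_contra h2
        exact hcc (h (not_le.mp h2))
      · intro h h2
        exact absurd h (not_le.mpr h2)
    rw [this]
    have hcont : Continuous fun X : Fin n → Sph d => ‖(X i : V d) + X j‖ := by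
      fun_prop
    exact measurableSet_le measurable_const hcont.measurable

theorem m1_measurable_ind {T : Type*} [MeasurableSpace T] {p : T → Prop}
    (hp : MeasurableSet {t | p t}) : Measurable fun t => ind (¬ p t) := by
  classical
  have : (fun t => ind (¬ p t)) = Set.indicator {t | p t}ᶜ (fun _ => (1 : ℝ≥0∞)) := by
    funext t
    by_cases h : p t
    · simp [ind, h, Set.indicator]
    · simp [ind, h, Set.indicator]
  rw [this]
  exact measurable_const.indicator hp.compl

/-- By `Col_range_iff` the set `{X | Col a k (range X)}` is a finite union (over `c`) of finite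
intersections (over `i, j` with `c i = c j`) of the measurable sets `{X | a ≤ ‖X i + X j‖}`. For
`k = 0` the function is constant (there is no map `Sph d → Fin 0`, the sphere is nonempty). -/
theorem MS_notCol (a : ℝ) (k : ℕ) : MS (fun A : Set (Sph d) => ind (¬ Col a k A)) := by
  intro n
  rcases Nat.eq_zero_or_pos k with hk | hk
  · subst hk
    have : ∀ A : Set (Sph d), ¬ Col a 0 A := by
      rintro A ⟨c, -⟩
      exact (c (m1_nonempty d).some).elim0
    have h2 : (fun X : Fin n → Sph d => ind (¬ Col a 0 (Set.range X))) = fun _ => 1 := by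
      funext X
      simp [ind, this]
    rw [h2]
    exact measurable_const
  · exact m1_measurable_ind (m1_set a hk n)

theorem m1_col2_iff (a : ℝ) (A : Set (Sph d)) : Col2 a A ↔ Col a 2 A := by
  constructor
  · rintro ⟨c, hc⟩
    refine ⟨fun u => if c u = true then 0 else 1, ?_⟩
    intro u hu v hv huv
    have := hc u hu v hv huv
    cases h1 : c u <;> cases h2 : c v <;> simp_all
  · rintro ⟨c, hc⟩
    refine ⟨fun u => decide (c u = 0), ?_⟩
    intro u hu v hv huv
    have h := hc u hu v hv huv
    intro h3
    apply h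
    have h4 : (c u = 0) ↔ (c v = 0) := by
      simpa using h3
    by_cases h5 : c u = 0
    · rw [h5, h4.mp h5]
    · have h6 : c v ≠ 0 := fun h => h5 (h4.mpr h)
      have : ∀ x : Fin 2, x ≠ 0 → x = 1 := by decide
      rw [this _ h5, this _ h6]

theorem MS_Bad (a : ℝ) : MS (fun A : Set (Sph d) => ind (Bad a A)) := by
  have h := MS_notCol (d := d) a 2
  have h2 : (fun A : Set (Sph d) => ind (Bad a A)) = fun A : Set (Sph d) => ind (¬ Col a 2 A) := by
    funext A
    have : Bad a A = ¬ Col a 2 A := by
      unfold Bad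
      rw [m1_col2_iff]
    rw [this]
  rw [h2]
  exact h

end Pool.Agent.Helper97.BG
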