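import Pool.Agent.Helper97.BG.Defs

/-!
Project BG (MP_8410f8_pr), piece P1.
-/

open MeasureTheory Set
open scoped ENNReal

namespace Pool.Agent.Helper97.BG

variable {S : Type*} [MeasurableSpace S]

/-- `Fin 0 → S` has one point, with empty range (`Measure.pi_of_empty`). -/
theorem tup_zero (mu : Measure S) [IsFiniteMeasure mu] (f : Set S → ℝ≥0∞) : tup mu 0 f = f ∅ := by
  unfold tup
  have h : ∀ X : Fin 0 → S, f (Set.range X) = f ∅ := by
    intro X
    rw [Set.range_eq_empty]
  simp_rw [h]
  rw [lintegral_const]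
  simp

/-- Split off the first coordinate: `(Fin (n+1) → S) ≃ᵐ S × (Fin n → S)`
(`MeasurableEquiv.piFinSuccAbove _ 0`, `measurePreserving_piFinSuccAbove`), Tonelli
(`lintegral_prod`), and `range (Fin.cons x X) = insert x (range X)` (`Fin.range_cons`).
`fun (x, X) => f (insert x (range X))` is measurable by `hf (n + 1)` composed with `Fin.cons`. -/
theorem tup_succ (mu : Measure S) [IsFiniteMeasure mu] {f : Set S → ℝ≥0∞} (hf : MS f) (n : ℕ) :
    tup mu (n + 1) f = ∫⁻ x, tup mu n (fun A => f (insert x A)) ∂mu := by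
  unfold tup
  have hmp := (measurePreserving_piFinSuccAbove (fun _ : Fin (n + 1) => mu) 0).symm
  have hr : ∀ p : S × (Fin n → S),
      Set.range ((MeasurableEquiv.piFinSuccAbove (fun _ : Fin (n + 1) => S) 0).symm p) =
        insert p.1 (Set.range p.2) := by
    rintro ⟨x, X⟩
    have h1 : (MeasurableEquiv.piFinSuccAbove (fun _ : Fin (n + 1) => S) 0).symm (x, X) =
        (Fin.cons x X : Fin (n + 1) → S) := by
      change (Fin.insertNth (α := fun _ : Fin (n + 1) => S) 0 x X : Fin (n + 1) → S) = _
      exact Fin.insertNth_zero' x X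
    rw [h1]
    exact Fin.range_cons x X
  have hm : Measurable fun p : S × (Fin n → S) => f (insert p.1 (Set.range p.2)) := by
    have h1 := (hf (n + 1)).comp
      (MeasurableEquiv.piFinSuccAbove (fun _ : Fin (n + 1) => S) 0).symm.measurable
    have h2 : ((fun X : Fin (n + 1) → S => f (Set.range X)) ∘
        (MeasurableEquiv.piFinSuccAbove (fun _ : Fin (n + 1) => S) 0).symm) =
        fun p : S × (Fin n → S) => f (insert p.1 (Set.range p.2)) := by
      funext p
      change f (Set.range _) = _
      rw [hr]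
    rw [← h2]
    exact h1
  rw [← hmp.lintegral_comp (hf (n + 1))]
  have h3 : ∀ p : S × (Fin n → S),
      f (Set.range ((MeasurableEquiv.piFinSuccAbove (fun _ : Fin (n + 1) => S) 0).symm p)) =
        f (insert p.1 (Set.range p.2)) := by
    intro p
    rw [hr]
  simp_rw [h3]
  exact lintegral_prod _ hm.aemeasurable

/-- Monotonicity of the integral. -/
theorem tup_mono (mu : Measure S) (n : ℕ) {f g : Set S → ℝ≥0∞}
    (h : ∀ A : Set S, A.Finite → f A ≤ g A) :
    tup mu n f ≤ tup mu n g := by
  unfold tup
  exact lintegral_mono fun X => h _ (Set.finite_range X)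

/-- The total mass of the product measure is `(mu univ)^n` (`Measure.pi_univ`). -/
theorem tup_const (mu : Measure S) [IsFiniteMeasure mu] (n : ℕ) (c : ℝ≥0∞) :
    tup mu n (fun _ => c) = c * (mu univ) ^ n := by
  unfold tup
  rw [lintegral_const, Measure.pi_univ]
  simp

/-- `lintegral_const_mul`. -/
theorem tup_const_mul (mu : Measure S) (n : ℕ) {f : Set S → ℝ≥0∞} (hf : MS f) (c : ℝ≥0∞) :
    tup mu n (fun A => c * f A) = c * tup mu n f := by
  unfold tup
  exact lintegral_const_mul c (hf n)

/-- `lintegral_add_left`. -/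
theorem tup_add_fun (mu : Measure S) (n : ℕ) {f : Set S → ℝ≥0∞} (hf : MS f) (g : Set S → ℝ≥0∞) :
    tup mu n (fun A => f A + g A) = tup mu n f + tup mu n g := by
  unfold tup
  exact lintegral_add_left (hf n) _

/-- `lintegral_const_mul'`-type inequality without measurability is not needed; this is the
special case of a bounded function: if `f ≤ M` then `tup mu n f ≤ M * (mu univ)^n`. -/
theorem tup_le (mu : Measure S) [IsFiniteMeasure mu] (n : ℕ) {f : Set S → ℝ≥0∞} (M : ℝ≥0∞)
    (h : ∀ A, f A ≤ M) : tup mu n f ≤ M * (mu univ) ^ n := by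
  rw [← tup_const]
  exact tup_mono mu n fun A _ => h A

end Pool.Agent.Helper97.BG
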