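import Pool.Agent.Helper97.BG.Defs

/-!
Project BG (MP_8410f8_pr), piece P2.
-/

open MeasureTheory Set
open scoped ENNReal

namespace Pool.Agent.Helper97.BG

variable {S : Type*} [MeasurableSpace S] {T : Type*} [MeasurableSpace T]

private lemma p2_cons (n : ℕ) :
    Measurable fun p : S × (Fin n → S) => (Fin.cons p.1 p.2 : Fin (n + 1) → S) := by
  rw [measurable_pi_iff]
  intro i
  refine Fin.cases ?_ (fun j => ?_) i
  · simpa using measurable_fst
  · have h : Measurable fun p : S × (Fin n → S) => p.2 j :=
      (measurable_pi_apply j).comp measurable_snd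
    simpa using h

private lemma p2_append (m n : ℕ) :
    Measurable fun p : (Fin m → S) × (Fin n → S) => (Fin.append p.1 p.2 : Fin (m + n) → S) := by
  rw [measurable_pi_iff]
  intro i
  refine Fin.addCases (fun j => ?_) (fun j => ?_) i
  · have h : Measurable fun p : (Fin m → S) × (Fin n → S) => p.1 j :=
      (measurable_pi_apply j).comp measurable_fst
    simpa using h
  · have h : Measurable fun p : (Fin m → S) × (Fin n → S) => p.2 j :=
      (measurable_pi_apply j).comp measurable_snd
    simpa using h

omit [MeasurableSpace S] in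
private lemma p2_range {m n : ℕ} (X : Fin m → S) (Y : Fin n → S) :
    Set.range (Fin.append X Y) = Set.range X ∪ Set.range Y := by
  ext s
  constructor
  · rintro ⟨i, rfl⟩
    refine Fin.addCases (fun j => ?_) (fun j => ?_) i
    · left; exact ⟨j, by simp⟩
    · right; exact ⟨j, by simp⟩
  · rintro (⟨j, rfl⟩ | ⟨j, rfl⟩)
    · exact ⟨Fin.castAdd n j, by simp⟩
    · exact ⟨Fin.natAdd m j, by simp⟩

/-- `f (insert x (range X)) = f (range (Fin.cons x X))`, and `(x, X) ↦ Fin.cons x X` is measurable. -/
theorem MS_insert {f : Set S → ℝ≥0∞} (hf : MS f) : MS1 (fun (x : S) A => f (insert x A)) := by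
  intro n
  have h := (hf (n + 1)).comp (p2_cons (S := S) n)
  have e : (fun p : S × (Fin n → S) => f (insert p.1 (Set.range p.2))) =
      (fun X : Fin (n + 1) → S => f (Set.range X)) ∘ fun p => Fin.cons p.1 p.2 := by
    funext p
    simp only [Function.comp]
    rw [Fin.range_cons]
  change Measurable fun p : S × (Fin n → S) => f (insert p.1 (Set.range p.2))
  rw [e]
  exact h

/-- A section of a jointly measurable function. -/
theorem MS1_at {f : T → Set S → ℝ≥0∞} (hf : MS1 f) (t : T) : MS (f t) := by
  intro n
  exact (hf n).comp measurable_prodMk_left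

/-- `range X ∪ range Y = range (Fin.append X Y)` and `Fin.append` is measurable. -/
theorem MS_union {f : Set S → ℝ≥0∞} (hf : MS f) (m n : ℕ) :
    Measurable fun p : (Fin m → S) × (Fin n → S) => f (Set.range p.1 ∪ Set.range p.2) := by
  have h := (hf (m + n)).comp (p2_append (S := S) m n)
  have e : (fun p : (Fin m → S) × (Fin n → S) => f (Set.range p.1 ∪ Set.range p.2)) =
      (fun X : Fin (m + n) → S => f (Set.range X)) ∘ fun p => Fin.append p.1 p.2 := by
    funext p
    simp only [Function.comp]
    rw [p2_range]
  rw [e]
  exact h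

/-- A finite set is `range X` for some `X : Fin m → S`; section of `MS_union`. -/
theorem MS_union_left {f : Set S → ℝ≥0∞} (hf : MS f) {A : Set S} (hA : A.Finite) :
    MS (fun B => f (A ∪ B)) := by
  obtain ⟨m, X, -, hX⟩ := hA.fin_param
  intro n
  rw [← hX]
  exact (MS_union hf m n).comp measurable_prodMk_left

/-- Measurability of parameter integrals (`Measurable.lintegral_prod_right'`). -/
theorem MS_union_tup (nu : Measure S) [IsFiniteMeasure nu] {f : Set S → ℝ≥0∞} (hf : MS f)
    (n : ℕ) : MS (fun A => tup nu n (fun B => f (A ∪ B))) := by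
  intro m
  exact (MS_union hf m n).lintegral_prod_right'

/-- Countable sum of measurable functions. -/
theorem MS_union_Poi (nu : Measure S) [IsFiniteMeasure nu] {f : Set S → ℝ≥0∞} (hf : MS f) :
    MS (fun A => Poi nu (fun B => f (A ∪ B))) := by
  intro m
  unfold Poi
  apply Measurable.const_mul
  apply Measurable.tsum
  intro n
  exact (MS_union_tup nu hf n m).const_mul _

/-- Finite sum of measurable functions. -/
theorem MS_union_PoiT (nu : Measure S) [IsFiniteMeasure nu] (k : ℕ) {f : Set S → ℝ≥0∞}
    (hf : MS f) : MS (fun A => PoiT nu k (fun B => f (A ∪ B))) := by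
  intro m
  unfold PoiT
  apply Measurable.const_mul
  apply Finset.measurable_fun_sum
  intro n _
  exact (MS_union_tup nu hf n m).const_mul _

/-- Measurability of parameter integrals. -/
theorem MS1_measurable_tup (mu : Measure S) [IsFiniteMeasure mu] {f : T → Set S → ℝ≥0∞}
    (hf : MS1 f) (n : ℕ) : Measurable fun t => tup mu n (f t) := by
  unfold tup
  exact (hf n).lintegral_prod_right'

/-- Countable sum of measurable functions. -/
theorem MS1_measurable_Poi (mu : Measure S) [IsFiniteMeasure mu] {f : T → Set S → ℝ≥0∞}
    (hf : MS1 f) : Measurable fun t => Poi mu (f t) := by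
  unfold Poi
  apply Measurable.const_mul
  apply Measurable.tsum
  intro n
  exact (MS1_measurable_tup mu hf n).const_mul _

private lemma p2_union2 {f : T → Set S → ℝ≥0∞} (hf : MS1 f) (m n : ℕ) :
    Measurable fun p : (T × (Fin m → S)) × (Fin n → S) =>
      f p.1.1 (Set.range p.1.2 ∪ Set.range p.2) := by
  have h1 : Measurable fun p : (T × (Fin m → S)) × (Fin n → S) =>
      ((p.1.1, (Fin.append p.1.2 p.2 : Fin (m + n) → S)) : T × (Fin (m + n) → S)) := by
    apply Measurable.prodMk (measurable_fst.comp measurable_fst)
    exact (p2_append (S := S) m n).comp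
      (Measurable.prodMk (measurable_snd.comp measurable_fst) measurable_snd)
  have h := (hf (m + n)).comp h1
  have e : (fun p : (T × (Fin m → S)) × (Fin n → S) =>
      f p.1.1 (Set.range p.1.2 ∪ Set.range p.2)) =
      (fun p : T × (Fin (m + n) → S) => f p.1 (Set.range p.2)) ∘
        fun p => (p.1.1, Fin.append p.1.2 p.2) := by
    funext p
    simp only [Function.comp]
    rw [p2_range]
  rw [e]
  exact h

/-- `A = range Y`; `(t, X) ↦ f t (range Y ∪ range X)` is `f` at `Fin.append Y X`. -/
theorem MS1_union {f : T → Set S → ℝ≥0∞} (hf : MS1 f) {A : Set S} (hA : A.Finite) :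
    MS1 (fun t B => f t (A ∪ B)) := by
  obtain ⟨m, Y, -, hY⟩ := hA.fin_param
  intro n
  rw [← hY]
  have hg : Measurable fun p : T × (Fin n → S) => (((p.1, Y) : T × (Fin m → S)), p.2) :=
    Measurable.prodMk (Measurable.prodMk measurable_fst measurable_const) measurable_snd
  exact (p2_union2 hf m n).comp hg

/-- `((t, X), Y) ↦ f t (range X ∪ range Y)` is measurable (append), then a parameter integral. -/
theorem MS1_union_Poi (nu : Measure S) [IsFiniteMeasure nu] {f : T → Set S → ℝ≥0∞}
    (hf : MS1 f) : MS1 (fun t A => Poi nu (fun B => f t (A ∪ B))) := by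
  intro m
  unfold Poi
  apply Measurable.const_mul
  apply Measurable.tsum
  intro n
  apply Measurable.const_mul
  exact (p2_union2 hf m n).lintegral_prod_right'

private lemma p2_set {Y : Type*} [MeasurableSpace Y] {P : Y → Prop}
    (h : Measurable fun y => ind (P y)) : MeasurableSet {y | P y} := by
  have h1 := h (measurableSet_singleton (1 : ℝ≥0∞))
  have h2 : (fun y => ind (P y)) ⁻¹' {1} = {y | P y} := by
    ext y
    simp only [Set.mem_preimage, Set.mem_singleton_iff, Set.mem_ofPred_eq, ind]
    split_ifs with hy
    · simp [hy]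
    · simp [hy]
  rwa [h2] at h1

private lemma p2_ind {Y : Type*} [MeasurableSpace Y] {P : Y → Prop}
    (h : MeasurableSet {y | P y}) : Measurable fun y => ind (P y) := by
  classical
  unfold ind
  exact Measurable.ite h measurable_const measurable_const

/-- `pv E t A = ind (¬ E A ∧ E (insert t A))`. The set `{(t, X) | E (insert t (range X))}` is
measurable because its indicator is (`MS_insert hE`), and `{X | E (range X)}` too; an indicator
`ind p` is measurable iff the set is (preimage of `{1}`). -/
theorem MS1_pv {E : Set S → Prop} (hE : MS (fun A => ind (E A))) : MS1 (pv E) := by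
  intro n
  unfold pv
  apply p2_ind
  have h1 : MeasurableSet {p : S × (Fin n → S) | E (insert p.1 (Set.range p.2))} :=
    p2_set (MS_insert hE n)
  have h2 : MeasurableSet {X : Fin n → S | E (Set.range X)} := p2_set (hE n)
  have h3 : MeasurableSet {p : S × (Fin n → S) | E (Set.range p.2)} := measurable_snd h2
  exact h3.compl.inter h1

end Pool.Agent.Helper97.BG
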