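import Pool.Agent.Helper97.BG.Defs
import Pool.Agent.Helper97.BG.St.P1
import Pool.Agent.Helper97.BG.St.P2

/-!
Project BG (MP_8410f8_pr), piece P3.
-/

open MeasureTheory Set
open scoped ENNReal

namespace Pool.Agent.Helper97.BG

variable {S : Type*} [MeasurableSpace S]

/-- the first integral in the induction step -/
private theorem p3_left (mu nu : Measure S) [IsFiniteMeasure mu] [IsFiniteMeasure nu]
    {f : Set S → ℝ≥0∞} (hf : MS f) (p q : ℕ) :
    ∫⁻ x, tup mu p (fun A => tup nu q (fun B => f (insert x (A ∪ B)))) ∂mu =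
      tup mu (p + 1) (fun A => tup nu q (fun B => f (A ∪ B))) := by
  rw [tup_succ mu (MS_union_tup nu hf q) p]
  apply lintegral_congr
  intro x
  simp only [Set.insert_union]

/-- the second integral in the induction step -/
private theorem p3_right (mu nu : Measure S) [IsFiniteMeasure mu] [IsFiniteMeasure nu]
    {f : Set S → ℝ≥0∞} (hf : MS f) (p q : ℕ) :
    ∫⁻ x, tup mu p (fun A => tup nu q (fun B => f (insert x (A ∪ B)))) ∂nu =
      tup mu p (fun A => tup nu (q + 1) (fun B => f (A ∪ B))) := by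
  have hfin : ∀ A : Set S, A.Finite → tup nu (q + 1) (fun B => f (A ∪ B)) =
      ∫⁻ x, tup nu q (fun B => f (insert x (A ∪ B))) ∂nu := by
    intro A hA
    rw [tup_succ nu (MS_union_left hf hA) q]
    apply lintegral_congr
    intro x
    simp only [Set.union_insert]
  have hmeas : Measurable fun z : S × (Fin p → S) =>
      tup nu q (fun B => f (insert z.1 (Set.range z.2 ∪ B))) := by
    have h := MS_insert (MS_union_tup nu hf q) p
    simpa only [Set.insert_union] using h
  have h1 : tup mu p (fun A => tup nu (q + 1) (fun B => f (A ∪ B))) =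
      ∫⁻ X : Fin p → S, ∫⁻ x, tup nu q (fun B => f (insert x (Set.range X ∪ B))) ∂nu
        ∂(Measure.pi fun _ => mu) := by
    unfold tup
    apply lintegral_congr
    intro X
    exact hfin (Set.range X) (Set.finite_range X)
  rw [h1]
  unfold tup
  apply lintegral_lintegral_swap
  exact hmeas.aemeasurable

private theorem p3_em (mu nu : Measure S) [IsFiniteMeasure mu] [IsFiniteMeasure nu] :
    em (mu + nu) = em mu * em nu := by
  unfold em
  rw [← ENNReal.ofReal_mul (Real.exp_nonneg _), ← Real.exp_add]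
  congr 2
  rw [Measure.add_apply, ENNReal.toReal_add (measure_ne_top mu univ) (measure_ne_top nu univ)]
  ring

private theorem p3_fact (p q : ℕ) (t : ℝ≥0∞) :
    (((p + q).factorial : ℝ≥0∞))⁻¹ * (((p + q).choose p : ℝ≥0∞) * t) =
      ((p.factorial : ℝ≥0∞))⁻¹ * (((q.factorial : ℝ≥0∞))⁻¹ * t) := by
  have h1 : ((p + q).factorial : ℝ≥0∞) =
      ((p + q).choose p : ℝ≥0∞) * (p.factorial : ℝ≥0∞) * (q.factorial : ℝ≥0∞) := by
    have h0 := (Nat.add_choose_mul_factorial_mul_factorial p q).symm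
    rw [← Nat.choose_symm_add] at h0
    exact_mod_cast h0
  have hc0 : ((p + q).choose p : ℝ≥0∞) ≠ 0 := by
    exact_mod_cast (Nat.choose_pos (Nat.le_add_right p q)).ne'
  have hc1 : ((p + q).choose p : ℝ≥0∞) ≠ ⊤ := ENNReal.natCast_ne_top _
  have hp0 : (p.factorial : ℝ≥0∞) ≠ 0 := by exact_mod_cast p.factorial_ne_zero
  have hp1 : (p.factorial : ℝ≥0∞) ≠ ⊤ := ENNReal.natCast_ne_top _
  have hq0 : (q.factorial : ℝ≥0∞) ≠ 0 := by exact_mod_cast q.factorial_ne_zero
  have hq1 : (q.factorial : ℝ≥0∞) ≠ ⊤ := ENNReal.natCast_ne_top _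
  rw [h1, ENNReal.mul_inv (Or.inr hq1) (Or.inr hq0), ENNReal.mul_inv (Or.inr hp1) (Or.inr hp0)]
  calc ((((p + q).choose p : ℝ≥0∞))⁻¹ * ((p.factorial : ℝ≥0∞))⁻¹ * ((q.factorial : ℝ≥0∞))⁻¹) *
        (((p + q).choose p : ℝ≥0∞) * t) =
        ((((p + q).choose p : ℝ≥0∞))⁻¹ * ((p + q).choose p : ℝ≥0∞)) *
          (((p.factorial : ℝ≥0∞))⁻¹ * (((q.factorial : ℝ≥0∞))⁻¹ * t)) := by ring
    _ = _ := by rw [ENNReal.inv_mul_cancel hc0 hc1, one_mul]

private theorem p3_tsum (F : ℕ × ℕ → ℝ≥0∞) :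
    ∑' n : ℕ, ∑ x ∈ Finset.HasAntidiagonal.antidiagonal n, F x = ∑' p : ℕ, ∑' q : ℕ, F (p, q) := by
  rw [← ENNReal.tsum_prod', ← Finset.HasAntidiagonal.sigmaAntidiagonalEquivProd.tsum_eq F,
    ENNReal.tsum_sigma']
  congr 1
  funext n
  rw [← Finset.sum_finset_coe, ← tsum_fintype (L := .unconditional _)]
  rfl

/-- Induction on `n`, for all `f`. Step: by `tup_succ` for `mu + nu` and `lintegral_add_measure`,
`tup (mu+nu) (n+1) f = ∫ tup (mu+nu) n (f (insert x ·)) dmu(x) + ∫ (same) dnu(x)`. Apply the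
induction hypothesis to `fun A => f (insert x A)` (it is `MS` by `MS_insert`, `MS1_at`). In the first
integral `insert x A ∪ B = insert x (A ∪ B)` and `tup_succ` for `mu` (applied to
`A ↦ tup nu q (B ↦ f (A ∪ B))`, which is `MS` by `MS_union_tup`) gives `tup mu (p+1) (..)`; in the
second integral swap the integrals (Tonelli) and use `A ∪ insert x B = insert x (A ∪ B)` and
`tup_succ` for `nu`. Pascal: e.g. `Finset.sum_antidiagonal_choose_succ_nsmul` or
`Finset.sum_antidiagonal_choose_succ_mul`. -/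
theorem tup_add_measure (mu nu : Measure S) [IsFiniteMeasure mu] [IsFiniteMeasure nu]
    {f : Set S → ℝ≥0∞} (hf : MS f) (n : ℕ) :
    tup (mu + nu) n f = ∑ p ∈ Finset.HasAntidiagonal.antidiagonal n,
      (n.choose p.1 : ℝ≥0∞) * tup mu p.1 (fun A => tup nu p.2 (fun B => f (A ∪ B))) := by
  induction n generalizing f with
  | zero =>
    rw [Finset.Nat.antidiagonal_zero, Finset.sum_singleton]
    simp only [Nat.choose_self, Nat.cast_one, one_mul]
    rw [tup_zero, tup_zero, tup_zero, Set.union_empty]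
  | succ n ih =>
    have hins : ∀ x, MS (fun A => f (insert x A)) := fun x => MS1_at (MS_insert hf) x
    have hmeas : ∀ p : ℕ × ℕ, Measurable fun x : S =>
        (n.choose p.1 : ℝ≥0∞) * tup mu p.1 (fun A => tup nu p.2 (fun B => f (insert x (A ∪ B)))) := by
      intro p
      apply Measurable.const_mul
      have h := MS1_measurable_tup mu (MS_insert (MS_union_tup nu hf p.2)) p.1
      simpa only [Set.insert_union] using h
    have hstep : ∀ rho : Measure S, ∫⁻ x, tup (mu + nu) n (fun A => f (insert x A)) ∂rho =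
        ∑ p ∈ Finset.HasAntidiagonal.antidiagonal n, (n.choose p.1 : ℝ≥0∞) *
          ∫⁻ x, tup mu p.1 (fun A => tup nu p.2 (fun B => f (insert x (A ∪ B)))) ∂rho := by
      intro rho
      have h1 : ∀ x, tup (mu + nu) n (fun A => f (insert x A)) =
          ∑ p ∈ Finset.HasAntidiagonal.antidiagonal n, (n.choose p.1 : ℝ≥0∞) *
            tup mu p.1 (fun A => tup nu p.2 (fun B => f (insert x (A ∪ B)))) := fun x => ih (hins x)
      rw [lintegral_congr h1, lintegral_finsetSum _ (fun p _ => hmeas p)]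
      apply Finset.sum_congr rfl
      intro p _
      rw [lintegral_const_mul]
      have h := MS1_measurable_tup mu (MS_insert (MS_union_tup nu hf p.2)) p.1
      simpa only [Set.insert_union] using h
    rw [tup_succ (mu + nu) hf n, lintegral_add_measure, hstep mu, hstep nu,
      Finset.sum_antidiagonal_choose_succ_mul
        (fun p q => tup mu p (fun A => tup nu q (fun B => f (A ∪ B)))) n, add_comm]
    congr 1
    · apply Finset.sum_congr rfl
      intro p _
      rw [p3_right mu nu hf p.1 p.2]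
    · apply Finset.sum_congr rfl
      intro p hp
      rw [p3_left mu nu hf p.1 p.2]
      have h2 : n.choose p.1 = n.choose p.2 := by
        have h3 : p.1 + p.2 = n := Finset.HasAntidiagonal.mem_antidiagonal.1 hp
        rw [← h3]
        exact Nat.choose_symm_add
      rw [h2]

/-- Superposition. `em (mu + nu) = em mu * em nu`; insert `tup_add_measure`,
`choose n p / n! = 1/(p! q!)`, and turn `∑' n, ∑ p ∈ antidiagonal n` into `∑' p, ∑' q`
(`ENNReal.tsum_mul_tsum...` is not enough since the summand is not a product; use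
`tsum_sigma'`/`ENNReal.tsum_sigma`, `Finset.sigmaAntidiagonalEquivProd`, `ENNReal.tsum_prod`).
On the other side, `tup mu p (A ↦ Poi nu (B ↦ f (A ∪ B)))` is
`em nu * ∑' q, (1/q!) tup mu p (A ↦ tup nu q ..)` by `lintegral_const_mul`, `lintegral_tsum`
(measurability: `MS_union_tup`). -/
theorem Poi_add_measure (mu nu : Measure S) [IsFiniteMeasure mu] [IsFiniteMeasure nu]
    {f : Set S → ℝ≥0∞} (hf : MS f) :
    Poi (mu + nu) f = Poi mu (fun A => Poi nu (fun B => f (A ∪ B))) := by
  have hR : ∀ p, tup mu p (fun A => Poi nu (fun B => f (A ∪ B))) =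
      em nu * ∑' q : ℕ, ((q.factorial : ℝ≥0∞))⁻¹ *
        tup mu p (fun A => tup nu q (fun B => f (A ∪ B))) := by
    intro p
    have hm : ∀ q, Measurable fun X : Fin p → S =>
        ((q.factorial : ℝ≥0∞))⁻¹ * tup nu q (fun B => f (Set.range X ∪ B)) :=
      fun q => (MS_union_tup nu hf q p).const_mul _
    change ∫⁻ X : Fin p → S, em nu * ∑' q : ℕ, ((q.factorial : ℝ≥0∞))⁻¹ *
      tup nu q (fun B => f (Set.range X ∪ B)) ∂(Measure.pi fun _ => mu) = _
    rw [lintegral_const_mul _ (Measurable.ennreal_tsum hm), lintegral_tsum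
      (fun q => (hm q).aemeasurable)]
    congr 1
    congr 1
    funext q
    rw [lintegral_const_mul _ (MS_union_tup nu hf q p)]
    rfl
  have hL : ∀ n : ℕ, ((n.factorial : ℝ≥0∞))⁻¹ * tup (mu + nu) n f =
      ∑ x ∈ Finset.HasAntidiagonal.antidiagonal n, ((x.1.factorial : ℝ≥0∞))⁻¹ *
        (((x.2.factorial : ℝ≥0∞))⁻¹ * tup mu x.1 (fun A => tup nu x.2 (fun B => f (A ∪ B)))) := by
    intro n
    rw [tup_add_measure mu nu hf n, Finset.mul_sum]
    apply Finset.sum_congr rfl
    intro x hx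
    have h3 : x.1 + x.2 = n := Finset.HasAntidiagonal.mem_antidiagonal.1 hx
    rw [← h3]
    exact p3_fact x.1 x.2 _
  unfold Poi at hR ⊢
  simp only [hL, hR]
  rw [p3_tsum (fun x => ((x.1.factorial : ℝ≥0∞))⁻¹ *
    (((x.2.factorial : ℝ≥0∞))⁻¹ * tup mu x.1 (fun A => tup nu x.2 (fun B => f (A ∪ B))))),
    p3_em, mul_assoc]
  congr 1
  rw [← ENNReal.tsum_mul_left]
  congr 1
  funext p
  have h5 : ∑' q : ℕ, ((p.factorial : ℝ≥0∞))⁻¹ * (((q.factorial : ℝ≥0∞))⁻¹ *
      tup mu p (fun A => tup nu q (fun B => f (A ∪ B)))) =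
      ((p.factorial : ℝ≥0∞))⁻¹ * ∑' q : ℕ, ((q.factorial : ℝ≥0∞))⁻¹ *
      tup mu p (fun A => tup nu q (fun B => f (A ∪ B))) := ENNReal.tsum_mul_left
  change em nu * (∑' q : ℕ, ((p.factorial : ℝ≥0∞))⁻¹ * (((q.factorial : ℝ≥0∞))⁻¹ *
      tup mu p (fun A => tup nu q (fun B => f (A ∪ B))))) = _
  rw [h5]
  ring

end Pool.Agent.Helper97.BG
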