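import Pool.Agent.Helper97.BG.Defs
import Pool.Agent.Helper97.BG.St.P1
import Pool.Agent.Helper97.BG.St.P2

/-!
Project BG (MP_8410f8_pr), piece P4.
-/

open MeasureTheory Set
open scoped ENNReal

namespace Pool.Agent.Helper97.BG

variable {S : Type*} [MeasurableSpace S] {T : Type*} [MeasurableSpace T]

/-- the exponential series in `ℝ≥0∞` -/
theorem p4_exp (m : ℝ≥0∞) (hm : m ≠ ∞) :
    ∑' n : ℕ, ((n.factorial : ℝ≥0∞))⁻¹ * m ^ n = ENNReal.ofReal (Real.exp m.toReal) := by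
  have h1 : ∀ n : ℕ, ((n.factorial : ℝ≥0∞))⁻¹ * m ^ n =
      ENNReal.ofReal (m.toReal ^ n / (n.factorial : ℝ)) := by
    intro n
    have h2 : (0 : ℝ) < (n.factorial : ℝ) := by exact_mod_cast n.factorial_pos
    rw [ENNReal.ofReal_div_of_pos h2, ENNReal.ofReal_pow ENNReal.toReal_nonneg,
      ENNReal.ofReal_toReal hm, ENNReal.ofReal_natCast, ENNReal.div_eq_inv_mul]
  have h3 : Real.exp m.toReal = ∑' n : ℕ, m.toReal ^ n / (n.factorial : ℝ) := by
    rw [Real.exp_eq_exp_ℝ, NormedSpace.exp_eq_tsum_div]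
  rw [h3, ENNReal.ofReal_tsum_of_nonneg (fun n => by positivity)
    (Real.summable_pow_div_factorial m.toReal)]
  exact tsum_congr h1

/-- `∑ m^n/n! = e^m`. -/
theorem Poi_const (mu : Measure S) [IsFiniteMeasure mu] (c : ℝ≥0∞) :
    Poi mu (fun _ => c) = c := by
  unfold Poi em
  have h1 : ∀ n : ℕ, ((n.factorial : ℝ≥0∞))⁻¹ * tup mu n (fun _ => c) =
      c * (((n.factorial : ℝ≥0∞))⁻¹ * (mu univ) ^ n) := by
    intro n
    rw [tup_const]
    ring
  rw [tsum_congr h1, ENNReal.tsum_mul_left, p4_exp _ (measure_ne_top mu univ)]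
  have h2 : ENNReal.ofReal (Real.exp (-(mu univ).toReal)) *
      ENNReal.ofReal (Real.exp (mu univ).toReal) = 1 := by
    rw [← ENNReal.ofReal_mul (Real.exp_pos _).le, ← Real.exp_add, neg_add_cancel, Real.exp_zero,
      ENNReal.ofReal_one]
  calc ENNReal.ofReal (Real.exp (-(mu univ).toReal)) *
        (c * ENNReal.ofReal (Real.exp (mu univ).toReal))
      = c * (ENNReal.ofReal (Real.exp (-(mu univ).toReal)) *
        ENNReal.ofReal (Real.exp (mu univ).toReal)) := by ring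
    _ = c := by rw [h2, mul_one]

theorem Poi_mono (mu : Measure S) {f g : Set S → ℝ≥0∞}
    (h : ∀ A : Set S, A.Finite → f A ≤ g A) :
    Poi mu f ≤ Poi mu g := by
  unfold Poi
  exact mul_le_mul_right (ENNReal.tsum_le_tsum fun n => mul_le_mul_right (tup_mono mu n h) _) _

theorem PoiT_mono (mu : Measure S) (k : ℕ) {f g : Set S → ℝ≥0∞}
    (h : ∀ A : Set S, A.Finite → f A ≤ g A) :
    PoiT mu k f ≤ PoiT mu k g := by
  unfold PoiT
  exact mul_le_mul_right (Finset.sum_le_sum fun n _ => mul_le_mul_right (tup_mono mu n h) _) _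

theorem PoiT_le_Poi (mu : Measure S) (k : ℕ) (f : Set S → ℝ≥0∞) : PoiT mu k f ≤ Poi mu f := by
  unfold PoiT Poi
  exact mul_le_mul_right (ENNReal.sum_le_tsum _) _

theorem Poi_const_mul (mu : Measure S) {f : Set S → ℝ≥0∞} (hf : MS f) (c : ℝ≥0∞) :
    Poi mu (fun A => c * f A) = c * Poi mu f := by
  unfold Poi
  have h1 : ∀ n : ℕ, ((n.factorial : ℝ≥0∞))⁻¹ * tup mu n (fun A => c * f A) =
      c * (((n.factorial : ℝ≥0∞))⁻¹ * tup mu n f) := by
    intro n
    rw [tup_const_mul mu n hf c]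
    ring
  rw [tsum_congr h1, ENNReal.tsum_mul_left]
  ring

theorem Poi_add_fun (mu : Measure S) {f : Set S → ℝ≥0∞} (hf : MS f) (g : Set S → ℝ≥0∞) :
    Poi mu (fun A => f A + g A) = Poi mu f + Poi mu g := by
  unfold Poi
  have h1 : ∀ n : ℕ, ((n.factorial : ℝ≥0∞))⁻¹ * tup mu n (fun A => f A + g A) =
      ((n.factorial : ℝ≥0∞))⁻¹ * tup mu n f + ((n.factorial : ℝ≥0∞))⁻¹ * tup mu n g := by
    intro n
    rw [tup_add_fun mu n hf g, mul_add]
  rw [tsum_congr h1, ENNReal.tsum_add, mul_add]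

theorem Poi_le_one (mu : Measure S) [IsFiniteMeasure mu] {f : Set S → ℝ≥0∞} (h : ∀ A, f A ≤ 1) :
    Poi mu f ≤ 1 := by
  calc Poi mu f ≤ Poi mu (fun _ => 1) := Poi_mono mu fun A _ => h A
    _ = 1 := Poi_const mu 1

/-- Measurability of parameter integrals. -/
theorem MS_lintegral (nu : Measure T) [IsFiniteMeasure nu] {g : T → Set S → ℝ≥0∞} (hg : MS1 g) :
    MS (fun A => ∫⁻ t, g t A ∂nu) := by
  intro n
  exact (hg n).lintegral_prod_left'

/-- Tonelli for each term (`lintegral_lintegral_swap`), and `lintegral_tsum`, `lintegral_const_mul`. -/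
theorem Poi_swap (mu : Measure S) [IsFiniteMeasure mu] (nu : Measure T) [IsFiniteMeasure nu]
    {g : T → Set S → ℝ≥0∞} (hg : MS1 g) :
    Poi mu (fun A => ∫⁻ t, g t A ∂nu) = ∫⁻ t, Poi mu (g t) ∂nu := by
  have h1 : ∀ n : ℕ, tup mu n (fun A => ∫⁻ t, g t A ∂nu) = ∫⁻ t, tup mu n (g t) ∂nu := by
    intro n
    unfold tup
    refine lintegral_lintegral_swap ?_
    exact ((hg n).comp measurable_swap).aemeasurable
  have hm : ∀ n : ℕ, Measurable fun t => ((n.factorial : ℝ≥0∞))⁻¹ * tup mu n (g t) := fun n =>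
    (MS1_measurable_tup mu hg n).const_mul _
  unfold Poi
  rw [lintegral_const_mul _ (Measurable.tsum hm), lintegral_tsum fun n => (hm n).aemeasurable]
  congr 1
  refine tsum_congr fun n => ?_
  rw [h1 n, lintegral_const_mul _ (MS1_measurable_tup mu hg n)]

end Pool.Agent.Helper97.BG
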