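import Pool.Agent.Helper97.BG.Defs
import Pool.Agent.Helper97.BG.St.P1
import Pool.Agent.Helper97.BG.St.P2
import Pool.Agent.Helper97.BG.St.P3
import Pool.Agent.Helper97.BG.St.P4

/-!
Project BG (MP_8410f8_pr), piece P6.
-/

open MeasureTheory Set
open scoped ENNReal

namespace Pool.Agent.Helper97.BG

variable {S : Type*} [MeasurableSpace S]

/-- For `mu.restrict D` almost every `X : Fin n → S` satisfies `X i ∈ D` for all `i` (finite union
of null sets; each `{X | X i ∉ D}` is null for the product measure, e.g. by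
`Measure.ae_eval`-type lemmas, `Measure.quasiMeasurePreserving_eval`), so `range X ⊆ D`. -/
theorem tup_restrict_mono (mu : Measure S) [IsFiniteMeasure mu] {D : Set S}
    (hD : MeasurableSet D) (n : ℕ) {f g : Set S → ℝ≥0∞} 
    (h : ∀ B : Set S, B.Finite → B ⊆ D → f B ≤ g B) :
    tup (mu.restrict D) n f ≤ tup (mu.restrict D) n g := by
  unfold tup
  apply lintegral_mono_ae
  have h1 : ∀ i : Fin n, ∀ᵐ X ∂(Measure.pi fun _ : Fin n => mu.restrict D), X i ∈ D := by
    intro i
    have h2 : ∀ᵐ x ∂(mu.restrict D), x ∈ D := ae_restrict_mem hD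
    exact (Measure.tendsto_eval_ae_ae (μ := fun _ : Fin n => mu.restrict D) (i := i)).eventually h2
  have h3 : ∀ᵐ X ∂(Measure.pi fun _ : Fin n => mu.restrict D), ∀ i, X i ∈ D := by
    rw [ae_all_iff]
    exact h1
  filter_upwards [h3] with X hX
  apply h _ (Set.finite_range X)
  rintro _ ⟨i, rfl⟩
  exact hX i

theorem Poi_restrict_mono (mu : Measure S) [IsFiniteMeasure mu] {D : Set S}
    (hD : MeasurableSet D) {f g : Set S → ℝ≥0∞} 
    (h : ∀ B : Set S, B.Finite → B ⊆ D → f B ≤ g B) :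
    Poi (mu.restrict D) f ≤ Poi (mu.restrict D) g := by
  unfold Poi
  gcongr with n
  exact tup_restrict_mono mu hD n h

theorem PoiT_restrict_mono (mu : Measure S) [IsFiniteMeasure mu] {D : Set S}
    (hD : MeasurableSet D) (k : ℕ) {f g : Set S → ℝ≥0∞} 
    (h : ∀ B : Set S, B.Finite → B ⊆ D → f B ≤ g B) :
    PoiT (mu.restrict D) k f ≤ PoiT (mu.restrict D) k g := by
  unfold PoiT
  gcongr with n
  exact tup_restrict_mono mu hD n h

/-- `mu = mu.restrict Dᶜ + mu.restrict D` and superposition (`Poi_add_measure`). -/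
theorem Poi_split (mu : Measure S) [IsFiniteMeasure mu] {D : Set S} (hD : MeasurableSet D)
    {f : Set S → ℝ≥0∞} (hf : MS f) :
    Poi mu f = Poi (mu.restrict Dᶜ) fun A => Poi (mu.restrict D) fun B => f (A ∪ B) := by
  have h1 : mu.restrict Dᶜ + mu.restrict D = mu := by
    rw [add_comm]
    exact Measure.restrict_add_restrict_compl hD
  conv_lhs => rw [← h1]
  exact Poi_add_measure _ _ hf

/-- `Poi_split`; for `B ⊆ D`: `f (A ∪ B) = f ((A ∪ B) \ D) = f (A \ D) = f A`, and `Poi_const`. -/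
theorem Poi_local (mu : Measure S) [IsFiniteMeasure mu] {D : Set S} (hD : MeasurableSet D)
    {f : Set S → ℝ≥0∞} (hf : MS f) (h : ∀ A, f A = f (A \ D)) :
    Poi mu f = Poi (mu.restrict Dᶜ) f := by
  rw [Poi_split mu hD hf]
  congr 1
  funext A
  have h1 : ∀ B : Set S, B ⊆ D → f (A ∪ B) = f A := by
    intro B hB
    rw [h (A ∪ B), h A]
    congr 1
    rw [Set.union_sdiff_distrib, Set.sdiff_eq_empty.mpr hB, Set.union_empty]
  rw [← Poi_const (mu.restrict D) (f A)]
  apply le_antisymm
  · exact Poi_restrict_mono mu hD fun B _ hB => (h1 B hB).le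
  · exact Poi_restrict_mono mu hD fun B _ hB => (h1 B hB).ge

end Pool.Agent.Helper97.BG
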