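import Pool.Agent.Helper97.BG.Defs
import Pool.Agent.Helper97.BG.St.P1

/-!
Project BG (MP_8410f8_pr), piece P8.
-/

open MeasureTheory Set
open scoped ENNReal

namespace Pool.Agent.Helper97.BG

variable {S : Type*} [MeasurableSpace S]

/-- Keep only the term `n = card ι` of the series. For `X : ι → S` (transport the tuple along
`Fin n ≃ ι`, e.g. `measurePreserving_piCongrLeft`, or enumerate the sets by `Fin n` from the
beginning) with `X i ∈ B i` for all `i` the event holds, and this box has measure
`∏ mu (B i) ≥ c ^ n` (`Measure.pi_pi`). -/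
theorem Poi_occ {ι : Type*} [Fintype ι] (mu : Measure S) [IsFiniteMeasure mu] (B : ι → Set S)
    (hB : ∀ i, MeasurableSet (B i)) (c : ℝ≥0∞) (hc : ∀ i, c ≤ mu (B i)) :
    em mu * (((Fintype.card ι).factorial : ℝ≥0∞))⁻¹ * c ^ Fintype.card ι ≤
      Poi mu (fun A => ind (∀ i, (A ∩ B i).Nonempty)) := by
  classical
  have h1 : c ^ Fintype.card ι ≤
      tup mu (Fintype.card ι) (fun A => ind (∀ i, (A ∩ B i).Nonempty)) := by
    have hs : MeasurableSet
        (Set.pi univ (fun k : Fin (Fintype.card ι) => B ((Fintype.equivFin ι).symm k))) :=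
      MeasurableSet.univ_pi fun k => hB _
    calc c ^ Fintype.card ι = ∏ _k : Fin (Fintype.card ι), c := by
          rw [Finset.prod_const, Finset.card_univ, Fintype.card_fin]
      _ ≤ ∏ k : Fin (Fintype.card ι), mu (B ((Fintype.equivFin ι).symm k)) :=
          Finset.prod_le_prod' fun k _ => hc _
      _ = (Measure.pi fun _ => mu)
            (Set.pi univ (fun k : Fin (Fintype.card ι) => B ((Fintype.equivFin ι).symm k))) :=
          (Measure.pi_pi _ _).symm
      _ = ∫⁻ X, (Set.pi univ
            (fun k : Fin (Fintype.card ι) => B ((Fintype.equivFin ι).symm k))).indicator 1 X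
              ∂(Measure.pi fun _ => mu) := (lintegral_indicator_one hs).symm
      _ ≤ ∫⁻ X : Fin (Fintype.card ι) → S, ind (∀ i, (Set.range X ∩ B i).Nonempty)
              ∂(Measure.pi fun _ => mu) := by
          refine lintegral_mono fun X => ?_
          by_cases hX : X ∈ Set.pi univ
            (fun k : Fin (Fintype.card ι) => B ((Fintype.equivFin ι).symm k))
          · have hall : ∀ i, (Set.range X ∩ B i).Nonempty := by
              intro i
              refine ⟨X (Fintype.equivFin ι i), ⟨_, rfl⟩, ?_⟩
              have h := hX (Fintype.equivFin ι i) (mem_univ _)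
              simpa only [Equiv.symm_apply_apply] using h
            rw [indicator_of_mem hX]
            unfold ind
            rw [if_pos hall]
            exact le_rfl
          · rw [indicator_of_notMem hX]
            exact zero_le
  unfold Poi
  rw [mul_assoc]
  refine mul_le_mul' le_rfl ?_
  refine le_trans (mul_le_mul' le_rfl h1) ?_
  exact ENNReal.le_tsum (f := fun n : ℕ => ((n.factorial : ℝ≥0∞))⁻¹ *
    tup mu n (fun A => ind (∀ i, (A ∩ B i).Nonempty))) (Fintype.card ι)

end Pool.Agent.Helper97.BG
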