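import Pool.Agent.Helper97.BG.Defs
import Pool.Agent.Helper97.BG.St.P1

/-!
Project BG (MP_8410f8_pr), piece P5.
-/

open MeasureTheory Set
open scoped ENNReal

namespace Pool.Agent.Helper97.BG

variable {S : Type*} [MeasurableSpace S]

theorem p5_ms {f : Set S → ℝ≥0∞} (hf : MS f) (x : S) : MS fun A => f (insert x A) := by
  intro n
  have h1 : (fun X : Fin n → S => f (insert x (Set.range X))) =
      (fun Y : Fin (n + 1) → S => f (Set.range Y)) ∘
        (fun X : Fin n → S => (Fin.cons x X : Fin (n + 1) → S)) := by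
    funext X
    simp only [Function.comp_apply, Fin.range_cons]
  rw [h1]
  refine (hf (n + 1)).comp (measurable_pi_lambda _ (fun i => ?_))
  refine Fin.cases ?_ (fun j => ?_) i
  · simp only [Fin.cons_zero]
    exact measurable_const
  · simp only [Fin.cons_succ]
    exact measurable_pi_apply j

/-- Product measures of `c • mu`: induction on `n` with `tup_succ` and `lintegral_smul_measure`. -/
theorem tup_smul_measure (mu : Measure S) [IsFiniteMeasure mu] (c : ℝ≥0∞) (hc : c ≠ ∞)
    {f : Set S → ℝ≥0∞} (hf : MS f) (n : ℕ) : tup (c • mu) n f = c ^ n * tup mu n f := by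
  have hfin : IsFiniteMeasure (c • mu) := Measure.smul_finite mu hc
  induction n generalizing f with
  | zero => rw [tup_zero, tup_zero, pow_zero, one_mul]
  | succ n ih =>
    rw [tup_succ _ hf, tup_succ _ hf, lintegral_smul_measure]
    have h1 : ∀ x, tup (c • mu) n (fun A => f (insert x A)) =
        c ^ n * tup mu n (fun A => f (insert x A)) := fun x => ih (p5_ms hf x)
    simp only [h1]
    rw [lintegral_const_mul' _ _ (ENNReal.pow_ne_top hc), smul_eq_mul, pow_succ', mul_assoc]

/-- If `mu ≤ nu` then `tup mu n f ≤ tup nu n f`: induction on `n` with `tup_succ` and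
`lintegral_mono'`. -/
theorem tup_mono_measure (mu nu : Measure S) [IsFiniteMeasure mu] [IsFiniteMeasure nu]
    (h : mu ≤ nu) {f : Set S → ℝ≥0∞} (hf : MS f) (n : ℕ) : tup mu n f ≤ tup nu n f := by
  induction n generalizing f with
  | zero => rw [tup_zero, tup_zero]
  | succ n ih =>
    rw [tup_succ _ hf, tup_succ _ hf]
    exact lintegral_mono' h (fun x => ih (p5_ms hf x))

/-- `tup mu n f ≤ C^n tup nu n f ≤ C^k tup nu n f` for `n ≤ k` (`tup_mono_measure`,
`tup_smul_measure`), `em mu ≤ 1`, and `1 = e^{nu univ} * em nu`. -/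
theorem PoiT_le_of_le (mu nu : Measure S) [IsFiniteMeasure mu] [IsFiniteMeasure nu] (C : ℝ≥0∞)
    (hC : 1 ≤ C) (hC' : C ≠ ∞) (h : mu ≤ C • nu) {f : Set S → ℝ≥0∞} (hf : MS f) (k : ℕ) :
    PoiT mu k f ≤ C ^ k * ENNReal.ofReal (Real.exp (nu univ).toReal) * Poi nu f := by
  have hfin : IsFiniteMeasure (C • nu) := Measure.smul_finite nu hC'
  have hem : em mu ≤ 1 := by
    unfold em
    rw [← ENNReal.ofReal_one]
    refine ENNReal.ofReal_le_ofReal (Real.exp_le_one_iff.2 ?_)
    have := ENNReal.toReal_nonneg (a := mu univ)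
    linarith
  have h1 : ENNReal.ofReal (Real.exp (nu univ).toReal) * em nu = 1 := by
    unfold em
    rw [← ENNReal.ofReal_mul (Real.exp_pos _).le, ← Real.exp_add, add_neg_cancel, Real.exp_zero,
      ENNReal.ofReal_one]
  have h2 : ∀ n ∈ Finset.range (k + 1), ((n.factorial : ℝ≥0∞))⁻¹ * tup mu n f ≤
      C ^ k * (((n.factorial : ℝ≥0∞))⁻¹ * tup nu n f) := by
    intro n hn
    have hn' : n ≤ k := Nat.lt_succ_iff.1 (Finset.mem_range.1 hn)
    have h3 : tup mu n f ≤ C ^ k * tup nu n f := by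
      refine (tup_mono_measure mu (C • nu) h hf n).trans ?_
      rw [tup_smul_measure nu C hC' hf n]
      exact mul_le_mul_left (pow_le_pow_right₀ hC hn') _
    calc ((n.factorial : ℝ≥0∞))⁻¹ * tup mu n f
        ≤ ((n.factorial : ℝ≥0∞))⁻¹ * (C ^ k * tup nu n f) := mul_le_mul_right h3 _
      _ = C ^ k * (((n.factorial : ℝ≥0∞))⁻¹ * tup nu n f) := by ring
  calc PoiT mu k f
      ≤ 1 * ∑ n ∈ Finset.range (k + 1), C ^ k * (((n.factorial : ℝ≥0∞))⁻¹ * tup nu n f) := by
        unfold PoiT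
        exact mul_le_mul' hem (Finset.sum_le_sum h2)
    _ = C ^ k * ∑ n ∈ Finset.range (k + 1), (((n.factorial : ℝ≥0∞))⁻¹ * tup nu n f) := by
        rw [one_mul, Finset.mul_sum]
    _ ≤ C ^ k * ∑' n : ℕ, (((n.factorial : ℝ≥0∞))⁻¹ * tup nu n f) :=
        mul_le_mul' le_rfl (ENNReal.sum_le_tsum _)
    _ = C ^ k * (ENNReal.ofReal (Real.exp (nu univ).toReal) * em nu) *
          ∑' n : ℕ, (((n.factorial : ℝ≥0∞))⁻¹ * tup nu n f) := by rw [h1, mul_one]
    _ = C ^ k * ENNReal.ofReal (Real.exp (nu univ).toReal) * Poi nu f := by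
        unfold Poi
        ring

end Pool.Agent.Helper97.BG
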