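import Pool.Agent.Helper97.BG.Defs
import Pool.Agent.Helper97.BG.St.M1

/-!
Project BG (MP_8410f8_pr), piece T1.
-/

open MeasureTheory Set
open scoped ENNReal

namespace Pool.Agent.Helper97.BG

/-- `‖u + v‖² = 2 + 2 cos θ = 4 cos²(θ/2)` for unit vectors at angle `θ`, so
`π - α < θ ↔ ‖u + v‖ < 2 sin (α/2)` for `0 < α ≤ π`. -/
theorem angle_iff {d : ℕ} {α : ℝ} (h0 : 0 < α) (h1 : α ≤ Real.pi) (u v : Sph d) :
    Real.pi - α < InnerProductGeometry.angle (u : V d) v ↔ ‖(u : V d) + v‖ < 2 * Real.sin (α / 2) := by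
  have hu : ‖(u : V d)‖ = 1 := by
    have := u.2
    simpa using this
  have hv : ‖(v : V d)‖ = 1 := by
    have := v.2
    simpa using this
  set θ := InnerProductGeometry.angle (u : V d) v with hθ
  have hcos : inner ℝ (u : V d) v = Real.cos θ := by
    have := InnerProductGeometry.cos_angle_mul_norm_mul_norm (u : V d) (v : V d)
    rw [hu, hv] at this
    rw [hθ]
    linarith
  have hsq : ‖(u : V d) + v‖ ^ 2 = 2 + 2 * Real.cos θ := by
    rw [norm_add_sq_real, hu, hv, hcos]
    ring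
  have hθ0 : 0 ≤ θ := InnerProductGeometry.angle_nonneg _ _
  have hθ1 : θ ≤ Real.pi := InnerProductGeometry.angle_le_pi _ _
  have hs : 0 ≤ Real.sin (α / 2) := Real.sin_nonneg_of_nonneg_of_le_pi (by linarith) (by linarith)
  have hsin : (2 * Real.sin (α / 2)) ^ 2 = 2 - 2 * Real.cos α := by
    have h2 : Real.cos α = 1 - 2 * Real.sin (α / 2) ^ 2 := by
      have h3 := Real.cos_two_mul (α / 2)
      have h4 := Real.sin_sq_add_cos_sq (α / 2)
      rw [show 2 * (α / 2) = α by ring] at h3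
      linarith
    rw [h2]
    ring
  have e1 : Real.pi - α < θ ↔ Real.cos θ < Real.cos (Real.pi - α) :=
    (Real.strictAntiOn_cos.lt_iff_gt (⟨hθ0, hθ1⟩ : θ ∈ Set.Icc 0 Real.pi)
      (⟨by linarith, by linarith⟩ : Real.pi - α ∈ Set.Icc 0 Real.pi)).symm
  have e2 : ‖(u : V d) + v‖ < 2 * Real.sin (α / 2) ↔
      ‖(u : V d) + v‖ ^ 2 < (2 * Real.sin (α / 2)) ^ 2 :=
    (pow_lt_pow_iff_left₀ (norm_nonneg _) (by linarith) (by norm_num)).symm
  rw [e1, e2, hsq, hsin, Real.cos_pi_sub]
  constructor <;> intro h <;> linarith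

/-- `SimpleGraph.chromaticNumber_le_iff_colorable`, `angle_iff`, `Col_range_iff`; for `i = j`:
`‖X i + X i‖ = 2` is not `< 2 sin (α/2)`. -/
theorem borsuk_iff {d n k : ℕ} (hk : 0 < k) {α : ℝ} (h0 : 0 < α) (h1 : α ≤ Real.pi) (X : Fin n → Sph d) :
    (k : ℕ∞) < (borsuk X α).chromaticNumber ↔ ¬ Col (2 * Real.sin (α / 2)) k (Set.range X) := by
  rw [← not_le, SimpleGraph.chromaticNumber_le_iff_colorable, Col_range_iff _ hk]
  refine not_congr ?_
  constructor
  · rintro ⟨c⟩
    refine ⟨fun i => c i, fun i j hij => ?_⟩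
    refine c.valid ⟨?_, (angle_iff h0 h1 (X i) (X j)).2 hij⟩
    rintro rfl
    have hu : ‖(X i : V d)‖ = 1 := by
      have := (X i).2
      simpa using this
    have h2 : ‖(X i : V d) + X i‖ = 2 := by
      rw [← two_smul ℝ, norm_smul, hu]
      norm_num
    rw [h2] at hij
    have h3 := Real.sin_le_one (α / 2)
    linarith
  · rintro ⟨c, hc⟩
    exact ⟨SimpleGraph.Coloring.mk c (fun {i j} h => hc i j ((angle_iff h0 h1 (X i) (X j)).1 h.2))⟩

/-- The probability of a measurable set is the integral of its indicator. -/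
theorem prob_eq (d n : ℕ) {k : ℕ} (hk : 0 < k) {α : ℝ} (h0 : 0 < α) (h1 : α ≤ Real.pi) :
    prob d n α k = tup (sig d) n (fun A => ind (¬ Col (2 * Real.sin (α / 2)) k A)) := by
  classical
  have hset : {X : Fin n → Sph d | (k : ℕ∞) < (borsuk X α).chromaticNumber} =
      {X : Fin n → Sph d | Col (2 * Real.sin (α / 2)) k (Set.range X)}ᶜ := by
    ext X
    simp only [Set.mem_setOf_eq, Set.mem_compl_iff]
    exact borsuk_iff hk h0 h1 X
  have hm := (m1_set (d := d) (2 * Real.sin (α / 2)) hk n).compl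
  unfold prob tup
  rw [hset, ← lintegral_indicator_one hm]
  refine lintegral_congr fun X => ?_
  by_cases h : Col (2 * Real.sin (α / 2)) k (Set.range X)
  · simp [ind, h, Set.indicator]
  · simp [ind, h, Set.indicator]

/-- Fewer edges for smaller `α` (outer measures are monotone; no condition on `α`, `β`). -/
theorem prob_mono_alpha (d n k : ℕ) {α β : ℝ} (h : α ≤ β) : prob d n α k ≤ prob d n β k := by
  unfold prob
  refine measure_mono fun X hX => ?_
  simp only [Set.mem_setOf_eq] at hX ⊢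
  refine lt_of_lt_of_le hX ?_
  refine SimpleGraph.chromaticNumber_mono _ ?_
  intro i j hij
  exact ⟨hij.1, by linarith [hij.2]⟩

end Pool.Agent.Helper97.BG
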