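import Pool.Agent.Helper97.BG.Defs
import Pool.Agent.Helper97.BG.St.P1
import Pool.Agent.Helper97.BG.St.P2
import Pool.Agent.Helper97.BG.St.M1
import Pool.Agent.Helper97.BG.St.V1

/-!
Project BG (MP_8410f8_pr), piece T2.
-/

open MeasureTheory Set
open scoped ENNReal

namespace Pool.Agent.Helper97.BG

private theorem t2_ind_mono {p q : Prop} (h : p → q) : ind p ≤ ind q := by
  unfold ind
  by_cases hp : p
  · rw [if_pos hp, if_pos (h hp)]
  · rw [if_neg hp]
    exact zero_le

private theorem t2_col_subset {d : ℕ} {a : ℝ} {k : ℕ} {A B : Set (Sph d)} (hAB : A ⊆ B)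
    (h : Col a k B) : Col a k A := by
  obtain ⟨c, hc⟩ := h
  exact ⟨c, fun u hu v hv huv => hc u (hAB hu) v (hAB hv) huv⟩

private theorem t2_tup_add {S : Type*} [MeasurableSpace S] (mu : Measure S) [IsFiniteMeasure mu]
    (n : ℕ) : ∀ (m : ℕ) {f : Set S → ℝ≥0∞}, MS f →
      tup mu (m + n) f = tup mu m (fun A => tup mu n (fun B => f (A ∪ B))) := by
  intro m
  induction m with
  | zero =>
    intro f _
    rw [tup_zero, Nat.zero_add]
    simp only [Set.empty_union]
  | succ m ih =>
    intro f hf
    rw [show m + 1 + n = (m + n) + 1 by omega, tup_succ mu hf, tup_succ mu (MS_union_tup mu hf n)]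
    refine lintegral_congr fun x => ?_
    rw [ih (MS1_at (MS_insert hf) x)]
    simp only [Set.insert_union]

/-- `tup_succ`, `¬ Col a k A → ¬ Col a k (insert x A)` and `sig` is a probability measure. -/
theorem tup_notCol_mono (d : ℕ) (a : ℝ) (k n : ℕ) :
    tup (sig d) n (fun A => ind (¬ Col a k A)) ≤
      tup (sig d) (n + 1) (fun A => ind (¬ Col a k A)) := by
  rw [tup_succ (sig d) (MS_notCol a k)]
  calc tup (sig d) n (fun A => ind (¬ Col a k A))
      = ∫⁻ _x, tup (sig d) n (fun A => ind (¬ Col a k A)) ∂(sig d) := by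
        rw [lintegral_const, measure_univ, mul_one]
    _ ≤ ∫⁻ x, tup (sig d) n (fun A => ind (¬ Col a k (insert x A))) ∂(sig d) := by
        refine lintegral_mono fun x => tup_mono _ _ fun A _ => t2_ind_mono fun h h' => h ?_
        exact t2_col_subset (Set.subset_insert x A) h'

private theorem t2_col_union {d : ℕ} {a : ℝ} {j k : ℕ} {A B : Set (Sph d)} (hA : Col a j A)
    (hB : Col a k B) : Col a (j + k) (A ∪ B) := by
  classical
  obtain ⟨c, hc⟩ := hA
  obtain ⟨e, he⟩ := hB
  refine ⟨fun u => if u ∈ A then Fin.castAdd k (c u) else Fin.natAdd j (e u), ?_⟩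
  intro u hu v hv huv heq
  simp only at heq
  by_cases h1 : u ∈ A <;> by_cases h2 : v ∈ A
  · rw [if_pos h1, if_pos h2] at heq
    exact hc u h1 v h2 huv (Fin.castAdd_injective _ _ heq)
  · rw [if_pos h1, if_neg h2] at heq
    have h3 := congrArg Fin.val heq
    rw [Fin.val_castAdd, Fin.val_natAdd] at h3
    have := (c u).2
    omega
  · rw [if_neg h1, if_pos h2] at heq
    have h3 := congrArg Fin.val heq
    rw [Fin.val_castAdd, Fin.val_natAdd] at h3
    have := (c v).2
    omega
  · rw [if_neg h1, if_neg h2] at heq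
    have hu' : u ∈ B := hu.resolve_left h1
    have hv' : v ∈ B := hv.resolve_left h2
    exact he u hu' v hv' huv (Fin.natAdd_injective _ _ heq)

/-- If `range X` is `j`-colourable and `range Y` is `k`-colourable then `range X ∪ range Y` is
`(j + k)`-colourable; the `(m + n)`-fold product is the product of the `m`-fold and `n`-fold ones
(induction on `m` with `tup_succ`, for a general event, e.g. show
`tup mu (m+n) f = tup mu m (A ↦ tup mu n (B ↦ f (A ∪ B)))`). -/
theorem tup_notCol_add (d : ℕ) (a : ℝ) (j k m n : ℕ) :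
    tup (sig d) (m + n) (fun A => ind (¬ Col a (j + k) A)) ≤
      tup (sig d) m (fun A => ind (¬ Col a j A)) + tup (sig d) n (fun A => ind (¬ Col a k A)) := by
  rw [t2_tup_add (sig d) n m (MS_notCol a (j + k))]
  have h1 : ∀ A B : Set (Sph d), ind (¬ Col a (j + k) (A ∪ B)) ≤
      ind (¬ Col a j A) + ind (¬ Col a k B) := by
    intro A B
    by_cases hA : Col a j A
    · by_cases hB : Col a k B
      · have h : ind (¬ Col a (j + k) (A ∪ B)) = 0 := by
          unfold ind
          rw [if_neg]
          exact fun h => h (t2_col_union hA hB)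
        rw [h]
        exact zero_le
      · refine le_trans (t2_ind_mono fun _ => hB) ?_
        exact le_add_self
    · refine le_trans (t2_ind_mono fun _ => hA) ?_
      exact le_self_add
  have h2 : ∀ A : Set (Sph d), tup (sig d) n (fun B => ind (¬ Col a (j + k) (A ∪ B))) ≤
      tup (sig d) n (fun A => ind (¬ Col a k A)) + ind (¬ Col a j A) := by
    intro A
    calc tup (sig d) n (fun B => ind (¬ Col a (j + k) (A ∪ B)))
        ≤ tup (sig d) n (fun B => ind (¬ Col a k B) + ind (¬ Col a j A)) :=
          tup_mono _ _ fun B _ => (h1 A B).trans_eq (add_comm _ _)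
      _ = tup (sig d) n (fun B => ind (¬ Col a k B)) +
          tup (sig d) n (fun _ => ind (¬ Col a j A)) := tup_add_fun _ _ (MS_notCol a k) _
      _ = tup (sig d) n (fun A => ind (¬ Col a k A)) + ind (¬ Col a j A) := by
          rw [tup_const, measure_univ, one_pow, mul_one]
  calc tup (sig d) m (fun A => tup (sig d) n (fun B => ind (¬ Col a (j + k) (A ∪ B))))
      ≤ tup (sig d) m (fun A => ind (¬ Col a j A) +
          tup (sig d) n (fun A => ind (¬ Col a k A))) :=
        tup_mono _ _ fun A _ => (h2 A).trans_eq (add_comm _ _)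
    _ = tup (sig d) m (fun A => ind (¬ Col a j A)) +
          tup (sig d) m (fun _ => tup (sig d) n (fun A => ind (¬ Col a k A))) :=
        tup_add_fun _ _ (MS_notCol a j) _
    _ = tup (sig d) m (fun A => ind (¬ Col a j A)) + tup (sig d) n (fun A => ind (¬ Col a k A)) := by
        rw [tup_const, measure_univ, one_pow, mul_one]

end Pool.Agent.Helper97.BG
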