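import Pool.Agent.Helper97.BG.Defs

/-!
Project BG (MP_8410f8_pr), piece T3.
-/

open MeasureTheory Set
open scoped ENNReal

namespace Pool.Agent.Helper97.BG

/-- Poisson weights. -/
noncomputable def pw (lam : ℝ) (n : ℕ) : ℝ≥0∞ :=
  ENNReal.ofReal (Real.exp (-lam) * lam ^ n / n.factorial)

/-- real Poisson weights -/
private noncomputable def t3_p (lam : ℝ) (n : ℕ) : ℝ := Real.exp (-lam) * lam ^ n / n.factorial

private theorem t3_p_nonneg {lam : ℝ} (h : 0 ≤ lam) (n : ℕ) : 0 ≤ t3_p lam n := by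
  unfold t3_p
  positivity

private theorem t3_hasSum0 (lam : ℝ) : HasSum (t3_p lam) 1 := by
  have h1 : HasSum (fun n : ℕ => lam ^ n / (n.factorial : ℝ)) (Real.exp lam) := by
    rw [Real.exp_eq_exp_ℝ]
    exact NormedSpace.expSeries_div_hasSum_exp lam
  have h2 := h1.mul_left (Real.exp (-lam))
  rw [← Real.exp_add, neg_add_cancel, Real.exp_zero] at h2
  refine h2.congr_fun ?_
  intro n
  unfold t3_p
  ring

private theorem t3_succ (lam : ℝ) (n : ℕ) :
    t3_p lam (n + 1) * ((n + 1 : ℕ) : ℝ) = lam * t3_p lam n := by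
  unfold t3_p
  have h1 : ((n.factorial : ℕ) : ℝ) ≠ 0 := by positivity
  have h2 : ((n + 1 : ℕ) : ℝ) ≠ 0 := by positivity
  rw [Nat.factorial_succ, Nat.cast_mul]
  field_simp
  ring

private theorem t3_hasSum1 (lam : ℝ) : HasSum (fun n : ℕ => t3_p lam n * (n : ℝ)) lam := by
  have h1 : HasSum (fun n : ℕ => t3_p lam (n + 1) * ((n + 1 : ℕ) : ℝ)) lam := by
    have := (t3_hasSum0 lam).mul_left lam
    rw [mul_one] at this
    exact this.congr_fun fun n => t3_succ lam n
  have h2 := (hasSum_nat_add_iff (f := fun n : ℕ => t3_p lam n * (n : ℝ)) 1).1 h1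
  simpa using h2

private theorem t3_hasSum2 (lam : ℝ) :
    HasSum (fun n : ℕ => t3_p lam n * ((n : ℝ) * ((n : ℝ) - 1))) (lam ^ 2) := by
  have h1 : HasSum (fun n : ℕ => t3_p lam (n + 1) * (((n + 1 : ℕ) : ℝ) * (((n + 1 : ℕ) : ℝ) - 1)))
      (lam ^ 2) := by
    have := (t3_hasSum1 lam).mul_left lam
    rw [← pow_two] at this
    refine this.congr_fun fun n => ?_
    have := t3_succ lam n
    rw [← mul_assoc, this]
    push_cast
    ring
  have h2 := (hasSum_nat_add_iff
    (f := fun n : ℕ => t3_p lam n * ((n : ℝ) * ((n : ℝ) - 1))) 1).1 h1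
  simpa using h2

private theorem t3_hasSum_var (lam : ℝ) :
    HasSum (fun n : ℕ => t3_p lam n * ((n : ℝ) - lam) ^ 2) lam := by
  have h := ((t3_hasSum2 lam).add ((t3_hasSum1 lam).mul_left (1 - 2 * lam))).add
    ((t3_hasSum0 lam).mul_left (lam ^ 2))
  have e : lam ^ 2 + (1 - 2 * lam) * lam + lam ^ 2 * 1 = lam := by ring
  rw [e] at h
  refine h.congr_fun fun n => ?_
  ring

private theorem t3_tsum {lam : ℝ} (h : 0 ≤ lam) {c : ℝ} (hc : 0 ≤ c) :
    ∑' n : ℕ, ENNReal.ofReal (t3_p lam n * ((n : ℝ) - lam) ^ 2 * c) = ENNReal.ofReal (lam * c) := by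
  have h1 := (t3_hasSum_var lam).mul_right c
  rw [← ENNReal.ofReal_tsum_of_nonneg _ h1.summable, h1.tsum_eq]
  intro n
  have := t3_p_nonneg h n
  positivity

theorem pw_sum {lam : ℝ} (h : 0 ≤ lam) : ∑' n, pw lam n = 1 := by
  have h1 : ∀ n, pw lam n = ENNReal.ofReal (t3_p lam n) := fun n => rfl
  simp only [h1]
  rw [← ENNReal.ofReal_tsum_of_nonneg (t3_p_nonneg h) (t3_hasSum0 lam).summable,
    (t3_hasSum0 lam).tsum_eq, ENNReal.ofReal_one]

/-- Chebyshev, upper tail: `∑ e^{-lam} lam^n/n! (n - lam)² = lam`, and `(n - lam)² ≥ (N - lam)²`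
for `n ≥ N > lam`. -/
theorem pois_hi {lam : ℝ} (h : 0 ≤ lam) {N : ℕ} (hN : lam < N) :
    ∑' k, pw lam (N + k) ≤ ENNReal.ofReal (lam / (N - lam) ^ 2) := by
  have hpos : 0 < (N : ℝ) - lam := by linarith
  calc ∑' k, pw lam (N + k) ≤ ∑' k : ℕ, ENNReal.ofReal
        (t3_p lam (N + k) * (((N + k : ℕ) : ℝ) - lam) ^ 2 * (1 / ((N : ℝ) - lam) ^ 2)) := by
        refine ENNReal.tsum_le_tsum fun k => ?_
        change ENNReal.ofReal (t3_p lam (N + k)) ≤ _
        apply ENNReal.ofReal_le_ofReal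
        rw [mul_assoc]
        apply le_mul_of_one_le_right (t3_p_nonneg h _)
        rw [mul_one_div, one_le_div (by positivity)]
        have : (N : ℝ) - lam ≤ ((N + k : ℕ) : ℝ) - lam := by
          push_cast
          have : (0 : ℝ) ≤ k := Nat.cast_nonneg k
          linarith
        exact pow_le_pow_left₀ hpos.le this 2
    _ ≤ ∑' n : ℕ, ENNReal.ofReal
        (t3_p lam n * ((n : ℝ) - lam) ^ 2 * (1 / ((N : ℝ) - lam) ^ 2)) :=
        ENNReal.tsum_comp_le_tsum_of_injective (f := fun k : ℕ => N + k)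
          (fun a b hab => Nat.add_left_cancel hab) (fun n : ℕ => ENNReal.ofReal
          (t3_p lam n * ((n : ℝ) - lam) ^ 2 * (1 / ((N : ℝ) - lam) ^ 2)))
    _ = ENNReal.ofReal (lam / (N - lam) ^ 2) := by
        rw [t3_tsum h (by positivity), mul_one_div]

/-- Chebyshev, lower tail. -/
theorem pois_lo {lam : ℝ} {N : ℕ} (hN : (N : ℝ) < lam) :
    1 ≤ ∑' k, pw lam (N + k) + ENNReal.ofReal (lam / (lam - N) ^ 2) := by
  have hN0 : (0 : ℝ) ≤ N := Nat.cast_nonneg N
  have h : 0 ≤ lam := by linarith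
  have hpos : 0 < lam - (N : ℝ) := by linarith
  have h1 : ∑ n ∈ Finset.range N, pw lam n ≤ ENNReal.ofReal (lam / (lam - N) ^ 2) := by
    calc ∑ n ∈ Finset.range N, pw lam n ≤ ∑ n ∈ Finset.range N, ENNReal.ofReal
          (t3_p lam n * ((n : ℝ) - lam) ^ 2 * (1 / (lam - (N : ℝ)) ^ 2)) := by
          refine Finset.sum_le_sum fun n hn => ?_
          change ENNReal.ofReal (t3_p lam n) ≤ _
          apply ENNReal.ofReal_le_ofReal
          rw [mul_assoc]
          apply le_mul_of_one_le_right (t3_p_nonneg h _)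
          rw [mul_one_div, one_le_div (by positivity)]
          have hn' : (n : ℝ) ≤ N := by exact_mod_cast (Finset.mem_range.1 hn).le
          have h2 : ((n : ℝ) - lam) ^ 2 = (lam - n) ^ 2 := by ring
          rw [h2]
          exact pow_le_pow_left₀ hpos.le (by linarith) 2
      _ ≤ ∑' n : ℕ, ENNReal.ofReal
          (t3_p lam n * ((n : ℝ) - lam) ^ 2 * (1 / (lam - (N : ℝ)) ^ 2)) :=
          ENNReal.sum_le_tsum _
      _ = ENNReal.ofReal (lam / (lam - N) ^ 2) := by
          rw [t3_tsum h (by positivity), mul_one_div]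
  have h2 : ∑ n ∈ Finset.range N, pw lam n + ∑' k, pw lam (k + N) = ∑' n, pw lam n :=
    Summable.sum_add_tsum_nat_add' ENNReal.summable
  rw [pw_sum h] at h2
  calc (1 : ℝ≥0∞) = ∑ n ∈ Finset.range N, pw lam n + ∑' k, pw lam (k + N) := h2.symm
    _ ≤ ENNReal.ofReal (lam / (lam - N) ^ 2) + ∑' k, pw lam (k + N) := by gcongr
    _ = ∑' k, pw lam (N + k) + ENNReal.ofReal (lam / (lam - N) ^ 2) := by
        rw [add_comm]
        simp only [add_comm]

end Pool.Agent.Helper97.BG
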