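import Pool.Agent.Helper97.BG.Defs
import Pool.Agent.Helper97.BG.St.P5
import Pool.Agent.Helper97.BG.St.V1
import Pool.Agent.Helper97.BG.St.T3

/-!
Project BG (MP_8410f8_pr), piece T4.
-/

open MeasureTheory Set
open scoped ENNReal

namespace Pool.Agent.Helper97.BG

/-- `tup_smul_measure`; `em (ofReal lam • sig) = ofReal (exp (-lam))`. -/
theorem Poi_smul_sig (d : ℕ) {lam : ℝ} (h : 0 ≤ lam) {f : Set (Sph d) → ℝ≥0∞} (hf : MS f) :
    Poi (ENNReal.ofReal lam • sig d) f = ∑' n, pw lam n * tup (sig d) n f := by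
  have hem : em (ENNReal.ofReal lam • sig d) = ENNReal.ofReal (Real.exp (-lam)) := by
    unfold em
    rw [Measure.smul_apply, measure_univ, smul_eq_mul, mul_one, ENNReal.toReal_ofReal h]
  unfold Poi
  rw [hem, ← ENNReal.tsum_mul_left]
  refine tsum_congr fun n => ?_
  rw [tup_smul_measure (sig d) (ENNReal.ofReal lam) ENNReal.ofReal_ne_top hf n]
  have hpw : pw lam n = ENNReal.ofReal (Real.exp (-lam)) *
      ((ENNReal.ofReal lam) ^ n * ((n.factorial : ℝ≥0∞))⁻¹) := by
    unfold pw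
    have hfac : (0 : ℝ) < n.factorial := by exact_mod_cast n.factorial_pos
    rw [ENNReal.ofReal_div_of_pos hfac, ENNReal.ofReal_mul (Real.exp_pos _).le,
      ENNReal.ofReal_pow h, ENNReal.ofReal_natCast, div_eq_mul_inv, mul_assoc]
  rw [hpw]
  ring

/-- Keep the terms with index `≥ n` (`monotone_nat_of_le_succ`). -/
theorem depois_lo (d : ℕ) {lam : ℝ} (h : 0 ≤ lam) {f : Set (Sph d) → ℝ≥0∞} (hf : MS f)
    (hm : ∀ n, tup (sig d) n f ≤ tup (sig d) (n + 1) f) (n : ℕ) :
    tup (sig d) n f * ∑' k, pw lam (n + k) ≤ Poi (ENNReal.ofReal lam • sig d) f := by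
  have hmono : Monotone fun m => tup (sig d) m f := monotone_nat_of_le_succ hm
  rw [Poi_smul_sig d h hf, ← ENNReal.tsum_mul_left]
  have h1 : ∑' k, tup (sig d) n f * pw lam (n + k) ≤
      ∑' k, (fun m => pw lam m * tup (sig d) m f) (n + k) := by
    refine ENNReal.tsum_le_tsum fun k => ?_
    have h2 : tup (sig d) n f ≤ tup (sig d) (n + k) f := hmono (Nat.le_add_right n k)
    rw [mul_comm]
    exact mul_le_mul' le_rfl h2
  refine h1.trans ?_
  exact ENNReal.tsum_comp_le_tsum_of_injective (f := fun k => n + k)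
    (fun a b hab => Nat.add_left_cancel hab) (fun m => pw lam m * tup (sig d) m f)

/-- Terms with index `≤ n` are at most `pw lam i * tup (sig d) n f`, the others at most
`pw lam i`. -/
theorem depois_hi (d : ℕ) {lam : ℝ} (h : 0 ≤ lam) {f : Set (Sph d) → ℝ≥0∞} (hf : MS f)
    (hm : ∀ n, tup (sig d) n f ≤ tup (sig d) (n + 1) f) (h1 : ∀ A, f A ≤ 1) (n : ℕ) :
    Poi (ENNReal.ofReal lam • sig d) f ≤ tup (sig d) n f + ∑' k, pw lam (n + 1 + k) := by
  have hmono : Monotone fun m => tup (sig d) m f := monotone_nat_of_le_succ hm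
  have hle1 : ∀ m, tup (sig d) m f ≤ 1 := by
    intro m
    have h2 := tup_le (sig d) m (f := f) 1 h1
    rwa [measure_univ, one_pow, one_mul] at h2
  rw [Poi_smul_sig d h hf]
  have hsplit : ∑ i ∈ Finset.range (n + 1), pw lam i * tup (sig d) i f +
      ∑' i, pw lam (i + (n + 1)) * tup (sig d) (i + (n + 1)) f =
      ∑' i, pw lam i * tup (sig d) i f :=
    Summable.sum_add_tsum_nat_add' (f := fun i => pw lam i * tup (sig d) i f) ENNReal.summable
  rw [← hsplit]
  refine add_le_add ?_ ?_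
  · calc ∑ i ∈ Finset.range (n + 1), pw lam i * tup (sig d) i f
        ≤ ∑ i ∈ Finset.range (n + 1), pw lam i * tup (sig d) n f := by
          refine Finset.sum_le_sum fun i hi => ?_
          have hi' : i ≤ n := Nat.lt_succ_iff.1 (Finset.mem_range.1 hi)
          exact mul_le_mul' le_rfl (hmono hi')
      _ = (∑ i ∈ Finset.range (n + 1), pw lam i) * tup (sig d) n f := by
          rw [Finset.sum_mul]
      _ ≤ (∑' i, pw lam i) * tup (sig d) n f :=
          mul_le_mul' (ENNReal.sum_le_tsum _) le_rfl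
      _ = tup (sig d) n f := by rw [pw_sum h, one_mul]
  · refine ENNReal.tsum_le_tsum fun k => ?_
    rw [Nat.add_comm k (n + 1)]
    calc pw lam (n + 1 + k) * tup (sig d) (n + 1 + k) f ≤ pw lam (n + 1 + k) * 1 :=
          mul_le_mul' le_rfl (hle1 _)
      _ = pw lam (n + 1 + k) := mul_one _

end Pool.Agent.Helper97.BG
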