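import Pool.Agent.Helper97.BG.Defs
import Pool.Agent.Helper97.BG.St.G1
import Pool.Agent.Helper97.BG.St.G3

/-!
Project BG (MP_8410f8_pr), piece G4.
-/

open MeasureTheory Set
open scoped ENNReal

namespace Pool.Agent.Helper97.BG

variable {d : ℕ}

/-- `N` is an `a/16`-net of the ball of radius `r - a/16` around `x`. -/
def IsNet (a : ℝ) (x : Sph d) (r : ℝ) (N : Finset (Sph d)) : Prop :=
  (∀ q ∈ N, ‖(q : V d) - x‖ ≤ r - a / 16) ∧
    ∀ p : Sph d, ‖(p : V d) - x‖ ≤ r - a / 16 → ∃ q ∈ N, ‖(p : V d) - q‖ ≤ a / 16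

/-- Connectivity of the net by steps of length at most `3a/4`: strong induction along
`‖q - x‖` in steps of `a/4`. If `‖q - x‖ ≥ a/2`, take `p` from `exists_between q x` with
`t = (a/2)/‖q-x‖` (the error `‖q-x‖²/4 ≤ (4a)²/4 ≤ a/64`), and a net point `q'` near `p`:
`‖q - q'‖ ≤ a/2 + a/64 + a/16 ≤ 3a/4` and `‖q' - x‖ ≤ ‖q - x‖ - a/4`. If `‖q - x‖ < a/2` compare
with a net point `q0` with `‖x - q0‖ ≤ a/16`. -/
theorem net_connected {a : ℝ} {x : Sph d} {r : ℝ} {N : Finset (Sph d)} (ha : 0 < a)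
    (ha1 : 400 * a ≤ 1) (hr : a ≤ r) (hr1 : r ≤ 4 * a) (hN : IsNet a x r N)
    (f : Sph d → Bool)
    (hf : ∀ q ∈ N, ∀ q' ∈ N, ‖(q : V d) - q'‖ ≤ 3 / 4 * a → f q = f q') :
    ∀ q ∈ N, ∀ q' ∈ N, f q = f q' := by
  have hx0 : ‖(x : V d) - x‖ ≤ r - a / 16 := by
    rw [sub_self, norm_zero]; linarith
  obtain ⟨q0, hq0, hq0x⟩ := hN.2 x hx0
  have key : ∀ k : ℕ, ∀ q ∈ N, ‖(q : V d) - x‖ ≤ a / 2 + k * (a / 4) → f q = f q0 := by
    intro k
    induction k with
    | zero =>
      intro q hq hqx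
      apply hf q hq q0 hq0
      have h1 : (q : V d) - q0 = ((q : V d) - x) + ((x : V d) - q0) := by abel
      rw [h1]
      have h2 := norm_add_le ((q : V d) - x) ((x : V d) - q0)
      simp only [Nat.cast_zero, zero_mul, add_zero] at hqx
      linarith
    | succ k ih =>
      intro q hq hqx
      by_cases hs : ‖(q : V d) - x‖ ≤ a / 2
      · apply ih q hq
        have : (0 : ℝ) ≤ k * (a / 4) := by positivity
        linarith
      · push Not at hs
        have hs4 : ‖(q : V d) - x‖ ≤ 4 * a := by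
          have := hN.1 q hq
          linarith
        have hspos : 0 < ‖(q : V d) - x‖ := by linarith
        have hle1 : ‖(q : V d) - x‖ ≤ 1 := by linarith
        have hsq : ‖(q : V d) - x‖ ^ 2 / 4 ≤ a / 64 := by nlinarith
        obtain ⟨p, hp1, hp2⟩ := exists_between q x hle1
          (t := (a / 2) / ‖(q : V d) - x‖) (by positivity)
          (by rw [div_le_one hspos]; exact hs.le)
        have ht : (a / 2) / ‖(q : V d) - x‖ * ‖(q : V d) - x‖ = a / 2 := by
          field_simp
        rw [ht] at hp1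
        rw [sub_mul, one_mul, ht] at hp2
        have hqr := hN.1 q hq
        obtain ⟨q', hq', hpq'⟩ := hN.2 p (by linarith)
        have e1 : ‖(q : V d) - q'‖ ≤ 3 / 4 * a := by
          have h1 : (q : V d) - q' = ((p : V d) - q') - ((p : V d) - q) := by abel
          rw [h1]
          have h2 := norm_sub_le ((p : V d) - q') ((p : V d) - q)
          linarith
        rw [hf q hq q' hq' e1]
        apply ih q' hq'
        have h1 : (q' : V d) - x = ((p : V d) - x) - ((p : V d) - q') := by abel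
        rw [h1]
        have h2 := norm_sub_le ((p : V d) - x) ((p : V d) - q')
        have h3 : ((k + 1 : ℕ) : ℝ) * (a / 4) = k * (a / 4) + a / 4 := by
          push_cast; ring
        rw [h3] at hqx
        linarith
  have fin : ∀ q ∈ N, f q = f q0 := by
    intro q hq
    apply key 14 q hq
    have := hN.1 q hq
    push_cast
    linarith
  intro q hq q' hq'
  rw [fin q hq, fin q' hq']

/-- Lemma B. Let `c` be a proper 2-colouring of `(A \ D) ∪ Z`, choose `z q`, `w q` in `Z` with
`‖z q - q‖ < a/32`, `‖w q + q‖ < a/32`. Then `c (w q) = ! c (z q)`, and `c (w q) ≠ c (z q')` when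
`‖q - q'‖ ≤ 3a/4` (`‖w q + z q'‖ < a/32 + 3a/4 + a/32`), so `c (z ·)` is constant on `N`
(`net_connected`); replacing `c` by its negation we may assume `c (z q) = true` for all `q ∈ N`.
Let `v ∈ A \ D`, `nrm x v < r + 3a/4`. If `tau x v = true`, then `‖v - x‖ = nrm x v =: s`,
`r ≤ s < r + 3a/4`; `exists_between v x` with `(1 - t) s = r - 5a/64` gives `p` with
`‖p - x‖ ≤ r - 5a/64 + s²/4 ≤ r - a/16` and `‖p - v‖ ≤ 3a/4 + 5a/64 + a/64` (`s²/4 ≤ a/64`
because `s ≤ 19a/4`, `400 a ≤ 1`), a net point `q` with `‖p - q‖ ≤ a/16`, and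
`‖v + w q‖ ≤ ‖v - p‖ + ‖p - q‖ + ‖q + w q‖ < a`; so `c v ≠ c (w q) = false`, `c v = true`.
If `tau x v = false`, the same with `-v` and `z q`. So `c` witnesses `Ext`, contradiction. -/
theorem lemmaB {a : ℝ} {x : Sph d} {r : ℝ} {N : Finset (Sph d)} {A Z : Set (Sph d)}
    (ha : 0 < a) (ha1 : 400 * a ≤ 1) (hr : a ≤ r) (hr1 : r ≤ 4 * a) (hN : IsNet a x r N)
    (hZ : ∀ q ∈ N, (∃ z ∈ Z, ‖(z : V d) - q‖ < a / 32) ∧ ∃ w ∈ Z, ‖(w : V d) + q‖ < a / 32)
    (hE : ¬ Ext a x r (r + 3 / 4 * a) A) : Bad a ((A \ Dg x r) ∪ Z) := by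
  intro hcol
  obtain ⟨c, hc⟩ := hcol
  apply hE
  have hZ' : ∀ q : Sph d, ∃ z w : Sph d, q ∈ N → (z ∈ Z ∧ ‖(z : V d) - q‖ < a / 32) ∧
      (w ∈ Z ∧ ‖(w : V d) + q‖ < a / 32) := by
    intro q
    by_cases hq : q ∈ N
    · obtain ⟨⟨z, hz, hz'⟩, w, hw, hw'⟩ := hZ q hq
      exact ⟨z, w, fun _ => ⟨⟨hz, hz'⟩, hw, hw'⟩⟩
    · exact ⟨q, q, fun h => absurd h hq⟩
  choose z w hzw using hZ'
  have hadj : ∀ q ∈ N, ∀ q' ∈ N, ‖(q : V d) - q'‖ ≤ 3 / 4 * a → c (w q) ≠ c (z q') := by
    intro q hq q' hq' h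
    apply hc (w q) (Or.inr (hzw q hq).2.1) (z q') (Or.inr (hzw q' hq').1.1)
    have h1 : ((w q : Sph d) : V d) + z q' =
        (((w q : Sph d) : V d) + q) + ((((z q' : Sph d) : V d) - q') - ((q : V d) - q')) := by
      abel
    rw [h1]
    have h2 := norm_add_le (((w q : Sph d) : V d) + q)
      ((((z q' : Sph d) : V d) - q') - ((q : V d) - q'))
    have h3 := norm_sub_le (((z q' : Sph d) : V d) - q') ((q : V d) - q')
    have h4 := (hzw q hq).2.2
    have h5 := (hzw q' hq').1.2
    linarith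
  have hself : ∀ q ∈ N, c (w q) ≠ c (z q) := by
    intro q hq
    apply hadj q hq q hq
    rw [sub_self, norm_zero]
    positivity
  have hconst : ∀ q ∈ N, ∀ q' ∈ N, c (z q) = c (z q') := by
    apply net_connected ha ha1 hr hr1 hN (fun q => c (z q))
    intro q hq q' hq' h
    have h1 := hadj q hq q' hq' h
    have h2 := hself q hq
    change c (z q) = c (z q')
    revert h1 h2
    cases c (w q) <;> cases c (z q) <;> cases c (z q') <;> simp
  have hx0 : ‖(x : V d) - x‖ ≤ r - a / 16 := by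
    rw [sub_self, norm_zero]; linarith
  obtain ⟨q0, hq0, -⟩ := hN.2 x hx0
  obtain ⟨b, hb⟩ : ∃ b : Bool, b = c (z q0) := ⟨_, rfl⟩
  have hzb : ∀ q ∈ N, c (z q) = b := fun q hq => (hconst q hq q0 hq0).trans hb.symm
  have hwb : ∀ q ∈ N, c (w q) = !b := by
    intro q hq
    have h1 := hself q hq
    rw [hzb q hq] at h1
    revert h1
    cases c (w q) <;> cases b <;> simp
  -- the basic estimate
  have hest : ∀ y : Sph d, r ≤ ‖(y : V d) - x‖ → ‖(y : V d) - x‖ < r + 3 / 4 * a →
      ∃ q ∈ N, ‖(y : V d) - q‖ ≤ 29 / 32 * a := by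
    intro y h1 h2
    have hspos : 0 < ‖(y : V d) - x‖ := by linarith
    have hle1 : ‖(y : V d) - x‖ ≤ 1 := by linarith
    have hsq : ‖(y : V d) - x‖ ^ 2 / 4 ≤ a / 64 := by nlinarith
    obtain ⟨p, hp1, hp2⟩ := exists_between y x hle1
      (t := 1 - (r - 5 * a / 64) / ‖(y : V d) - x‖)
      (by
        rw [sub_nonneg, div_le_one hspos]
        linarith)
      (by
        have : 0 ≤ (r - 5 * a / 64) / ‖(y : V d) - x‖ := by
          apply div_nonneg _ hspos.le
          linarith
        linarith)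
    have ht : (r - 5 * a / 64) / ‖(y : V d) - x‖ * ‖(y : V d) - x‖ = r - 5 * a / 64 := by
      field_simp
    rw [sub_mul, one_mul, ht] at hp1
    rw [sub_sub_cancel, ht] at hp2
    obtain ⟨q, hq, hpq⟩ := hN.2 p (by linarith)
    refine ⟨q, hq, ?_⟩
    have e1 : (y : V d) - q = ((p : V d) - q) - ((p : V d) - y) := by abel
    rw [e1]
    have e2 := norm_sub_le ((p : V d) - q) ((p : V d) - y)
    linarith
  refine ⟨fun v => decide (c v = b), ?_, ?_⟩
  · intro u hu v hv huv
    have h1 := hc u (Or.inl hu) v (Or.inl hv) huv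
    revert h1
    change c u ≠ c v → decide (c u = b) ≠ decide (c v = b)
    cases c u <;> cases c v <;> cases b <;> simp
  · intro v hv hvs
    have hvr : r ≤ nrm x v := by
      by_contra hlt
      exact hv.2 (not_le.mp hlt)
    by_cases htau : ‖(v : V d) - x‖ < ‖(v : V d) + x‖
    · have hn : nrm x v = ‖(v : V d) - x‖ := min_eq_left htau.le
      rw [hn] at hvr hvs
      obtain ⟨q, hq, hvq⟩ := hest v hvr hvs
      have h1 : c v ≠ c (w q) := by
        apply hc v (Or.inl hv) (w q) (Or.inr (hzw q hq).2.1)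
        have e1 : (v : V d) + (w q : Sph d) =
            ((v : V d) - q) + (((w q : Sph d) : V d) + q) := by abel
        rw [e1]
        have e2 := norm_add_le ((v : V d) - q) (((w q : Sph d) : V d) + q)
        have e3 := (hzw q hq).2.2
        linarith
      rw [hwb q hq] at h1
      have h2 : c v = b := by
        revert h1
        cases c v <;> cases b <;> simp
      have h3 : tau x v = true := by
        unfold tau
        exact decide_eq_true htau
      rw [h3]
      exact decide_eq_true h2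
    · have hn : nrm x v = ‖(v : V d) + x‖ := min_eq_right (not_lt.mp htau)
      have hneg : ‖((-v : Sph d) : V d) - x‖ = ‖(v : V d) + x‖ := by
        have : ((-v : Sph d) : V d) - x = -((v : V d) + x) := by
          change -(v : V d) - x = _
          abel
        rw [this, norm_neg]
      rw [hn, ← hneg] at hvr hvs
      obtain ⟨q, hq, hvq⟩ := hest (-v) hvr hvs
      have h1 : c v ≠ c (z q) := by
        apply hc v (Or.inl hv) (z q) (Or.inr (hzw q hq).1.1)
        have e1 : (v : V d) + (z q : Sph d) =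
            (((z q : Sph d) : V d) - q) - (((-v : Sph d) : V d) - q) := by
          change _ = (((z q : Sph d) : V d) - q) - (-(v : V d) - q)
          abel
        rw [e1]
        have e2 := norm_sub_le (((z q : Sph d) : V d) - q) (((-v : Sph d) : V d) - q)
        have e3 := (hzw q hq).1.2
        linarith
      rw [hzb q hq] at h1
      have h3 : tau x v = false := by
        unfold tau
        exact decide_eq_false htau
      rw [h3]
      exact decide_eq_false h1

end Pool.Agent.Helper97.BG
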