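import Pool.Agent.Helper97.BG.Defs
import Pool.Agent.Helper97.BG.St.G4

/-!
Project BG (MP_8410f8_pr), piece G5.
-/

open MeasureTheory Set
open scoped ENNReal

namespace Pool.Agent.Helper97.BG

variable {d : ℕ}

theorem g5_dist (p q : Sph d) : dist p q = ‖(p : V d) - q‖ := by
  rw [Subtype.dist_eq, dist_eq_norm]

/-- packing -/
theorem g5_pack (mu : Measure (Sph d)) {ρ : ℝ} {cs : ℝ≥0∞} (N : Finset (Sph d)) (B : Set (Sph d))
    (hlo : ∀ p : Sph d, cs ≤ mu (Metric.ball p ρ))
    (hsep : ∀ p ∈ N, ∀ q ∈ N, p ≠ q → 2 * ρ ≤ ‖(p : V d) - q‖)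
    (hsub : ∀ p ∈ N, Metric.ball p ρ ⊆ B) : (N.card : ℝ≥0∞) * cs ≤ mu B := by
  have hdis : (N : Set (Sph d)).PairwiseDisjoint fun p => Metric.ball p ρ := by
    intro p hp q hq hpq
    apply Metric.ball_disjoint_ball
    rw [g5_dist]
    have := hsep p hp q hq hpq
    linarith
  calc (N.card : ℝ≥0∞) * cs = ∑ _p ∈ N, cs := by rw [Finset.sum_const, nsmul_eq_mul]
    _ ≤ ∑ p ∈ N, mu (Metric.ball p ρ) := Finset.sum_le_sum fun p _ => hlo p
    _ = mu (⋃ p ∈ N, Metric.ball p ρ) :=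
        (measure_biUnion_finset hdis fun p _ => Metric.isOpen_ball.measurableSet).symm
    _ ≤ mu B := measure_mono (iUnion₂_subset hsub)

/-- a set of maximal cardinality -/
theorem g5_max {P : Finset (Sph d) → Prop} (h0 : P ∅) (b : ℕ) (hb : ∀ N, P N → N.card ≤ b) :
    ∃ N, P N ∧ ∀ N', P N' → N'.card ≤ N.card := by
  have hne : {n : ℕ | ∃ N, P N ∧ N.card = n}.Nonempty := ⟨0, ∅, h0, rfl⟩
  have hbd : BddAbove {n : ℕ | ∃ N, P N ∧ N.card = n} := by
    refine ⟨b, ?_⟩
    rintro n ⟨N, hN, rfl⟩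
    exact hb N hN
  obtain ⟨N, hN, hc⟩ := Nat.sSup_mem hne hbd
  refine ⟨N, hN, fun N' hN' => ?_⟩
  rw [hc]
  exact le_csSup hbd ⟨N', hN', rfl⟩

/-- Packing and maximality. Consider finite sets `N` of points `q` with `‖q - x‖ ≤ r - a/16` and
pairwise distances `> a/16`. The balls `ball q (a/32)` are disjoint, contained in `ball x (4a)`,
so `card N * cs ≤ mm`, hence the cardinalities are bounded; a set of maximal cardinality is a
net. -/
theorem exists_net (mu : Measure (Sph d)) {a : ℝ} {r : ℝ} (x : Sph d) {cs mm : ℝ≥0∞}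
    (hcs : cs ≠ 0) (hmm : mm ≠ ∞) (ha : 0 < a) (hr1 : r ≤ 7 / 2 * a)
    (hlo : ∀ p : Sph d, cs ≤ mu (Metric.ball p (a / 32)))
    (hhi : ∀ p : Sph d, mu (Metric.ball p (4 * a)) ≤ mm) :
    ∃ N : Finset (Sph d), IsNet a x r N ∧ (N.card : ℝ≥0∞) * cs ≤ mm := by
  classical
  set P : Finset (Sph d) → Prop := fun N => (∀ q ∈ N, ‖(q : V d) - x‖ ≤ r - a / 16) ∧
    ∀ p ∈ N, ∀ q ∈ N, p ≠ q → a / 16 < ‖(p : V d) - q‖ with hP
  have hcard : ∀ N, P N → (N.card : ℝ≥0∞) * cs ≤ mm := by
    intro N hN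
    refine le_trans (g5_pack mu (ρ := a / 32) N (Metric.ball x (4 * a)) hlo ?_ ?_) (hhi x)
    · intro p hp q hq hpq
      have := hN.2 p hp q hq hpq
      linarith
    · intro p hp z hz
      rw [Metric.mem_ball] at hz ⊢
      have h1 := hN.1 p hp
      rw [← g5_dist] at h1
      have h2 := dist_triangle z p x
      linarith
  obtain ⟨N, hN, hmax⟩ := g5_max (P := P) ⟨by simp, by simp⟩ ⌊(mm / cs).toReal⌋₊ (by
    intro N hN
    have h1 : (N.card : ℝ≥0∞) ≤ mm / cs := by
      rw [ENNReal.le_div_iff_mul_le (Or.inl hcs) (Or.inr hmm)]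
      exact hcard N hN
    have h2 : mm / cs ≠ ∞ := (ENNReal.div_lt_top hmm hcs).ne
    apply Nat.le_floor
    have h3 := (ENNReal.toReal_le_toReal (ENNReal.natCast_ne_top _) h2).mpr h1
    simpa using h3)
  refine ⟨N, ⟨hN.1, ?_⟩, hcard N hN⟩
  intro p hp
  by_contra hcon
  push Not at hcon
  have hpN : p ∉ N := by
    intro hpN
    have := hcon p hpN
    rw [sub_self, norm_zero] at this
    linarith
  have hins : P (insert p N) := by
    refine ⟨?_, ?_⟩
    · intro q hq
      rw [Finset.mem_insert] at hq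
      rcases hq with rfl | hq
      · exact hp
      · exact hN.1 q hq
    · intro q hq q' hq' hne
      rw [Finset.mem_insert] at hq hq'
      rcases hq with rfl | hq <;> rcases hq' with rfl | hq'
      · exact absurd rfl hne
      · exact hcon q' hq'
      · rw [norm_sub_rev]
        exact hcon q hq
      · exact hN.2 q hq q' hq' hne
  have := hmax _ hins
  rw [Finset.card_insert_of_notMem hpN] at this
  omega

/-- A finite maximal `a/8`-separated subset of the sphere (compactness / total boundedness). -/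
theorem exists_H (d : ℕ) {a : ℝ} (ha : 0 < a) : ∃ H : Finset (Sph d),
    (∀ x : Sph d, ∃ h ∈ H, ‖(x : V d) - h‖ < a / 8) ∧
    ∀ h ∈ H, ∀ h' ∈ H, h ≠ h' → a / 8 ≤ ‖(h : V d) - h'‖ := by
  classical
  obtain ⟨t, -, htf, ht⟩ := Metric.finite_approx_of_totallyBounded
    (isCompact_univ : IsCompact (univ : Set (Sph d))).totallyBounded (a / 16) (by positivity)
  set P : Finset (Sph d) → Prop := fun N =>
    ∀ h ∈ N, ∀ h' ∈ N, h ≠ h' → a / 8 ≤ ‖(h : V d) - h'‖ with hP
  have hcov : ∀ z : Sph d, ∃ c ∈ htf.toFinset, dist z c < a / 16 := by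
    intro z
    have := ht (mem_univ z)
    rw [mem_iUnion₂] at this
    obtain ⟨c, hc, hz⟩ := this
    exact ⟨c, htf.mem_toFinset.mpr hc, Metric.mem_ball.mp hz⟩
  choose f hf1 hf2 using hcov
  obtain ⟨N, hN, hmax⟩ := g5_max (P := P) (by simp [hP]) htf.toFinset.card (by
    intro N hN
    apply Finset.card_le_card_of_injOn f (fun z _ => hf1 z)
    intro z hz w hw hzw
    by_contra hne
    have h1 := hN z hz w hw hne
    rw [← g5_dist] at h1
    have h2 := hf2 z
    have h3 := hf2 w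
    rw [← hzw] at h3
    have h4 := dist_triangle_right z w (f z)
    linarith)
  refine ⟨N, ?_, hN⟩
  intro p
  by_contra hcon
  push Not at hcon
  have hpN : p ∉ N := by
    intro hpN
    have := hcon p hpN
    rw [sub_self, norm_zero] at this
    linarith
  have hins : P (insert p N) := by
    intro q hq q' hq' hne
    rw [Finset.mem_insert] at hq hq'
    rcases hq with rfl | hq <;> rcases hq' with rfl | hq'
    · exact absurd rfl hne
    · exact hcon q' hq'
    · rw [norm_sub_rev]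
      exact hcon q hq
    · exact hN q hq q' hq' hne
  have := hmax _ hins
  rw [Finset.card_insert_of_notMem hpN] at this
  omega

open Classical in
/-- Packing: for `h ∈ H` with `‖h + y‖ < 5a/4` the balls `ball h (a/32)` are disjoint and
contained in `ball (-y) (4a)`. -/
theorem card_H_le (mu : Measure (Sph d)) {a : ℝ} {cs mm : ℝ≥0∞} (ha : 0 < a)
    (hlo : ∀ p : Sph d, cs ≤ mu (Metric.ball p (a / 32)))
    (hhi : ∀ p : Sph d, mu (Metric.ball p (4 * a)) ≤ mm) (H : Finset (Sph d))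
    (hH : ∀ h ∈ H, ∀ h' ∈ H, h ≠ h' → a / 8 ≤ ‖(h : V d) - h'‖) (y : Sph d) :
    ((H.filter fun h => ‖(h : V d) + y‖ < 5 / 4 * a).card : ℝ≥0∞) * cs ≤ mm := by
  obtain ⟨y', hy'⟩ : ∃ y' : Sph d, (y' : V d) = -(y : V d) :=
    ⟨⟨-(y : V d), by simp⟩, rfl⟩
  set N : Finset (Sph d) := Finset.filter (fun h : Sph d => ‖h.1 + y.1‖ < 5 / 4 * a) H with hN
  have hle : (N.card : ℝ≥0∞) * cs ≤ mm := by
    refine le_trans ?_ (hhi y')
    apply g5_pack mu (ρ := a / 32) N (Metric.ball y' (4 * a)) hlo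
    · intro p hp q hq hpq
      rw [hN, Finset.mem_filter] at hp hq
      have := hH p hp.1 q hq.1 hpq
      linarith
    · intro p hp z hz
      rw [hN, Finset.mem_filter] at hp
      rw [Metric.mem_ball] at hz ⊢
      have h1 : dist p y' < 5 / 4 * a := by
        rw [g5_dist, hy', sub_neg_eq_add]
        exact hp.2
      have h2 := dist_triangle z p y'
      linarith
  refine le_trans ?_ hle
  gcongr
  refine le_trans (Finset.card_le_card (t := N.image Subtype.val) ?_) Finset.card_image_le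
  intro h hh
  rw [Finset.mem_filter] at hh
  obtain ⟨h1, h2⟩ := hh
  have h3 : ∃ v ∈ H, (v : V d) = h := by
    simp [Bind.bind, Pure.pure] at h1
    obtain ⟨hx, hm⟩ := h1
    exact ⟨_, hm, rfl⟩
  obtain ⟨v, hv, hv2⟩ := h3
  rw [Finset.mem_image]
  refine ⟨v, ?_, hv2⟩
  rw [hN, Finset.mem_filter]
  refine ⟨hv, ?_⟩
  rw [hv2]
  exact h2

end Pool.Agent.Helper97.BG
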