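import Pool.Agent.Helper97.BG.Defs
import Pool.Agent.Helper97.BG.St.G1
import Pool.Agent.Helper97.BG.St.M1

/-!
Project BG (MP_8410f8_pr), piece M2.
-/

open MeasureTheory Set
open scoped ENNReal

namespace Pool.Agent.Helper97.BG

variable {d : ℕ}

/-- `Ext a x r s (range X)` iff there is `c : Fin n → Bool` such that for all `i, j` with
`X i ∉ Dg x r`, `X j ∉ Dg x r`, `‖X i + X j‖ < a` we have `c i ≠ c j`, and `c i = tau x (X i)`
whenever `X i ∉ Dg x r`, `nrm x (X i) < s` (one chosen index for each point). -/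
theorem Ext_range_iff (a : ℝ) (x : Sph d) (r s : ℝ) {n : ℕ} (X : Fin n → Sph d) :
    Ext a x r s (Set.range X) ↔ ∃ c : Fin n → Bool,
      (∀ i j, X i ∉ Dg x r → X j ∉ Dg x r → ‖(X i : V d) + X j‖ < a → c i ≠ c j) ∧
      ∀ i, X i ∉ Dg x r → nrm x (X i) < s → c i = tau x (X i) := by
  constructor
  · rintro ⟨c, h1, h2⟩
    refine ⟨fun i => c (X i), fun i j hi hj hij => ?_, fun i hi hs => ?_⟩
    · exact h1 (X i) ⟨Set.mem_range_self i, hi⟩ (X j) ⟨Set.mem_range_self j, hj⟩ hij
    · exact h2 (X i) ⟨Set.mem_range_self i, hi⟩ hs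
  · classical
    rintro ⟨c, h1, h2⟩
    refine ⟨fun v => if h : ∃ i, X i = v then c h.choose else true, ?_, ?_⟩
    · rintro u ⟨hu, hu'⟩ v ⟨hv, hv'⟩ huv
      have eu : ∃ i, X i = u := hu
      have ev : ∃ i, X i = v := hv
      simp only [dif_pos eu, dif_pos ev]
      refine h1 _ _ ?_ ?_ ?_
      · rw [eu.choose_spec]
        exact hu'
      · rw [ev.choose_spec]
        exact hv'
      · rw [eu.choose_spec, ev.choose_spec]
        exact huv
    · rintro v ⟨hv, hv'⟩ hs
      have ev : ∃ i, X i = v := hv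
      simp only [dif_pos ev]
      rw [h2 _ (by rw [ev.choose_spec]; exact hv') (by rw [ev.choose_spec]; exact hs),
        ev.choose_spec]

theorem m2_one {n : ℕ} (i : Fin n) (f g : Sph d → ℝ) (hf : Continuous f) (hg : Continuous g) :
    Measurable fun X : Fin n → Sph d => f (X i) < g (X i) := by
  have h1 : MeasurableSet {v : Sph d | f v < g v} := (isOpen_lt hf hg).measurableSet
  have h2 : MeasurableSet ((fun X : Fin n → Sph d => X i) ⁻¹' {v : Sph d | f v < g v}) :=
    measurable_pi_apply i h1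
  exact measurableSet_setOfPred.1 h2

theorem m2_two {n : ℕ} (a : ℝ) (i j : Fin n) :
    Measurable fun X : Fin n → Sph d => ‖(X i : V d) + X j‖ < a := by
  have h0 : Continuous fun p : Sph d × Sph d => ‖(p.1 : V d) + (p.2 : V d)‖ :=
    ((continuous_subtype_val.comp continuous_fst).add
      (continuous_subtype_val.comp continuous_snd)).norm
  have h1 : MeasurableSet {p : Sph d × Sph d | ‖(p.1 : V d) + (p.2 : V d)‖ < a} :=
    (isOpen_lt h0 continuous_const).measurableSet
  have h2 : Measurable fun X : Fin n → Sph d => (X i, X j) :=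
    (measurable_pi_apply i).prodMk (measurable_pi_apply j)
  exact measurableSet_setOfPred.1 (h2 h1)

theorem m2_nrm (x : Sph d) : Continuous fun v : Sph d => nrm x v := by
  have h1 : Continuous fun v : Sph d => ‖(v : V d) - (x : V d)‖ :=
    (continuous_subtype_val.sub continuous_const).norm
  have h2 : Continuous fun v : Sph d => ‖(v : V d) + (x : V d)‖ :=
    (continuous_subtype_val.add continuous_const).norm
  exact h1.min h2

theorem m2_sub (x : Sph d) : Continuous fun v : Sph d => ‖(v : V d) - (x : V d)‖ :=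
  (continuous_subtype_val.sub continuous_const).norm

theorem m2_add (x : Sph d) : Continuous fun v : Sph d => ‖(v : V d) + (x : V d)‖ :=
  (continuous_subtype_val.add continuous_const).norm

theorem m2_tau {n : ℕ} (i : Fin n) (x : Sph d) : Measurable fun X : Fin n → Sph d =>
    ‖(X i : V d) - (x : V d)‖ < ‖(X i : V d) + (x : V d)‖ :=
  m2_one i (fun v : Sph d => ‖(v : V d) - (x : V d)‖)
    (fun v : Sph d => ‖(v : V d) + (x : V d)‖) (m2_sub x) (m2_add x)

theorem m2_Dg {n : ℕ} (i : Fin n) (x : Sph d) (r : ℝ) : Measurable fun X : Fin n → Sph d =>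
    X i ∉ Dg x r := by
  have h1 : MeasurableSet {X : Fin n → Sph d | X i ∉ Dg x r} :=
    (measurableSet_Dg x r).compl.preimage (measurable_pi_apply i)
  exact measurableSet_setOfPred.1 h1

theorem m2_iff (x v : Sph d) (b : Bool) : b = tau x v ↔
    (b = true ↔ ‖(v : V d) - x‖ < ‖(v : V d) + x‖) := by
  unfold tau
  by_cases h : ‖(v : V d) - x‖ < ‖(v : V d) + x‖
  · simp [h]
  · simp [h]

theorem m2_Ext (a : ℝ) (x : Sph d) (r s : ℝ) (n : ℕ) :
    Measurable fun X : Fin n → Sph d => Ext a x r s (Set.range X) := by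
  have hA : ∀ (c : Fin n → Bool) (i j : Fin n), Measurable fun X : Fin n → Sph d =>
      (X i ∉ Dg x r → X j ∉ Dg x r → ‖(X i : V d) + X j‖ < a → c i ≠ c j) := by
    intro c i j
    have h6 : Measurable fun _ : Fin n → Sph d => c i ≠ c j := measurable_const
    exact (m2_Dg i x r).imp ((m2_Dg j x r).imp ((m2_two a i j).imp h6))
  have hB : ∀ (c : Fin n → Bool) (i : Fin n), Measurable fun X : Fin n → Sph d =>
      (X i ∉ Dg x r → nrm x (X i) < s →
        (c i = true ↔ ‖(X i : V d) - (x : V d)‖ < ‖(X i : V d) + (x : V d)‖)) := by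
    intro c i
    have h6 : Measurable fun _ : Fin n → Sph d => c i = true := measurable_const
    have h7 : Measurable fun X : Fin n → Sph d => nrm x (X i) < s :=
      m2_one i (fun v => nrm x v) (fun _ => s) (m2_nrm x) continuous_const
    exact (m2_Dg i x r).imp (h7.imp (h6.iff (m2_tau i x)))
  have hA' : ∀ c : Fin n → Bool, Measurable fun X : Fin n → Sph d =>
      (∀ i j, X i ∉ Dg x r → X j ∉ Dg x r → ‖(X i : V d) + X j‖ < a → c i ≠ c j) := fun c =>
    Measurable.forall fun i => Measurable.forall fun j => hA c i j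
  have hB' : ∀ c : Fin n → Bool, Measurable fun X : Fin n → Sph d =>
      (∀ i, X i ∉ Dg x r → nrm x (X i) < s →
        (c i = true ↔ ‖(X i : V d) - (x : V d)‖ < ‖(X i : V d) + (x : V d)‖)) := fun c =>
    Measurable.forall fun i => hB c i
  have h1 : (fun X : Fin n → Sph d => Ext a x r s (Set.range X)) =
      fun X : Fin n → Sph d => ∃ c : Fin n → Bool,
        (∀ i j, X i ∉ Dg x r → X j ∉ Dg x r → ‖(X i : V d) + X j‖ < a → c i ≠ c j) ∧
        ∀ i, X i ∉ Dg x r → nrm x (X i) < s →
          (c i = true ↔ ‖(X i : V d) - (x : V d)‖ < ‖(X i : V d) + (x : V d)‖) := by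
    funext X
    rw [Ext_range_iff]
    simp only [m2_iff]
  rw [h1]
  exact Measurable.exists fun c => (hA' c).and (hB' c)

/-- A finite union over `c` of finite intersections of measurable sets (`Dg` open, `nrm x`
continuous, `{v | tau x v = b}` measurable); for `Col2 a (range X \ Dg x r)` the same, e.g.
`Col2 a (A \ Dg x r) ↔ Ext a x r 0 A` (`nrm ≥ 0`). -/
theorem MS_FF (a : ℝ) (x : Sph d) (r : ℝ) : MS (fun A : Set (Sph d) => ind (FF a x r A)) := by
  intro n
  have hF : (fun X : Fin n → Sph d => ind (FF a x r (Set.range X))) =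
      fun X : Fin n → Sph d => ind (Ext a x r 0 (Set.range X) ∧
        ¬ Ext a x r (r + 3 / 4 * a) (Set.range X)) := by
    funext X
    have h1 : Col2 a (Set.range X \ Dg x r) ↔ Ext a x r 0 (Set.range X) := by
      constructor
      · rintro ⟨c, hc⟩
        exact ⟨c, hc, fun v _ hv => absurd hv (not_lt.2 (nrm_nonneg x v))⟩
      · rintro ⟨c, hc, _⟩
        exact ⟨c, hc⟩
    unfold FF
    rw [h1]
  show Measurable fun X : Fin n → Sph d => ind (FF a x r (Set.range X))
  rw [hF]
  have h5 : Measurable (ind : Prop → ℝ≥0∞) := measurable_from_top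
  exact h5.comp ((m2_Ext a x r 0 n).and (m2_Ext a x r (r + 3 / 4 * a) n).not)

end Pool.Agent.Helper97.BG
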