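import Pool.Agent.Helper97.BG.Defs
import Pool.Agent.Helper97.BG.St.P1
import Pool.Agent.Helper97.BG.St.P2
import Pool.Agent.Helper97.BG.St.P4

/-!
Project BG (MP_8410f8_pr), piece P9.
-/

open MeasureTheory Set
open scoped ENNReal

namespace Pool.Agent.Helper97.BG

variable {S : Type*} [MeasurableSpace S]

omit [MeasurableSpace S] in
private lemma p9_point (E : Set S → Prop) (t : S) (A : Set S) :
    ind (E (insert t A)) ≤ ind (E A) + pv E t A := by
  unfold pv ind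
  by_cases h1 : E (insert t A)
  · by_cases h2 : E A
    · simp [h1, h2]
    · simp [h1, h2]
  · simp [h1]

private lemma p9_step (nu : Measure S) [IsFiniteMeasure nu] (E : Set S → Prop)
    (hE : MS (fun A => ind (E A))) (n : ℕ) :
    tup nu (n + 1) (fun A => ind (E A)) ≤
      nu univ * tup nu n (fun A => ind (E A)) + ∫⁻ t, tup nu n (pv E t) ∂nu := by
  rw [tup_succ nu hE n]
  calc ∫⁻ x, tup nu n (fun A => ind (E (insert x A))) ∂nu
      ≤ ∫⁻ x, (tup nu n (fun A => ind (E A)) + tup nu n (pv E x)) ∂nu := by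
        refine lintegral_mono fun x => ?_
        rw [← tup_add_fun nu n hE]
        exact tup_mono nu n fun A _ => p9_point E x A
    _ = nu univ * tup nu n (fun A => ind (E A)) + ∫⁻ t, tup nu n (pv E t) ∂nu := by
        rw [lintegral_add_left measurable_const, lintegral_const, mul_comm]

private lemma p9_bound (m : ℝ≥0∞) (e I : ℕ → ℝ≥0∞) (h0 : e 0 = 0)
    (h : ∀ n, e (n + 1) ≤ m * e n + I n) (n : ℕ) :
    e (n + 1) ≤ ∑ p ∈ Finset.HasAntidiagonal.antidiagonal n, m ^ p.2 * I p.1 := by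
  induction n with
  | zero =>
    refine (h 0).trans ?_
    rw [h0]
    simp
  | succ n ih =>
    refine (h (n + 1)).trans ?_
    rw [Finset.Nat.sum_antidiagonal_succ', add_comm]
    simp only [pow_zero, one_mul]
    refine add_le_add le_rfl ?_
    calc m * e (n + 1) ≤ m * ∑ p ∈ Finset.HasAntidiagonal.antidiagonal n, m ^ p.2 * I p.1 :=
          mul_le_mul_right ih m
      _ = ∑ p ∈ Finset.HasAntidiagonal.antidiagonal n, m ^ (p.2 + 1) * I p.1 := by
          rw [Finset.mul_sum]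
          refine Finset.sum_congr rfl fun p _ => ?_
          ring
      _ ≤ _ := le_rfl

private lemma p9_fact (n : ℕ) (p : ℕ × ℕ) (hp : p ∈ Finset.HasAntidiagonal.antidiagonal n) :
    (((n + 1).factorial : ℝ≥0∞))⁻¹ ≤ ((p.2.factorial : ℝ≥0∞))⁻¹ * ((p.1.factorial : ℝ≥0∞))⁻¹ := by
  have hp' : p.1 + p.2 = n := Finset.HasAntidiagonal.mem_antidiagonal.mp hp
  have h1 : p.2.factorial * p.1.factorial ≤ (n + 1).factorial := by
    have h2 : p.1.factorial * p.2.factorial ≤ (p.1 + p.2).factorial :=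
      Nat.le_of_dvd (Nat.factorial_pos _) (Nat.factorial_mul_factorial_dvd_factorial_add _ _)
    rw [hp'] at h2
    rw [mul_comm]
    exact h2.trans (Nat.factorial_le (Nat.le_succ n))
  have h3 : ((p.2.factorial : ℝ≥0∞)) * (p.1.factorial : ℝ≥0∞) ≤ ((n + 1).factorial : ℝ≥0∞) := by
    exact_mod_cast h1
  rw [← ENNReal.mul_inv (Or.inr (ENNReal.natCast_ne_top _)) (Or.inl (ENNReal.natCast_ne_top _))]
  exact ENNReal.inv_le_inv.mpr h3

private lemma p9_sum (m : ℝ≥0∞) (I : ℕ → ℝ≥0∞) :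
    ∑' n : ℕ, ∑ p ∈ Finset.HasAntidiagonal.antidiagonal n,
        (((p.2.factorial : ℝ≥0∞))⁻¹ * m ^ p.2) * (((p.1.factorial : ℝ≥0∞))⁻¹ * I p.1) =
      (∑' n : ℕ, ((n.factorial : ℝ≥0∞))⁻¹ * m ^ n) * ∑' n : ℕ, ((n.factorial : ℝ≥0∞))⁻¹ * I n := by
  set F : ℕ × ℕ → ℝ≥0∞ := fun p =>
    (((p.2.factorial : ℝ≥0∞))⁻¹ * m ^ p.2) * (((p.1.factorial : ℝ≥0∞))⁻¹ * I p.1) with hF
  have h1 : ∀ n : ℕ, ∑ p ∈ Finset.HasAntidiagonal.antidiagonal n, F p =
      ∑' p : (Finset.HasAntidiagonal.antidiagonal n : Finset (ℕ × ℕ)), F p :=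
    fun n => (Finset.tsum_subtype _ F).symm
  calc ∑' n : ℕ, ∑ p ∈ Finset.HasAntidiagonal.antidiagonal n, F p
      = ∑' n : ℕ, ∑' p : (Finset.HasAntidiagonal.antidiagonal n : Finset (ℕ × ℕ)), F p :=
        tsum_congr h1
    _ = ∑' x : (Σ n : ℕ, (Finset.HasAntidiagonal.antidiagonal n : Finset (ℕ × ℕ))), F x.2 := by
        rw [ENNReal.tsum_sigma']
    _ = ∑' p : ℕ × ℕ, F p :=
        (Finset.HasAntidiagonal.sigmaAntidiagonalEquivProd (A := ℕ)).tsum_eq F
    _ = ∑' j : ℕ, ∑' l : ℕ, F (j, l) := ENNReal.tsum_prod'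
    _ = _ := by
        simp only [hF]
        simp_rw [ENNReal.tsum_mul_right]
        rw [ENNReal.tsum_mul_left]

/-- Pointwise: for `X : Fin n → S`, since `¬ E ∅` and `E` is increasing,
`ind (E (range X)) ≤ ∑_{j < n} pv E (X j) (X '' {i | i < j})` (take the first `j` such that the
first `j + 1` points satisfy `E`). Integrate: the `j`-th term gives
`(nu univ)^(n-j-1) * I_j` with `I_j = ∫ tup nu j (pv E t) dnu(t)`. A convenient way to organise
this: put `e n = tup nu n (fun A => ind (E A))` and show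
`e (n+1) ≤ nu univ * e n + I_n` (pointwise `ind (E (insert t A)) ≤ ind (E A) + pv E t A`,
`tup_succ`, `Poi_swap`-like Tonelli), `e 0 = 0`. Hence
`e n ≤ ∑_{j<n} m^(n-1-j) I_j` and, with `m = nu univ`,
`∑' n, e n / n! ≤ ∑_j I_j ∑_l m^l/(j+1+l)! ≤ ∑_j (I_j/j!) ∑_l m^l/l! = e^m ∑_j I_j/j!`,
since `(j+1+l)! ≥ j! l!`. Finally `∫ Poi nu (pv E t) dnu(t) = em nu * ∑_j I_j/j!`
(`lintegral_tsum`, `MS1_pv`, `MS1_measurable_tup`). -/
theorem Poi_piv (nu : Measure S) [IsFiniteMeasure nu] (E : Set S → Prop)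
    (hmono : ∀ A B, A ⊆ B → E A → E B) (hE : MS (fun A => ind (E A))) (h0 : ¬ E ∅) :
    Poi nu (fun B => ind (E B)) ≤
      ENNReal.ofReal (Real.exp (nu univ).toReal) * ∫⁻ t, Poi nu (pv E t) ∂nu := by
  set m : ℝ≥0∞ := nu univ with hm
  set e : ℕ → ℝ≥0∞ := fun n => tup nu n (fun A => ind (E A)) with he
  set I : ℕ → ℝ≥0∞ := fun n => ∫⁻ t, tup nu n (pv E t) ∂nu with hI
  have he0 : e 0 = 0 := by
    rw [he]
    change tup nu 0 (fun A => ind (E A)) = 0
    rw [tup_zero]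
    unfold ind
    simp [h0]
  have hstep : ∀ n, e (n + 1) ≤ m * e n + I n := fun n => p9_step nu E hE n
  have hmI : ∀ n : ℕ, Measurable fun t => ((n.factorial : ℝ≥0∞))⁻¹ * tup nu n (pv E t) := fun n =>
    (MS1_measurable_tup nu (MS1_pv hE) n).const_mul _
  have hint : ∫⁻ t, Poi nu (pv E t) ∂nu = em nu * ∑' n : ℕ, ((n.factorial : ℝ≥0∞))⁻¹ * I n := by
    unfold Poi
    rw [lintegral_const_mul _ (Measurable.tsum hmI), lintegral_tsum fun n => (hmI n).aemeasurable]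
    congr 1
    refine tsum_congr fun n => ?_
    rw [lintegral_const_mul _ (MS1_measurable_tup nu (MS1_pv hE) n)]
  have hmain : ∑' n : ℕ, ((n.factorial : ℝ≥0∞))⁻¹ * e n ≤
      ENNReal.ofReal (Real.exp m.toReal) * ∑' n : ℕ, ((n.factorial : ℝ≥0∞))⁻¹ * I n := by
    rw [← p4_exp m (measure_ne_top nu univ), ← p9_sum m I]
    rw [tsum_eq_zero_add' ENNReal.summable, he0, mul_zero, zero_add]
    refine ENNReal.tsum_le_tsum fun n => ?_
    calc (((n + 1).factorial : ℝ≥0∞))⁻¹ * e (n + 1)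
        ≤ (((n + 1).factorial : ℝ≥0∞))⁻¹ *
            ∑ p ∈ Finset.HasAntidiagonal.antidiagonal n, m ^ p.2 * I p.1 :=
          mul_le_mul_right (p9_bound m e I he0 hstep n) _
      _ ≤ _ := by
          rw [Finset.mul_sum]
          refine Finset.sum_le_sum fun p hp => ?_
          calc (((n + 1).factorial : ℝ≥0∞))⁻¹ * (m ^ p.2 * I p.1)
              ≤ (((p.2.factorial : ℝ≥0∞))⁻¹ * ((p.1.factorial : ℝ≥0∞))⁻¹) *
                  (m ^ p.2 * I p.1) := mul_le_mul_left (p9_fact n p hp) _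
            _ = _ := by ring
  calc Poi nu (fun B => ind (E B)) = em nu * ∑' n : ℕ, ((n.factorial : ℝ≥0∞))⁻¹ * e n := rfl
    _ ≤ em nu * (ENNReal.ofReal (Real.exp m.toReal) *
          ∑' n : ℕ, ((n.factorial : ℝ≥0∞))⁻¹ * I n) := mul_le_mul_right hmain _
    _ = ENNReal.ofReal (Real.exp m.toReal) * ∫⁻ t, Poi nu (pv E t) ∂nu := by
        rw [hint]
        ring

end Pool.Agent.Helper97.BG
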