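import Pool.Agent.Helper97.BG.Defs
import Pool.Agent.Helper97.BG.St.P2
import Pool.Agent.Helper97.BG.St.P4
import Pool.Agent.Helper97.BG.St.P6
import Pool.Agent.Helper97.BG.St.P9

/-!
Project BG (MP_8410f8_pr), piece P12.
-/

open MeasureTheory Set
open scoped ENNReal

namespace Pool.Agent.Helper97.BG

variable {S : Type*} [MeasurableSpace S]

/-- Abstract form of Lemma C. `Poi mu (ind F) = Poi (mu.restrict Dᶜ) (ind F)` (`Poi_local`, since
`F A ↔ F (A \ D)`). For `A ⊆ Dᶜ` (`Poi_restrict_mono`): `p₀ * ind (F A) ≤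
e^{mu D} * ∫_{t ∈ D} Poi (mu.restrict D) (B ↦ pv E t (A ∪ B)) dmu(t)`: if `F A` holds then `¬ E A`,
and `Poi_piv` applies to the increasing event `B ↦ E (A ∪ B)` and the measure `mu.restrict D`
(`insert t (A ∪ B) = A ∪ insert t B`). Then apply `Poi (mu.restrict Dᶜ)`: `Poi_const_mul`,
`Poi_swap`, and `Poi_split` for `pv E t`. Measurability of `(t, A) ↦ Poi (mu.restrict D) (B ↦ pv E t (A ∪ B))`: `MS1_union_Poi`, `MS1_pv`. -/
theorem lemmaC_abs (mu : Measure S) [IsFiniteMeasure mu] {D : Set S} (hD : MeasurableSet D)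
    (E F : Set S → Prop) (hmono : ∀ A B, A ⊆ B → E A → E B) (hE : MS (fun A => ind (E A)))
    (hF : MS (fun A => ind (F A))) (hFD : ∀ A, F A ↔ F (A \ D)) (hFE : ∀ A, F A → ¬ E (A \ D))
    (p₀ : ℝ≥0∞)
    (hp : ∀ A : Set S, A.Finite → A ⊆ Dᶜ → F A → p₀ ≤ Poi (mu.restrict D) (fun B => ind (E (A ∪ B)))) :
    p₀ * Poi mu (fun A => ind (F A)) ≤
      ENNReal.ofReal (Real.exp (mu D).toReal) * ∫⁻ t in D, Poi mu (pv E t) ∂mu := by
  have hfin : IsFiniteMeasure (mu.restrict D) := inferInstance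
  set c : ℝ≥0∞ := ENNReal.ofReal (Real.exp (mu D).toReal) with hc
  have huniv : (mu.restrict D) univ = mu D := by
    rw [Measure.restrict_apply_univ]
  have hMpv : ∀ t, MS (pv E t) := fun t => MS1_at (MS1_pv hE) t
  have hg : MS1 (fun (t : S) A => Poi (mu.restrict D) (fun B => pv E t (A ∪ B))) :=
    MS1_union_Poi (mu.restrict D) (MS1_pv hE)
  have h1 : Poi mu (fun A => ind (F A)) = Poi (mu.restrict Dᶜ) (fun A => ind (F A)) :=
    Poi_local mu hD hF (fun A => by
      have : F A = F (A \ D) := propext (hFD A)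
      rw [this])
  have h2 : ∀ A : Set S, A.Finite → A ⊆ Dᶜ → p₀ * ind (F A) ≤
      c * ∫⁻ t, Poi (mu.restrict D) (fun B => pv E t (A ∪ B)) ∂(mu.restrict D) := by
    intro A hA hAD
    by_cases hFA : F A
    · have hAe : A \ D = A := by
        ext x
        constructor
        · exact fun h => h.1
        · exact fun h => ⟨h, hAD h⟩
      have hnE : ¬ E A := by
        have := hFE A hFA
        rwa [hAe] at this
      have h3 : ind (F A) = 1 := by
        unfold ind
        rw [if_pos hFA]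
      rw [h3, mul_one]
      refine (hp A hA hAD hFA).trans ?_
      have h4 := Poi_piv (mu.restrict D) (fun B => E (A ∪ B))
        (fun B B' hBB' hEB => hmono _ _ (union_subset_union_right A hBB') hEB)
        (MS_union_left hE hA) (by rwa [union_empty])
      rw [huniv] at h4
      have h5 : ∀ t, pv (fun B => E (A ∪ B)) t = fun B => pv E t (A ∪ B) := by
        intro t
        funext B
        show ind (¬ E (A ∪ B) ∧ E (A ∪ insert t B)) = ind (¬ E (A ∪ B) ∧ E (insert t (A ∪ B)))
        rw [union_insert]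
      have h6 : ∫⁻ t, Poi (mu.restrict D) (pv (fun B => E (A ∪ B)) t) ∂(mu.restrict D) =
          ∫⁻ t, Poi (mu.restrict D) (fun B => pv E t (A ∪ B)) ∂(mu.restrict D) := by
        apply lintegral_congr
        intro t
        rw [h5 t]
      rw [h6] at h4
      exact h4
    · have h3 : ind (F A) = 0 := by
        unfold ind
        rw [if_neg hFA]
      rw [h3, mul_zero]
      exact zero_le
  calc p₀ * Poi mu (fun A => ind (F A)) = p₀ * Poi (mu.restrict Dᶜ) (fun A => ind (F A)) := by
        rw [h1]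
    _ = Poi (mu.restrict Dᶜ) (fun A => p₀ * ind (F A)) :=
        (Poi_const_mul (mu.restrict Dᶜ) hF p₀).symm
    _ ≤ Poi (mu.restrict Dᶜ) (fun A => c * ∫⁻ t, Poi (mu.restrict D)
          (fun B => pv E t (A ∪ B)) ∂(mu.restrict D)) :=
        Poi_restrict_mono mu hD.compl h2
    _ = c * Poi (mu.restrict Dᶜ) (fun A => ∫⁻ t, Poi (mu.restrict D)
          (fun B => pv E t (A ∪ B)) ∂(mu.restrict D)) :=
        Poi_const_mul (mu.restrict Dᶜ) (MS_lintegral (mu.restrict D) hg) c
    _ = c * ∫⁻ t, Poi (mu.restrict Dᶜ) (fun A => Poi (mu.restrict D)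
          (fun B => pv E t (A ∪ B))) ∂(mu.restrict D) := by
        rw [Poi_swap (mu.restrict Dᶜ) (mu.restrict D) hg]
    _ = c * ∫⁻ t in D, Poi mu (pv E t) ∂mu := by
        congr 1
        apply lintegral_congr
        intro t
        exact (Poi_split mu hD (hMpv t)).symm

end Pool.Agent.Helper97.BG
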