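import Pool.Agent.Helper97.BG.Defs
import Pool.Agent.Helper97.BG.St.P4
import Pool.Agent.Helper97.BG.St.P8
import Pool.Agent.Helper97.BG.St.P12
import Pool.Agent.Helper97.BG.St.G1
import Pool.Agent.Helper97.BG.St.G4
import Pool.Agent.Helper97.BG.St.G5
import Pool.Agent.Helper97.BG.St.M1
import Pool.Agent.Helper97.BG.St.M2

/-!
Project BG (MP_8410f8_pr), piece D1.
-/

open MeasureTheory Set
open scoped ENNReal

namespace Pool.Agent.Helper97.BG

private theorem d1_ball_subset {d : ℕ} {a : ℝ} (ha : 0 < a) {x : Sph d} {r : ℝ} {q : Sph d}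
    (hq : ‖(q : V d) - x‖ ≤ r - a / 16) : Metric.ball q (a / 32) ⊆ Dg x r := by
  intro v hv
  have h1 : ‖(v : V d) - q‖ < a / 32 := by
    rw [Metric.mem_ball, Subtype.dist_eq, dist_eq_norm] at hv
    exact hv
  show nrm x v < r
  unfold nrm
  refine lt_of_le_of_lt (min_le_left _ _) ?_
  have h2 : ‖(v : V d) - x‖ ≤ ‖(v : V d) - q‖ + ‖(q : V d) - x‖ := by
    have : (v : V d) - x = ((v : V d) - q) + ((q : V d) - x) := by abel
    rw [this]
    exact norm_add_le _ _
  linarith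

private theorem d1_ball_neg_subset {d : ℕ} {a : ℝ} (ha : 0 < a) {x : Sph d} {r : ℝ} {q : Sph d}
    (hq : ‖(q : V d) - x‖ ≤ r - a / 16) : Metric.ball (-q) (a / 32) ⊆ Dg x r := by
  intro v hv
  have h1 : ‖(v : V d) + q‖ < a / 32 := by
    rw [Metric.mem_ball, Subtype.dist_eq, dist_eq_norm] at hv
    have h0 : (v : V d) - ((-q : Sph d) : V d) = (v : V d) + q := by
      rw [show ((-q : Sph d) : V d) = -(q : V d) from rfl]; abel
    rw [h0] at hv
    exact hv
  show nrm x v < r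
  unfold nrm
  refine lt_of_le_of_lt (min_le_right _ _) ?_
  have h2 : ‖(v : V d) + x‖ ≤ ‖(v : V d) + q‖ + ‖(q : V d) - x‖ := by
    have : (v : V d) + x = ((v : V d) + q) - ((q : V d) - x) := by abel
    rw [this]
    exact norm_sub_le _ _
  linarith

private theorem d1_Dg_le {d : ℕ} {a : ℝ} (mu : Measure (Sph d)) {x : Sph d} {r : ℝ}
    {mm : ℝ≥0∞} (hr : r ≤ 4 * a) (hhi : ∀ p : Sph d, mu (Metric.ball p (4 * a)) ≤ mm) :
    mu (Dg x r) ≤ 2 * mm := by
  calc mu (Dg x r) ≤ mu (Metric.ball x r ∪ Metric.ball (-x) r) := measure_mono (Dg_subset x r)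
    _ ≤ mu (Metric.ball x r) + mu (Metric.ball (-x) r) := measure_union_le _ _
    _ ≤ mu (Metric.ball x (4 * a)) + mu (Metric.ball (-x) (4 * a)) :=
        add_le_add (measure_mono (Metric.ball_subset_ball hr))
          (measure_mono (Metric.ball_subset_ball hr))
    _ ≤ mm + mm := add_le_add (hhi x) (hhi (-x))
    _ = 2 * mm := (two_mul mm).symm

open Classical in
private theorem d1_lower {d : ℕ} {a : ℝ} (mu : Measure (Sph d)) [IsFiniteMeasure mu] {x : Sph d}
    {r : ℝ} {cs : ℝ≥0∞} (ha : 0 < a) (ha1 : 400 * a ≤ 1) (hr : a ≤ r) (hr1 : r ≤ 4 * a)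
    (hlo : ∀ p : Sph d, cs ≤ mu (Metric.ball p (a / 32))) {N : Finset (Sph d)}
    (hN : IsNet a x r N) {A : Set (Sph d)} (hA : A ⊆ (Dg x r)ᶜ) (hF : FF a x r A) :
    em (mu.restrict (Dg x r)) * (((2 * N.card).factorial : ℝ≥0∞))⁻¹ * cs ^ (2 * N.card) ≤
      Poi (mu.restrict (Dg x r)) (fun B => ind (Bad a (A ∪ B))) := by
  have hcard : Fintype.card (N × Bool) = 2 * N.card := by
    rw [Fintype.card_prod, Fintype.card_bool, Fintype.card_coe, mul_comm]
  have h1 := Poi_occ (ι := N × Bool) (mu.restrict (Dg x r))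
    (fun i => if i.2 = true then Metric.ball (i.1 : Sph d) (a / 32)
      else Metric.ball (-(i.1 : Sph d)) (a / 32))
    (by
      intro i
      by_cases hi : i.2 = true
      · simp only [hi, if_true]
        exact Metric.isOpen_ball.measurableSet
      · simp only [hi]
        exact Metric.isOpen_ball.measurableSet)
    cs
    (by
      intro i
      have hq := hN.1 i.1.1 i.1.2
      by_cases hi : i.2 = true
      · simp only [hi, if_true]
        rw [Measure.restrict_apply Metric.isOpen_ball.measurableSet,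
          inter_eq_left.mpr (d1_ball_subset ha hq)]
        exact hlo _
      · simp only [hi]
        have h2 : (Metric.ball (-(i.1 : Sph d)) (a / 32)) ∩ Dg x r =
            Metric.ball (-(i.1 : Sph d)) (a / 32) :=
          inter_eq_left.mpr (d1_ball_neg_subset ha hq)
        have h3 : (mu.restrict (Dg x r)) (Metric.ball (-(i.1 : Sph d)) (a / 32)) =
            mu (Metric.ball (-(i.1 : Sph d)) (a / 32)) := by
          rw [Measure.restrict_apply Metric.isOpen_ball.measurableSet, h2]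
        have h4 := hlo (-(i.1 : Sph d))
        rw [← h3] at h4
        exact h4)
  rw [hcard] at h1
  refine h1.trans (Poi_mono _ ?_)
  intro B _
  by_cases hB : ∀ i : N × Bool, (B ∩ (if i.2 = true then Metric.ball (i.1 : Sph d) (a / 32)
      else Metric.ball (-(i.1 : Sph d)) (a / 32))).Nonempty
  · have hAD : A \ Dg x r = A := by
      ext v
      constructor
      · exact fun h => h.1
      · exact fun h => ⟨h, hA h⟩
    have hbad : Bad a (A ∪ B) := by
      have h2 := lemmaB (A := A) (Z := B) ha ha1 hr hr1 hN ?_ hF.2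
      · rw [hAD] at h2
        exact h2
      · intro q hq
        constructor
        · obtain ⟨z, hz, hz2⟩ := hB (⟨q, hq⟩, true)
          refine ⟨z, hz, ?_⟩
          simp only [if_true] at hz2
          rw [Metric.mem_ball, Subtype.dist_eq, dist_eq_norm] at hz2
          exact hz2
        · obtain ⟨z, hz, hz2⟩ := hB (⟨q, hq⟩, false)
          refine ⟨z, hz, ?_⟩
          rw [if_neg (by simp)] at hz2
          rw [Metric.mem_ball, Subtype.dist_eq, dist_eq_norm] at hz2
          have h0 : (z : V d) - ((-q : Sph d) : V d) = (z : V d) + q := by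
            rw [show ((-q : Sph d) : V d) = -(q : V d) from rfl]; abel
          rw [h0] at hz2
          exact hz2
    have e1 : ind (Bad a (A ∪ B)) = 1 := by
      unfold ind; rw [if_pos hbad]
    rw [e1]
    unfold ind
    rw [if_pos hB]
  · have e1 : ind (∀ i : N × Bool, (B ∩ (if i.2 = true then Metric.ball (i.1 : Sph d) (a / 32)
      else Metric.ball (-(i.1 : Sph d)) (a / 32))).Nonempty) = 0 := by
      unfold ind; rw [if_neg hB]
    rw [e1]
    exact zero_le

/-- Lemma C. Apply `lemmaC_abs` with `E = Bad a`, `F = FF a x r`, `D = Dg x r` (`Bad_mono`,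
`MS_Bad`, `MS_FF`, `FF_local`; `FF` says that `A \ D` is 2-colourable). Let `N` be a net
(`exists_net`), so `card N ≤ mm / cs`. For finite `A ⊆ Dᶜ` with `FF a x r A`: if `B` meets
`ball q (a/32)` and `ball (-q) (a/32)` for all `q ∈ N` then `Bad a (A ∪ B)` (`lemmaB` with
`A \ D = A`). These balls lie in `D` (`‖q - x‖ + a/32 < r`), so their `mu.restrict D` measure is
at least `cs`. `Poi_occ` with `ι = N × Bool` (so `k = 2 card N` sets) gives the lower bound
`em (mu.restrict D) * (k!)⁻¹ * cs^k ≥ e^{-2mm} (K0!)⁻¹ (min cs 1)^K0 =: p₀` for any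
`K0 ≥ 2 mm / cs` (`mu D ≤ 2 mm` by `Dg_subset`). Then `C₁ = e^{2 mm} / p₀`. -/
theorem lemmaC (cs mm : ℝ≥0∞) (hcs : cs ≠ 0) (hmm : mm ≠ ∞) : ∃ C₁ : ℝ≥0∞, C₁ ≠ ∞ ∧
    ∀ (d : ℕ) (a : ℝ) (mu : Measure (Sph d)) [IsFiniteMeasure mu] (x : Sph d) (r : ℝ),
      0 < a → 400 * a ≤ 1 → a ≤ r → r ≤ 7 / 2 * a →
      (∀ p : Sph d, cs ≤ mu (Metric.ball p (a / 32))) →
      (∀ p : Sph d, mu (Metric.ball p (4 * a)) ≤ mm) →
      Poi mu (fun A => ind (FF a x r A)) ≤ C₁ * ∫⁻ t in Dg x r, Poi mu (pv (Bad a) t) ∂mu := by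
  have hq : 2 * (mm / cs) ≠ ∞ := ENNReal.mul_ne_top (by simp) (ENNReal.div_ne_top hmm hcs)
  obtain ⟨K0, hK0⟩ := ENNReal.exists_nat_gt hq
  have h2mm : 2 * mm ≠ ∞ := ENNReal.mul_ne_top (by simp) hmm
  set p0 : ℝ≥0∞ := ENNReal.ofReal (Real.exp (-(2 * mm).toReal)) *
    ((K0.factorial : ℝ≥0∞))⁻¹ * (min cs 1) ^ K0 with hp0
  have hmin0 : min cs 1 ≠ 0 := by
    rcases le_total cs 1 with h | h
    · rw [min_eq_left h]; exact hcs
    · rw [min_eq_right h]; exact one_ne_zero
  have hmintop : min cs 1 ≠ ∞ := ne_top_of_le_ne_top ENNReal.one_ne_top (min_le_right _ _)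
  have hfac0 : ((K0.factorial : ℝ≥0∞)) ≠ 0 := by
    exact_mod_cast K0.factorial_ne_zero
  have hp0ne : p0 ≠ 0 := by
    rw [hp0]
    refine mul_ne_zero (mul_ne_zero ?_ ?_) (pow_ne_zero _ hmin0)
    · rw [Ne, ENNReal.ofReal_eq_zero, not_le]
      exact Real.exp_pos _
    · exact ENNReal.inv_ne_zero.mpr (ENNReal.natCast_ne_top _)
  have hp0top : p0 ≠ ∞ := by
    rw [hp0]
    exact ENNReal.mul_ne_top (ENNReal.mul_ne_top ENNReal.ofReal_ne_top
      (ENNReal.inv_ne_top.mpr hfac0)) (ENNReal.pow_ne_top hmintop)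
  refine ⟨ENNReal.ofReal (Real.exp (2 * mm).toReal) / p0,
    ENNReal.div_ne_top ENNReal.ofReal_ne_top hp0ne, ?_⟩
  intro d a mu _ x r ha ha1 hr hr1 hlo hhi
  have hr4 : r ≤ 4 * a := by linarith
  have hDg : mu (Dg x r) ≤ 2 * mm := d1_Dg_le mu hr4 hhi
  have hDgR : (mu (Dg x r)).toReal ≤ (2 * mm).toReal := ENNReal.toReal_mono h2mm hDg
  obtain ⟨N, hN, hNc⟩ := exists_net mu x hcs hmm ha hr1 hlo hhi
  have hNK : 2 * N.card ≤ K0 := by
    have h1 : (N.card : ℝ≥0∞) ≤ mm / cs := by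
      rw [ENNReal.le_div_iff_mul_le (Or.inl hcs) (Or.inr hmm)]
      exact hNc
    have h2 : ((2 * N.card : ℕ) : ℝ≥0∞) ≤ (K0 : ℝ≥0∞) := by
      push_cast
      exact (mul_le_mul' le_rfl h1).trans hK0.le
    exact_mod_cast h2
  have hlow : p0 ≤ em (mu.restrict (Dg x r)) * (((2 * N.card).factorial : ℝ≥0∞))⁻¹ *
      cs ^ (2 * N.card) := by
    rw [hp0]
    refine mul_le_mul' (mul_le_mul' ?_ ?_) ?_
    · unfold em
      rw [Measure.restrict_apply_univ]
      exact ENNReal.ofReal_le_ofReal (Real.exp_le_exp.mpr (by linarith))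
    · rw [ENNReal.inv_le_inv]
      exact_mod_cast Nat.factorial_le hNK
    · calc (min cs 1) ^ K0 ≤ (min cs 1) ^ (2 * N.card) :=
            pow_le_pow_right_of_le_one' (min_le_right _ _) hNK
        _ ≤ cs ^ (2 * N.card) := pow_le_pow_left' (min_le_left _ _) _
  have hmain := lemmaC_abs mu (measurableSet_Dg x r) (Bad a) (FF a x r)
    (fun A B h hA => Bad_mono A B h hA) (MS_Bad a) (MS_FF a x r) (fun A => FF_local x r A)
    (fun A h hb => hb h.1) p0
    (fun A _ hAD hF => hlow.trans (d1_lower mu ha ha1 hr hr4 hlo hN hAD hF))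
  set I : ℝ≥0∞ := ∫⁻ t in Dg x r, Poi mu (pv (Bad a) t) ∂mu with hI
  have h3 : p0 * Poi mu (fun A => ind (FF a x r A)) ≤
      ENNReal.ofReal (Real.exp (2 * mm).toReal) * I :=
    hmain.trans (mul_le_mul' (ENNReal.ofReal_le_ofReal (Real.exp_le_exp.mpr hDgR)) le_rfl)
  have h4 : Poi mu (fun A => ind (FF a x r A)) ≤
      (ENNReal.ofReal (Real.exp (2 * mm).toReal) * I) / p0 := by
    rw [ENNReal.le_div_iff_mul_le (Or.inl hp0ne) (Or.inl hp0top), mul_comm]
    exact h3
  refine h4.trans (le_of_eq ?_)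
  rw [ENNReal.div_eq_inv_mul, ENNReal.div_eq_inv_mul, mul_assoc]

end Pool.Agent.Helper97.BG
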