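import Pool.Agent.Helper97.BG.Defs
import Pool.Agent.Helper97.BG.St.G1

/-!
Project BG (MP_8410f8_pr), piece G2.
-/

open MeasureTheory Set
open scoped ENNReal

namespace Pool.Agent.Helper97.BG

variable {d : ℕ}

private theorem g2_b1 : ∀ a0 a1 b0 b1 : Bool, a0 ≠ b0 → a1 ≠ b1 → b0 ≠ b1 → a0 ≠ a1 := by
  decide

private theorem g2_b2 : ∀ u0 v0 tu tv : Bool, u0 ≠ v0 → u0 = tu → tu ≠ tv → v0 = tv := by
  decide

private theorem g2_b3 : ∀ a t : Bool, a ≠ t → (!a) = t := by decide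

private theorem g2_b4 : ∀ a b : Bool, a ≠ b → (!a) ≠ (!b) := by decide

private theorem g2_comm {a : ℝ} {u v : Sph d} (h : ‖(u : V d) + v‖ < a) :
    ‖(v : V d) + u‖ < a := by
  have e : (v : V d) + u = u + v := add_comm _ _
  exact (congrArg (fun w : V d => ‖w‖) e).trans_lt h

private theorem g2_closed {a : ℝ} {x : Sph d} {r : ℝ} (ha : 0 < a) (ha1 : 10 * a ≤ 1)
    (hr1 : r ≤ 4 * a) {A : Set (Sph d)} {c0 c1 c2 : Sph d → Bool}
    (P0 : ∀ u ∈ A, ∀ v ∈ A, r ≤ nrm x u → r ≤ nrm x v → ‖(u : V d) + v‖ < a → c0 u ≠ c0 v)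
    (E0 : ∀ v ∈ A, r ≤ nrm x v → nrm x v < r + 3 / 4 * a → c0 v = tau x v)
    (P1 : ∀ u ∈ A, ∀ v ∈ A, r + a / 4 ≤ nrm x u → r + a / 4 ≤ nrm x v →
      ‖(u : V d) + v‖ < a → c1 u ≠ c1 v)
    (E1 : ∀ v ∈ A, r + a / 4 ≤ nrm x v → nrm x v < r + a → c1 v = tau x v)
    (P2 : ∀ u ∈ A, ∀ v ∈ A, r + a / 2 ≤ nrm x u → r + a / 2 ≤ nrm x v →
      ‖(u : V d) + v‖ < a → c2 u ≠ c2 v)
    (E2 : ∀ v ∈ A, r + a / 2 ≤ nrm x v → nrm x v < r + 5 / 4 * a → c2 v = tau x v)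
    {u v : Sph d} (hv : v ∈ A ∧ r + a / 2 ≤ nrm x v ∧ c0 v ≠ c1 v ∧ c0 v ≠ c2 v)
    (hu : u ∈ A) (hur : r ≤ nrm x u) (h : ‖(u : V d) + v‖ < a) :
    u ∈ A ∧ r + a / 2 ≤ nrm x u ∧ c0 u ≠ c1 u ∧ c0 u ≠ c2 u := by
  obtain ⟨hvA, hv2, h01, h02⟩ := hv
  have k0 : c0 u ≠ c0 v := P0 u hu v hvA hur (by linarith) h
  rcases le_or_gt (r + a / 2) (nrm x u) with hc | hc
  · have k1 : c1 u ≠ c1 v := P1 u hu v hvA (by linarith) (by linarith) h
    have k2 : c2 u ≠ c2 v := P2 u hu v hvA hc hv2 h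
    exact ⟨hu, hc, g2_b1 _ _ _ _ k0 k1 h01, g2_b1 _ _ _ _ k0 k2 h02⟩
  · have ht : tau x u ≠ tau x v := tau_ne_of_adj h (by linarith)
    have e0 : c0 u = tau x u := E0 u hu hur (by linarith)
    have e0v : c0 v = tau x v := g2_b2 _ _ _ _ k0 e0 ht
    exfalso
    rcases le_or_gt (r + a / 4) (nrm x u) with hd | hd
    · have e1 : c1 u = tau x u := E1 u hu hd (by linarith)
      have k1 : c1 u ≠ c1 v := P1 u hu v hvA hd (by linarith) h
      have e1v : c1 v = tau x v := g2_b2 _ _ _ _ k1 e1 ht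
      exact h01 (e0v.trans e1v.symm)
    · have hlt := nrm_lt_of_adj (x := x) h
      have e2v : c2 v = tau x v := E2 v hvA hv2 (by linarith)
      exact h02 (e0v.trans e2v.symm)

/-- Lemma A. Let `c0, c1, c2` be the three colourings (equal to `tau x` at distance
`< r + 3a/4`, `< r + a`, `< r + 5a/4`, on the complements of `Dg x r`, `Dg x (r + a/4)`,
`Dg x (r + a/2)`). Put `B = {v ∈ A | r + a/2 ≤ nrm x v, c0 v ≠ c1 v, c0 v ≠ c2 v}`.
Claim: if `v ∈ B`, `u ∈ A`, `r ≤ nrm x u` and `‖u + v‖ < a` then `u ∈ B`.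
If `r + a/2 ≤ nrm x u`: all three colourings change along the edge (they are proper there).
If `nrm x u < r + a/2`: `c0 u = tau x u` (since `a/2 ≤ 3a/4`), hence
`c0 v = ! tau x u = tau x v` (`tau_ne_of_adj`). If moreover `r + a/4 ≤ nrm x u`, then
`c1 u = tau x u`, so `c1 v = tau x v = c0 v`, contradiction. If `nrm x u < r + a/4` then
`nrm x v < r + 5a/4` (`nrm_lt_of_adj`), so `c2 v = tau x v = c0 v`, contradiction.
Let `c v = ! c0 v` on `B` and `c v = c0 v` off `B`: proper on `A \ Dg x r`, and `c v = tau x v`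
for `v ∈ A`, `r ≤ nrm x v < r + a`: if `nrm x v < r + 3a/4` then `c0 v = tau x v` and `v ∉ B`
(either `nrm x v < r + a/2`, or `c1 v = tau x v = c0 v`); if `r + 3a/4 ≤ nrm x v < r + a` then
`c1 v = c2 v = tau x v`, and `v ∈ B` iff `c0 v ≠ tau x v`. Finally colour
`v` by `tau x v` when `nrm x v < r` (this includes `x`, `nrm_self`) and by `c v` otherwise: an
edge `u, v` with `nrm x u < r ≤ nrm x v` has `nrm x v < r + a`, so `c v = tau x v ≠ tau x u`. -/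
theorem lemmaA {a : ℝ} {x : Sph d} {r : ℝ} (ha : 0 < a) (ha1 : 10 * a ≤ 1) (hr : 0 < r)
    (hr1 : r ≤ 4 * a) {A : Set (Sph d)} (h0 : Ext a x r (r + 3 / 4 * a) A)
    (h1 : Ext a x (r + a / 4) (r + a / 4 + 3 / 4 * a) A)
    (h2 : Ext a x (r + a / 2) (r + a / 2 + 3 / 4 * a) A) : Col2 a (insert x A) := by
  classical
  obtain ⟨c0, p0, e0⟩ := h0
  obtain ⟨c1, p1, e1⟩ := h1
  obtain ⟨c2, p2, e2⟩ := h2
  have mem : ∀ {v : Sph d} {s : ℝ}, v ∈ A → s ≤ nrm x v → v ∈ A \ Dg x s :=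
    fun {v s} hv hs => ⟨hv, fun h => absurd (show nrm x v < s from h) (not_lt.2 hs)⟩
  have P0 : ∀ u ∈ A, ∀ v ∈ A, r ≤ nrm x u → r ≤ nrm x v → ‖(u : V d) + v‖ < a →
      c0 u ≠ c0 v := fun u hu v hv h1 h2 h => p0 u (mem hu h1) v (mem hv h2) h
  have E0 : ∀ v ∈ A, r ≤ nrm x v → nrm x v < r + 3 / 4 * a → c0 v = tau x v :=
    fun v hv h1 h2 => e0 v (mem hv h1) h2
  have P1 : ∀ u ∈ A, ∀ v ∈ A, r + a / 4 ≤ nrm x u → r + a / 4 ≤ nrm x v →
      ‖(u : V d) + v‖ < a → c1 u ≠ c1 v :=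
    fun u hu v hv h1 h2 h => p1 u (mem hu h1) v (mem hv h2) h
  have E1 : ∀ v ∈ A, r + a / 4 ≤ nrm x v → nrm x v < r + a → c1 v = tau x v :=
    fun v hv h1 h2 => e1 v (mem hv h1) (by linarith)
  have P2 : ∀ u ∈ A, ∀ v ∈ A, r + a / 2 ≤ nrm x u → r + a / 2 ≤ nrm x v →
      ‖(u : V d) + v‖ < a → c2 u ≠ c2 v :=
    fun u hu v hv h1 h2 h => p2 u (mem hu h1) v (mem hv h2) h
  have E2 : ∀ v ∈ A, r + a / 2 ≤ nrm x v → nrm x v < r + 5 / 4 * a → c2 v = tau x v :=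
    fun v hv h1 h2 => e2 v (mem hv h1) (by linarith)
  obtain ⟨B, hB⟩ : ∃ B : Sph d → Prop, ∀ v, B v ↔
      (v ∈ A ∧ r + a / 2 ≤ nrm x v ∧ c0 v ≠ c1 v ∧ c0 v ≠ c2 v) := ⟨_, fun v => Iff.rfl⟩
  have cl : ∀ {u v : Sph d}, B v → u ∈ A → r ≤ nrm x u → ‖(u : V d) + v‖ < a → B u :=
    fun {u v} hv hu hur h =>
      (hB u).2 (g2_closed ha ha1 hr1 P0 E0 P1 E1 P2 E2 ((hB v).1 hv) hu hur h)
  obtain ⟨c, hc⟩ : ∃ c : Sph d → Bool, ∀ v, c v = if B v then !(c0 v) else c0 v :=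
    ⟨_, fun v => rfl⟩
  have cB : ∀ {v : Sph d}, B v → c v = !(c0 v) := fun {v} h => by rw [hc v, if_pos h]
  have cN : ∀ {v : Sph d}, ¬ B v → c v = c0 v := fun {v} h => by rw [hc v, if_neg h]
  have key : ∀ v ∈ A, r ≤ nrm x v → nrm x v < r + a → c v = tau x v := by
    intro v hv h1 h2
    rcases lt_or_ge (nrm x v) (r + 3 / 4 * a) with h3 | h3
    · have e0v := E0 v hv h1 h3
      have hn : ¬ B v := by
        intro hb
        obtain ⟨_, hb2, hb3, _⟩ := (hB v).1 hb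
        exact hb3 (e0v.trans (E1 v hv (by linarith) h2).symm)
      rw [cN hn, e0v]
    · have e1v := E1 v hv (by linarith) h2
      have e2v := E2 v hv (by linarith) (by linarith)
      by_cases hb : B v
      · obtain ⟨_, _, hb3, _⟩ := (hB v).1 hb
        rw [cB hb]
        rw [e1v] at hb3
        exact g2_b3 _ _ hb3
      · rw [cN hb]
        by_contra hne
        refine hb ((hB v).2 ⟨hv, by linarith, ?_, ?_⟩)
        · rw [e1v]; exact hne
        · rw [e2v]; exact hne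
  have prop : ∀ u ∈ A, ∀ v ∈ A, r ≤ nrm x u → r ≤ nrm x v → ‖(u : V d) + v‖ < a →
      c u ≠ c v := by
    intro u hu v hv h1 h2 h
    have h' : ‖(v : V d) + u‖ < a := g2_comm h
    have k0 := P0 u hu v hv h1 h2 h
    by_cases hb : B u
    · have hb' : B v := cl hb hv h2 h'
      rw [cB hb, cB hb']
      exact g2_b4 _ _ k0
    · have hb' : ¬ B v := fun hbv => hb (cl hbv hu h1 h)
      rw [cN hb, cN hb']
      exact k0
  have inA : ∀ {v : Sph d}, v ∈ insert x A → r ≤ nrm x v → v ∈ A := by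
    intro v hv h1
    rcases Set.mem_insert_iff.1 hv with h2 | h2
    · exfalso
      rw [h2, nrm_self] at h1
      linarith
    · exact h2
  have mixed : ∀ u v : Sph d, v ∈ A → nrm x u < r → r ≤ nrm x v → ‖(u : V d) + v‖ < a →
      tau x u ≠ c v := by
    intro u v hv h1 h2 h
    have hlt := nrm_lt_of_adj (x := x) h
    rw [key v hv h2 (by linarith)]
    exact tau_ne_of_adj h (by linarith)
  refine ⟨fun v => if nrm x v < r then tau x v else c v, ?_⟩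
  intro u hu v hv h
  have h' : ‖(v : V d) + u‖ < a := g2_comm h
  change (if nrm x u < r then tau x u else c u) ≠ (if nrm x v < r then tau x v else c v)
  rcases lt_or_ge (nrm x u) r with h1 | h1
  · rw [if_pos h1]
    rcases lt_or_ge (nrm x v) r with h2 | h2
    · rw [if_pos h2]
      exact tau_ne_of_adj h (by linarith)
    · rw [if_neg (not_lt.2 h2)]
      exact mixed u v (inA hv h2) h1 h2 h
  · rw [if_neg (not_lt.2 h1)]
    rcases lt_or_ge (nrm x v) r with h2 | h2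
    · rw [if_pos h2]
      exact (mixed v u (inA hu h1) h2 h1 h').symm
    · rw [if_neg (not_lt.2 h2)]
      exact prop u (inA hu h1) v (inA hv h2) h1 h2 h

/-- Corollary: apply `lemmaA` with `r = 3a`; `A \ D` is 2-colourable because `A` is. -/
theorem piv_FF {a : ℝ} {x : Sph d} (ha : 0 < a) (ha1 : 10 * a ≤ 1) {A : Set (Sph d)}
    (hA : ¬ Bad a A) (hx : Bad a (insert x A)) :
    FF a x (3 * a) A ∨ FF a x (3 * a + a / 4) A ∨ FF a x (3 * a + a / 2) A := by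
  by_contra hcon
  push Not at hcon
  obtain ⟨n0, n1, n2⟩ := hcon
  have hcol : ∀ s : ℝ, Col2 a (A \ Dg x s) := by
    intro s
    by_contra hs
    exact hA (Bad_mono _ _ Set.sdiff_subset hs)
  have hext : ∀ s : ℝ, ¬ FF a x s A → Ext a x s (s + 3 / 4 * a) A := by
    intro s hs
    by_contra he
    exact hs ⟨hcol s, he⟩
  exact hx (lemmaA ha ha1 (by linarith) (by linarith) (hext _ n0) (hext _ n1) (hext _ n2))

end Pool.Agent.Helper97.BG
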