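import Pool.Agent.Helper97.BG.Defs
import Pool.Agent.Helper97.BG.St.P1

/-!
Project BG (MP_8410f8_pr), piece P7.
-/

open MeasureTheory Set
open scoped ENNReal

namespace Pool.Agent.Helper97.BG

variable {S : Type*} [MeasurableSpace S]

/-- Split the series at `n = k`: for `n > k` use `tup mu n f ≤ M (mu univ)^n` (`tup_le`) and
`em mu ≤ 1`. -/
theorem Poi_le_trunc (mu : Measure S) [IsFiniteMeasure mu] {f : Set S → ℝ≥0∞} (M : ℝ≥0∞)
    (h : ∀ A, f A ≤ M) (k : ℕ) : Poi mu f ≤ PoiT mu k f + M * tail (mu univ) k := by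
  have hsplit : (∑' n : ℕ, ((n.factorial : ℝ≥0∞))⁻¹ * tup mu n f) =
      (∑ n ∈ Finset.range (k + 1), ((n.factorial : ℝ≥0∞))⁻¹ * tup mu n f) +
        ∑' n : ℕ, (((n + (k + 1)).factorial : ℝ≥0∞))⁻¹ * tup mu (n + (k + 1)) f :=
    (Summable.sum_add_tsum_nat_add' (f := fun n : ℕ => ((n.factorial : ℝ≥0∞))⁻¹ * tup mu n f)
      (k := k + 1) ENNReal.summable).symm
  have hrest : (∑' n : ℕ, (((n + (k + 1)).factorial : ℝ≥0∞))⁻¹ * tup mu (n + (k + 1)) f) ≤
      M * tail (mu univ) k := by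
    unfold tail
    rw [← ENNReal.tsum_mul_left]
    refine ENNReal.tsum_le_tsum fun n => ?_
    calc (((n + (k + 1)).factorial : ℝ≥0∞))⁻¹ * tup mu (n + (k + 1)) f
        ≤ (((n + (k + 1)).factorial : ℝ≥0∞))⁻¹ * (M * (mu univ) ^ (n + (k + 1))) :=
          mul_le_mul_right (tup_le mu _ M h) _
      _ = M * ((mu univ) ^ (n + k + 1) * (((n + k + 1).factorial : ℝ≥0∞))⁻¹) := by
          rw [← add_assoc]
          ring
  have hem : em mu ≤ 1 := by
    unfold em
    rw [← ENNReal.ofReal_one]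
    refine ENNReal.ofReal_le_ofReal ?_
    rw [Real.exp_le_one_iff]
    have := ENNReal.toReal_nonneg (a := mu univ)
    linarith
  unfold Poi PoiT
  rw [hsplit, mul_add]
  refine add_le_add le_rfl ?_
  calc em mu * ∑' n : ℕ, (((n + (k + 1)).factorial : ℝ≥0∞))⁻¹ * tup mu (n + (k + 1)) f
      ≤ 1 * ∑' n : ℕ, (((n + (k + 1)).factorial : ℝ≥0∞))⁻¹ * tup mu (n + (k + 1)) f :=
        mul_le_mul_left hem _
    _ ≤ M * tail (mu univ) k := by rw [one_mul]; exact hrest

/-- The exponential series converges; `tail m' k ≤ tail m k → 0` as `k → ∞`. -/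
theorem exists_tail_le (m : ℝ≥0∞) (hm : m ≠ ∞) {e : ℝ≥0∞} (he : e ≠ 0) :
    ∃ k, ∀ m' ≤ m, tail m' k ≤ e := by
  have hfin : (∑' n : ℕ, m ^ n * ((n.factorial : ℝ≥0∞))⁻¹) ≠ ∞ := by
    lift m to NNReal using hm
    have hs : Summable (fun n : ℕ => m ^ n / (n.factorial : NNReal)) := by
      rw [← NNReal.summable_coe]
      have := Real.summable_pow_div_factorial (m : ℝ)
      refine this.congr fun n => ?_
      push_cast
      rfl
    have h2 := ENNReal.tsum_coe_ne_top_iff_summable.2 hs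
    have h3 : (∑' n : ℕ, (m : ℝ≥0∞) ^ n * ((n.factorial : ℝ≥0∞))⁻¹) =
        ∑' n : ℕ, ((m ^ n / (n.factorial : NNReal) : NNReal) : ℝ≥0∞) := by
      refine tsum_congr fun n => ?_
      have hn : (n.factorial : NNReal) ≠ 0 := by
        exact_mod_cast n.factorial_ne_zero
      rw [ENNReal.coe_div hn, ENNReal.coe_pow, div_eq_mul_inv, ENNReal.coe_natCast]
    rw [h3]
    exact h2
  have ht := ENNReal.tendsto_sum_nat_add (fun n : ℕ => m ^ n * ((n.factorial : ℝ≥0∞))⁻¹) hfin
  have hev := ht.eventually (gt_mem_nhds (pos_iff_ne_zero.2 he))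
  obtain ⟨k, hk⟩ := hev.exists
  refine ⟨k, fun m' hm' => ?_⟩
  calc tail m' k ≤ tail m k := by
        unfold tail
        refine ENNReal.tsum_le_tsum fun n => ?_
        exact mul_le_mul_left (pow_le_pow_left' hm' _) _
    _ ≤ ∑' n : ℕ, m ^ (n + k) * (((n + k).factorial : ℝ≥0∞))⁻¹ := by
        unfold tail
        have h1 := Summable.sum_add_tsum_nat_add'
          (f := fun n : ℕ => m ^ (n + k) * (((n + k).factorial : ℝ≥0∞))⁻¹)
          (k := 1) ENNReal.summable
        rw [← h1]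
        refine le_trans (le_of_eq ?_) le_add_self
        refine tsum_congr fun n => ?_
        have : n + 1 + k = n + k + 1 := by omega
        rw [this]
    _ ≤ e := hk.le

end Pool.Agent.Helper97.BG
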