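import Pool.Agent.Helper97.BG.Defs
import Pool.Agent.Helper97.BG.St.P2
import Pool.Agent.Helper97.BG.St.P3
import Pool.Agent.Helper97.BG.St.P4
import Pool.Agent.Helper97.BG.St.P6
import Pool.Agent.Helper97.BG.St.P7
import Pool.Agent.Helper97.BG.St.G1
import Pool.Agent.Helper97.BG.St.G2
import Pool.Agent.Helper97.BG.St.M1
import Pool.Agent.Helper97.BG.St.M2
import Pool.Agent.Helper97.BG.St.D1

/-!
Project BG (MP_8410f8_pr), piece D2.
-/

open MeasureTheory Set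
open scoped ENNReal

namespace Pool.Agent.Helper97.BG

private theorem d2_Dg_le {d : ℕ} {a : ℝ} (mu : Measure (Sph d)) {x : Sph d} {r : ℝ}
    {mm : ℝ≥0∞} (hr : r ≤ 4 * a) (hhi : ∀ p : Sph d, mu (Metric.ball p (4 * a)) ≤ mm) :
    mu (Dg x r) ≤ 2 * mm := by
  calc mu (Dg x r) ≤ mu (Metric.ball x r ∪ Metric.ball (-x) r) := measure_mono (Dg_subset x r)
    _ ≤ mu (Metric.ball x r) + mu (Metric.ball (-x) r) := measure_union_le _ _
    _ ≤ mu (Metric.ball x (4 * a)) + mu (Metric.ball (-x) (4 * a)) :=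
        add_le_add (measure_mono (Metric.ball_subset_ball hr))
          (measure_mono (Metric.ball_subset_ball hr))
    _ ≤ mm + mm := add_le_add (hhi x) (hhi (-x))
    _ = 2 * mm := (two_mul mm).symm

private theorem d2_ind_le_one (p : Prop) : ind p ≤ 1 := by
  unfold ind
  split_ifs
  · exact le_rfl
  · exact zero_le

private theorem d2_ind_mono {p q : Prop} (h : p → q) : ind p ≤ ind q := by
  unfold ind
  split_ifs with h1 h2
  · exact le_rfl
  · exact absurd (h h1) h2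
  · exact zero_le
  · exact le_rfl

private theorem d2_ind_or (p q r : Prop) : ind (p ∨ q ∨ r) ≤ ind p + ind q + ind r := by
  by_cases hp : p
  · have : ind p = 1 := by unfold ind; rw [if_pos hp]
    rw [this, add_assoc]
    exact (d2_ind_le_one _).trans le_self_add
  · by_cases hq : q
    · have : ind q = 1 := by unfold ind; rw [if_pos hq]
      rw [this]
      calc ind (p ∨ q ∨ r) ≤ 1 := d2_ind_le_one _
        _ ≤ ind p + 1 := le_add_self
        _ ≤ _ := le_self_add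
    · have h1 : ind (p ∨ q ∨ r) ≤ ind r := d2_ind_mono (by tauto)
      exact h1.trans le_add_self

/-- the pointwise bound for a pivotal indicator -/
private theorem d2_pv_le {d : ℕ} {a : ℝ} (ha : 0 < a) (ha1 : 400 * a ≤ 1) (x : Sph d)
    (A B : Set (Sph d)) (hB : B ⊆ Dg x (3 * a)) :
    pv (Bad a) x (A ∪ B) ≤ ind (FF a x (3 * a) A) + ind (FF a x (3 * a + a / 4) A) +
      ind (FF a x (3 * a + a / 2) A) := by
  have key : ∀ r : ℝ, 3 * a ≤ r → (FF a x r (A ∪ B) ↔ FF a x r A) := by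
    intro r hr
    rw [FF_local x r (A ∪ B), FF_local x r A]
    have : (A ∪ B) \ Dg x r = A \ Dg x r := by
      ext v
      constructor
      · rintro ⟨h1 | h1, h2⟩
        · exact ⟨h1, h2⟩
        · exact absurd (Dg_mono x hr (hB h1)) h2
      · rintro ⟨h1, h2⟩
        exact ⟨Or.inl h1, h2⟩
    rw [this]
  unfold pv
  refine le_trans (d2_ind_mono ?_) (d2_ind_or _ _ _)
  rintro ⟨h1, h2⟩
  have h3 := piv_FF ha (by linarith) h1 h2
  rwa [key _ le_rfl, key _ (by linarith), key _ (by linarith)] at h3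

private theorem d2_FF_local {d : ℕ} {a : ℝ} (x : Sph d) {r : ℝ} (hr : 3 * a ≤ r)
    (A : Set (Sph d)) : ind (FF a x r A) = ind (FF a x r (A \ Dg x (3 * a))) := by
  have : FF a x r A ↔ FF a x r (A \ Dg x (3 * a)) := by
    rw [FF_local x r A, FF_local x r (A \ Dg x (3 * a))]
    have : (A \ Dg x (3 * a)) \ Dg x r = A \ Dg x r := by
      ext v
      constructor
      · rintro ⟨⟨h1, -⟩, h2⟩
        exact ⟨h1, h2⟩
      · rintro ⟨h1, h2⟩
        exact ⟨⟨h1, fun h => h2 (Dg_mono x hr h)⟩, h2⟩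
    rw [this]
  rw [this]

/-- the bound of the Poisson expectation of the pivotal indicator, for a fixed point -/
private theorem d2_point {d : ℕ} {a : ℝ} (ha : 0 < a) (ha1 : 400 * a ≤ 1)
    (mu : Measure (Sph d)) [IsFiniteMeasure mu] (x : Sph d) (k : ℕ) :
    Poi mu (pv (Bad a) x) ≤ UU a mu k x + tail (mu (Dg x (3 * a))) k *
      (Poi mu (fun A => ind (FF a x (3 * a) A)) + Poi mu (fun A => ind (FF a x (3 * a + a / 4) A)) +
        Poi mu (fun A => ind (FF a x (3 * a + a / 2) A))) := by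
  have hD : MeasurableSet (Dg x (3 * a)) := measurableSet_Dg x (3 * a)
  have hf : MS (pv (Bad a) x) := MS1_at (MS1_pv (MS_Bad a)) x
  rw [Poi_split mu hD hf]
  have h0 : MS (fun A : Set (Sph d) => ind (FF a x (3 * a) A)) := MS_FF a x _
  have h1 : MS (fun A : Set (Sph d) => ind (FF a x (3 * a + a / 4) A)) := MS_FF a x _
  have h2 : MS (fun A : Set (Sph d) => ind (FF a x (3 * a + a / 2) A)) := MS_FF a x _
  have h01 : MS (fun A : Set (Sph d) => ind (FF a x (3 * a) A) +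
      ind (FF a x (3 * a + a / 4) A)) := fun n => (h0 n).add (h1 n)
  have hG : MS (fun A : Set (Sph d) => ind (FF a x (3 * a) A) +
      ind (FF a x (3 * a + a / 4) A) + ind (FF a x (3 * a + a / 2) A)) :=
    fun n => (h01 n).add (h2 n)
  have e0 : Poi mu (fun A => ind (FF a x (3 * a) A)) =
      Poi (mu.restrict (Dg x (3 * a))ᶜ) (fun A => ind (FF a x (3 * a) A)) :=
    Poi_local mu hD h0 (d2_FF_local x le_rfl)
  have e1 : Poi mu (fun A => ind (FF a x (3 * a + a / 4) A)) =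
      Poi (mu.restrict (Dg x (3 * a))ᶜ) (fun A => ind (FF a x (3 * a + a / 4) A)) :=
    Poi_local mu hD h1 (d2_FF_local x (by linarith))
  have e2 : Poi mu (fun A => ind (FF a x (3 * a + a / 2) A)) =
      Poi (mu.restrict (Dg x (3 * a))ᶜ) (fun A => ind (FF a x (3 * a + a / 2) A)) :=
    Poi_local mu hD h2 (d2_FF_local x (by linarith))
  rw [e0, e1, e2, ← Poi_add_fun _ h0, ← Poi_add_fun _ h01, ← Poi_const_mul _ hG]
  unfold UU
  rw [← Poi_add_fun _ (MS_union_PoiT (mu.restrict (Dg x (3 * a))) k hf)]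
  refine Poi_mono _ ?_
  intro A _
  have hin : Poi (mu.restrict (Dg x (3 * a))) (fun B => pv (Bad a) x (A ∪ B)) ≤
      Poi (mu.restrict (Dg x (3 * a))) (fun B => pv (Bad a) x (A ∪ (B ∩ Dg x (3 * a)))) := by
    refine Poi_restrict_mono mu hD ?_
    intro B _ hB
    rw [inter_eq_left.mpr hB]
  refine hin.trans ?_
  refine (Poi_le_trunc (mu.restrict (Dg x (3 * a))) (ind (FF a x (3 * a) A) +
      ind (FF a x (3 * a + a / 4) A) + ind (FF a x (3 * a + a / 2) A))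
      (fun B => d2_pv_le ha ha1 x A (B ∩ Dg x (3 * a)) inter_subset_right) k).trans ?_
  refine add_le_add ?_ ?_
  · refine PoiT_restrict_mono mu hD k ?_
    intro B _ hB
    rw [inter_eq_left.mpr hB]
  · rw [Measure.restrict_apply_univ, mul_comm]

private theorem d2_J_meas {d : ℕ} (mu : Measure (Sph d)) [IsFiniteMeasure mu] (r : ℝ)
    {h : Sph d → ℝ≥0∞} (hh : Measurable h) :
    Measurable fun x : Sph d => ∫⁻ t in Dg x r, h t ∂mu := by
  have hS : MeasurableSet {p : Sph d × Sph d | nrm p.1 p.2 < r} :=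
    (isOpen_Iio.preimage continuous_nrm).measurableSet
  have h1 : Measurable ({p : Sph d × Sph d | nrm p.1 p.2 < r}.indicator fun p => h p.2) :=
    (hh.comp measurable_snd).indicator hS
  have h2 := h1.lintegral_prod_right' (ν := mu)
  have e : (fun x : Sph d => ∫⁻ t in Dg x r, h t ∂mu) = fun x => ∫⁻ t,
      ({p : Sph d × Sph d | nrm p.1 p.2 < r}.indicator fun p => h p.2) (x, t) ∂mu := by
    funext x
    rw [← lintegral_indicator (measurableSet_Dg x r)]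
    rfl
  rw [e]
  exact h2

private theorem d2_J_int {d : ℕ} {a : ℝ} (mu : Measure (Sph d)) [IsFiniteMeasure mu]
    {mm : ℝ≥0∞} (hhi : ∀ p : Sph d, mu (Metric.ball p (4 * a)) ≤ mm)
    {h : Sph d → ℝ≥0∞} (hh : Measurable h) :
    ∫⁻ x, ∫⁻ t in Dg x (4 * a), h t ∂mu ∂mu ≤ 2 * mm * ∫⁻ t, h t ∂mu := by
  have hS : MeasurableSet {p : Sph d × Sph d | nrm p.1 p.2 < 4 * a} :=
    (isOpen_Iio.preimage continuous_nrm).measurableSet
  have h1 : Measurable ({p : Sph d × Sph d | nrm p.1 p.2 < 4 * a}.indicator fun p => h p.2) :=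
    (hh.comp measurable_snd).indicator hS
  have e : ∫⁻ x, ∫⁻ t in Dg x (4 * a), h t ∂mu ∂mu = ∫⁻ x, ∫⁻ t,
      ({p : Sph d × Sph d | nrm p.1 p.2 < 4 * a}.indicator fun p => h p.2) (x, t) ∂mu ∂mu := by
    apply lintegral_congr
    intro x
    rw [← lintegral_indicator (measurableSet_Dg x (4 * a))]
    rfl
  have hsw : ∫⁻ x, ∫⁻ t,
      ({p : Sph d × Sph d | nrm p.1 p.2 < 4 * a}.indicator fun p => h p.2) (x, t) ∂mu ∂mu =
      ∫⁻ t, ∫⁻ x,
      ({p : Sph d × Sph d | nrm p.1 p.2 < 4 * a}.indicator fun p => h p.2) (x, t) ∂mu ∂mu :=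
    lintegral_lintegral_swap (f := fun x t =>
      ({p : Sph d × Sph d | nrm p.1 p.2 < 4 * a}.indicator fun p => h p.2) (x, t)) h1.aemeasurable
  rw [e, hsw, ← lintegral_const_mul _ hh]
  apply lintegral_mono
  intro t
  change ∫⁻ x, ({p : Sph d × Sph d | nrm p.1 p.2 < 4 * a}.indicator fun p => h p.2) (x, t) ∂mu ≤
    2 * mm * h t
  have e2 : ∀ x : Sph d,
      ({p : Sph d × Sph d | nrm p.1 p.2 < 4 * a}.indicator fun p => h p.2) (x, t) =
      (Dg t (4 * a)).indicator (fun _ => h t) x := by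
    intro x
    by_cases hx : nrm x t < 4 * a
    · have hx' : x ∈ Dg t (4 * a) := by
        change nrm t x < 4 * a
        rw [nrm_symm]; exact hx
      rw [indicator_of_mem (show ((x, t) : Sph d × Sph d) ∈ {p : Sph d × Sph d | nrm p.1 p.2 < 4 * a}
        from hx), indicator_of_mem hx']
    · have hx' : x ∉ Dg t (4 * a) := by
        intro h3
        apply hx
        rw [nrm_symm]
        exact h3
      rw [indicator_of_notMem (show ((x, t) : Sph d × Sph d) ∉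
        {p : Sph d × Sph d | nrm p.1 p.2 < 4 * a} from hx), indicator_of_notMem hx']
  rw [lintegral_congr e2, lintegral_indicator (measurableSet_Dg t (4 * a)), setLIntegral_const,
    mul_comm]
  exact mul_le_mul' (d2_Dg_le mu le_rfl hhi) le_rfl

private theorem d2_absorb {T U : ℝ≥0∞} (hT : T ≠ ∞) (h : T ≤ U + T / 2) : T ≤ 2 * U := by
  have h2 : T / 2 ≠ ∞ := ENNReal.div_ne_top hT (by simp)
  have h1 : T / 2 + T / 2 ≤ U + T / 2 := by rwa [ENNReal.add_halves]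
  have h3 : T / 2 ≤ U := (ENNReal.add_le_add_iff_right h2).mp h1
  calc T = T / 2 + T / 2 := (ENNReal.add_halves T).symm
    _ ≤ U + U := add_le_add h3 h3
    _ = 2 * U := (two_mul U).symm

/-- Lemma D. Write `T = ∫ Poi mu (pv (Bad a) x) dmu(x)` (`T ≤ mu univ < ∞`), `D = Dg x (3a)`.
By `Poi_split`, `Poi mu (pv (Bad a) x) = Poi (mu|Dᶜ) (A ↦ Poi (mu|D) (B ↦ pv (Bad a) x (A ∪ B)))`.
For finite `A` and `B ⊆ D`, `piv_FF` and `FF_local` give
`pv (Bad a) x (A ∪ B) ≤ G A := ∑_{i=0,1,2} ind (FF a x (3a + i a/4) A)`: indeed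
`(A ∪ B) \ Dg x r = A \ Dg x r` for `r ≥ 3a`. Hence by `Poi_le_trunc` (for the function
`B ↦ pv (Bad a) x (A ∪ (B ∩ D))`, or with `Poi_restrict_mono` before and after) the inner value is
at most `PoiT (mu|D) k (..) + G A * tail (mu D) k`. Apply `Poi (mu|Dᶜ)`; `Poi_local` (note
`Poi (mu|Dᶜ) (ind (FF a x r ·)) = Poi mu (ind (FF a x r ·))` because `FF a x r` does not see `D`),
and `lemmaC` with constant `C₁`: with `r_i = 3a + i a/4`,
`Poi mu (pv (Bad a) x) ≤ UU a mu k x + tail (2mm) k * C₁ * ∑_i ∫_{t ∈ Dg x r_i} Poi mu (pv (Bad a) t) dmu`.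
Integrate over `x` (`lintegral_add_right`, the second term is measurable in `x`), Tonelli and
`nrm_symm`: `∫∫ 1[t ∈ Dg x r_i] .. = ∫ mu (Dg t r_i) .. dmu(t) ≤ 2 mm T` (`Dg_subset`, `r_i ≤ 4a`).
Choose `k` with `tail m' k * C₁ * 3 * 2 mm ≤ 1/2` for all `m' ≤ 2 mm` (`exists_tail_le`), and
absorb: `T ≤ ∫ UU + T/2`, `T < ∞`. -/
theorem lemmaD (cs mm : ℝ≥0∞) (hcs : cs ≠ 0) (hmm : mm ≠ ∞) : ∃ k₀ : ℕ,
    ∀ (d : ℕ) (a : ℝ) (mu : Measure (Sph d)) [IsFiniteMeasure mu],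
      0 < a → 400 * a ≤ 1 →
      (∀ p : Sph d, cs ≤ mu (Metric.ball p (a / 32))) →
      (∀ p : Sph d, mu (Metric.ball p (4 * a)) ≤ mm) →
      ∫⁻ x, Poi mu (pv (Bad a) x) ∂mu ≤ 2 * ∫⁻ x, UU a mu k₀ x ∂mu := by
  obtain ⟨C₁, hC₁, hC⟩ := lemmaC cs mm hcs hmm
  have h2mm : 2 * mm ≠ ∞ := ENNReal.mul_ne_top (by simp) hmm
  set Q : ℝ≥0∞ := 3 * C₁ * (2 * mm) with hQ
  have hQt : Q ≠ ∞ := ENNReal.mul_ne_top (ENNReal.mul_ne_top (by simp) hC₁) h2mm
  have hQ1 : Q + 1 ≠ ∞ := by simp [hQt]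
  have hQ0 : Q + 1 ≠ 0 := by simp
  have he : (1 / 2 : ℝ≥0∞) / (Q + 1) ≠ 0 := by
    rw [Ne, ENNReal.div_eq_zero_iff, not_or]
    exact ⟨by simp, hQ1⟩
  obtain ⟨k₀, hk₀⟩ := exists_tail_le (2 * mm) h2mm he
  refine ⟨k₀, ?_⟩
  intro d a mu _ ha ha1 hlo hhi
  set h : Sph d → ℝ≥0∞ := fun t => Poi mu (pv (Bad a) t) with hh
  have hhm : Measurable h := MS1_measurable_Poi mu (MS1_pv (MS_Bad a))
  set T : ℝ≥0∞ := ∫⁻ x, h x ∂mu with hT
  have hh1 : ∀ t, h t ≤ 1 := fun t => Poi_le_one mu fun A => d2_ind_le_one _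
  have hTt : T ≠ ∞ := by
    have h1 : T ≤ ∫⁻ _, 1 ∂mu := lintegral_mono hh1
    rw [lintegral_one] at h1
    exact ne_top_of_le_ne_top (measure_ne_top mu univ) h1
  have hpt : ∀ x, h x ≤ UU a mu k₀ x +
      (1 / 2 : ℝ≥0∞) / (Q + 1) * (3 * C₁ * ∫⁻ t in Dg x (4 * a), h t ∂mu) := by
    intro x
    refine (d2_point ha ha1 mu x k₀).trans (add_le_add le_rfl ?_)
    refine mul_le_mul' (hk₀ _ (d2_Dg_le mu (by linarith) hhi)) ?_
    have hJ : ∀ r : ℝ, a ≤ r → r ≤ 7 / 2 * a → Poi mu (fun A => ind (FF a x r A)) ≤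
        C₁ * ∫⁻ t in Dg x (4 * a), h t ∂mu := by
      intro r hr hr1
      refine (hC d a mu x r ha ha1 hr hr1 hlo hhi).trans (mul_le_mul' le_rfl ?_)
      exact lintegral_mono_set (Dg_mono x (by linarith))
    calc Poi mu (fun A => ind (FF a x (3 * a) A)) + Poi mu (fun A => ind (FF a x (3 * a + a / 4) A)) +
        Poi mu (fun A => ind (FF a x (3 * a + a / 2) A))
        ≤ C₁ * ∫⁻ t in Dg x (4 * a), h t ∂mu + C₁ * ∫⁻ t in Dg x (4 * a), h t ∂mu +
          C₁ * ∫⁻ t in Dg x (4 * a), h t ∂mu :=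
          add_le_add (add_le_add (hJ _ (by linarith) (by linarith)) (hJ _ (by linarith)
            (by linarith))) (hJ _ (by linarith) (by linarith))
      _ = 3 * C₁ * ∫⁻ t in Dg x (4 * a), h t ∂mu := by ring
  apply d2_absorb hTt
  calc T ≤ ∫⁻ x, (UU a mu k₀ x +
        (1 / 2 : ℝ≥0∞) / (Q + 1) * (3 * C₁ * ∫⁻ t in Dg x (4 * a), h t ∂mu)) ∂mu :=
        lintegral_mono hpt
    _ = ∫⁻ x, UU a mu k₀ x ∂mu + ∫⁻ x,
        (1 / 2 : ℝ≥0∞) / (Q + 1) * (3 * C₁ * ∫⁻ t in Dg x (4 * a), h t ∂mu) ∂mu :=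
        lintegral_add_right _ (((d2_J_meas mu (4 * a) hhm).const_mul _).const_mul _)
    _ ≤ ∫⁻ x, UU a mu k₀ x ∂mu + T / 2 := by
        refine add_le_add le_rfl ?_
        rw [lintegral_const_mul _ ((d2_J_meas mu (4 * a) hhm).const_mul _),
          lintegral_const_mul _ (d2_J_meas mu (4 * a) hhm)]
        calc (1 / 2 : ℝ≥0∞) / (Q + 1) * (3 * C₁ * ∫⁻ x, ∫⁻ t in Dg x (4 * a), h t ∂mu ∂mu)
            ≤ (1 / 2 : ℝ≥0∞) / (Q + 1) * (3 * C₁ * (2 * mm * T)) :=
              mul_le_mul' le_rfl (mul_le_mul' le_rfl (d2_J_int mu hhi hhm))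
          _ = (1 / 2 : ℝ≥0∞) / (Q + 1) * Q * T := by rw [hQ]; ring
          _ ≤ (1 / 2 : ℝ≥0∞) / (Q + 1) * (Q + 1) * T :=
              mul_le_mul' (mul_le_mul' le_rfl le_self_add) le_rfl
          _ = (1 / 2 : ℝ≥0∞) * T := by rw [ENNReal.div_mul_cancel hQ0 hQ1]
          _ = T / 2 := by rw [one_div, ENNReal.div_eq_inv_mul]

end Pool.Agent.Helper97.BG
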