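import Pool.Agent.Helper97.BG.Defs
import Pool.Agent.Helper97.BG.St.P2
import Pool.Agent.Helper97.BG.St.P4
import Pool.Agent.Helper97.BG.St.P5
import Pool.Agent.Helper97.BG.St.P6

/-!
Project BG (MP_8410f8_pr), piece P11.
-/

open MeasureTheory Set
open scoped ENNReal

namespace Pool.Agent.Helper97.BG

variable {S : Type*} [MeasurableSpace S]

/-- Change of measure inside `D`. For each `A` the inner truncated value is at most
`4^k * e^{nu(D)} * Poi (nu.restrict D) (B ↦ f (A ∪ B))` (`PoiT_le_of_le` with `C = 4`; for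
finite `A` the function is `MS` by `MS_union_left`); outside `D`
the measures agree, and `Poi_split` for `nu`. Use `Poi_const_mul`. -/
theorem Poi_change (mu nu : Measure S) [IsFiniteMeasure mu] [IsFiniteMeasure nu] {D : Set S}
    (hD : MeasurableSet D) (h1 : mu.restrict Dᶜ = nu.restrict Dᶜ)
    (h2 : mu.restrict D ≤ (4 : ℝ≥0∞) • nu.restrict D) {f : Set S → ℝ≥0∞} (hf : MS f) (k : ℕ) :
    (Poi (mu.restrict Dᶜ) fun A => PoiT (mu.restrict D) k fun B => f (A ∪ B)) ≤
      4 ^ k * ENNReal.ofReal (Real.exp (nu D).toReal) * Poi nu f := by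
  rw [Poi_split nu hD hf, ← h1,
    ← Poi_const_mul (mu.restrict Dᶜ) (MS_union_Poi (nu.restrict D) hf)
      (4 ^ k * ENNReal.ofReal (Real.exp (nu D).toReal))]
  refine Poi_mono _ fun A hA => ?_
  have h := PoiT_le_of_le (mu.restrict D) (nu.restrict D) 4 (by norm_num) (by norm_num) h2
    (MS_union_left hf hA) k
  rw [Measure.restrict_apply_univ] at h
  exact h

end Pool.Agent.Helper97.BG
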