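import Pool.Agent.Helper97.BG.Defs
import Pool.Agent.Helper97.BG.St.G1

/-!
Project BG (MP_8410f8_pr), piece W1.
-/

open MeasureTheory Set
open scoped ENNReal

namespace Pool.Agent.Helper97.BG

variable {d : ℕ}

/-- A union of open balls. -/
theorem isOpen_Wset (a : ℝ) (m : Set (Sph d)) : IsOpen (Wset a m) := by
  have h : Wset a m = ⋃ h ∈ {h ∈ m | ∀ h' ∈ m, 5 / 4 * a ≤ ‖(h : V d) + h'‖},
      {y : Sph d | ‖(y : V d) - h‖ < a / 8} := by
    ext y
    simp only [Wset, Set.mem_ofPred_eq, Set.mem_iUnion, exists_prop]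
    constructor
    · rintro ⟨h, h1, h2, h3⟩
      exact ⟨h, ⟨h1, h2⟩, h3⟩
    · rintro ⟨h, ⟨h1, h2⟩, h3⟩
      exact ⟨h, h1, h2, h3⟩
  rw [h]
  refine isOpen_biUnion fun h _ => ?_
  exact isOpen_lt (by fun_prop) continuous_const

theorem measurableSet_Wset (a : ℝ) (m : Set (Sph d)) : MeasurableSet (Wset a m) :=
  (isOpen_Wset a m).measurableSet

/-- `‖u + v‖ ≥ ‖h + h'‖ - ‖u - h‖ - ‖v - h'‖ ≥ 5a/4 - a/8 - a/8`. -/
theorem Wset_indep {a : ℝ} {m : Set (Sph d)} {u v : Sph d} (hu : u ∈ Wset a m)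
    (hv : v ∈ Wset a m) : a ≤ ‖(u : V d) + v‖ := by
  obtain ⟨h, hm, hs, h1⟩ := hu
  obtain ⟨h', hm', _, h2⟩ := hv
  have h3 := hs h' hm'
  have h4 : (h : V d) + h' = ((u : V d) + v) - (((u : V d) - h) + ((v : V d) - h')) := by
    abel
  have h5 : ‖(h : V d) + h'‖ ≤ ‖(u : V d) + v‖ + (‖(u : V d) - h‖ + ‖(v : V d) - h'‖) := by
    calc ‖(h : V d) + h'‖ = ‖((u : V d) + v) - (((u : V d) - h) + ((v : V d) - h'))‖ := by
          rw [← h4]
      _ ≤ ‖(u : V d) + v‖ + ‖((u : V d) - h) + ((v : V d) - h')‖ := norm_sub_le _ _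
      _ ≤ _ := by
          have := norm_add_le ((u : V d) - h) ((v : V d) - h')
          linarith
  linarith

open Classical in
/-- The local modification. Let `h0 ∈ H` with `‖x - h0‖ < a/8`, `N0 = {h ∈ H | ‖h + h0‖ < 5a/4}`
(`h0 ∉ N0` as `‖2 h0‖ = 2`), `Φ m = (m ∪ {h0}) \ N0`. Then `h0` is selected in `Φ m`, so
`x ∈ Wset a (Φ m)`. If `y` is outside `Dg x (3a)` and `‖y - h‖ < a/8` with `h` selected in one of
`m`, `Φ m` and not in the other, then `h = h0`, or `h ∈ N0`, or some `h' ∈ N0` has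
`‖h + h'‖ < 5a/4` (then `‖h - h0‖ < 5a/2`): in all cases `nrm x y ≤ a/8 + 5a/2 + a/8 < 3a`.
`m` is determined by `Φ m` and `m ∩ (N0 ∪ {h0})`: at most `2^(J+1)` preimages. -/
theorem exists_modify {a : ℝ} (ha : 0 < a) (ha1 : a ≤ 1) (H : Finset (Sph d)) (x : Sph d)
    (hx : ∃ h ∈ H, ‖(x : V d) - h‖ < a / 8) (J : ℕ)
    (hJ : ∀ y : Sph d, (H.filter fun h => ‖(h : V d) + y‖ < 5 / 4 * a).card ≤ J) :
    ∃ Φ : Finset (Sph d) → Finset (Sph d),
      (∀ m ∈ H.powerset, Φ m ∈ H.powerset) ∧
      (∀ m ∈ H.powerset, x ∈ Wset a (Φ m : Set (Sph d))) ∧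
      (∀ m ∈ H.powerset, ∀ y, y ∉ Dg x (3 * a) →
        (y ∈ Wset a (m : Set (Sph d)) ↔ y ∈ Wset a (Φ m : Set (Sph d)))) ∧
      ∀ m' ∈ H.powerset, (H.powerset.filter fun m => Φ m = m').card ≤ 2 ^ (J + 1) := by
  obtain ⟨h0, hh0, hxh⟩ := hx
  set N0 : Finset (Sph d) := H.filter fun h => ‖(h : V d) + h0‖ < 5 / 4 * a with hN0
  have hN0c : N0.card ≤ J := by
    refine le_trans ?_ (hJ h0)
    refine Finset.card_le_card_of_injOn (fun h => (h : V d)) ?_
      (Subtype.val_injective.injOn)
    intro h hh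
    rw [Finset.mem_coe, hN0, Finset.mem_filter] at hh
    rw [Finset.mem_coe, Finset.mem_filter]
    refine ⟨?_, hh.2⟩
    simp only [Finset.bind_def, Finset.mem_sup, Finset.pure_def, Finset.mem_singleton]
    exact ⟨h, hh.1, rfl⟩
  have hself : h0 ∉ N0 := by
    rw [hN0, Finset.mem_filter]
    rintro ⟨_, h1⟩
    have h2 : (h0 : V d) + h0 = (2 : ℝ) • (h0 : V d) := (two_smul ℝ _).symm
    have h3 : ‖(h0 : V d)‖ = 1 := by
      have := h0.2
      rwa [mem_sphere_zero_iff_norm] at this
    rw [h2, norm_smul, h3] at h1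
    norm_num at h1
    linarith
  have hfar : ∀ h ∈ H, h ∉ N0 → 5 / 4 * a ≤ ‖(h : V d) + h0‖ := by
    intro h hH hN
    by_contra hcon
    apply hN
    rw [hN0, Finset.mem_filter]
    exact ⟨hH, not_le.1 hcon⟩
  have hnear : ∀ h ∈ N0, ‖(h : V d) + h0‖ < 5 / 4 * a := by
    intro h hN
    rw [hN0, Finset.mem_filter] at hN
    exact hN.2
  refine ⟨fun m => (insert h0 m) \ N0, ?_, ?_, ?_, ?_⟩
  · intro m hm
    rw [Finset.mem_powerset] at hm ⊢
    intro h hh
    rw [Finset.mem_sdiff, Finset.mem_insert] at hh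
    rcases hh.1 with rfl | h1
    · exact hh0
    · exact hm h1
  · intro m hm
    rw [Finset.mem_powerset] at hm
    refine ⟨h0, ?_, ?_, hxh⟩
    · rw [Finset.mem_coe, Finset.mem_sdiff, Finset.mem_insert]
      exact ⟨Or.inl rfl, hself⟩
    · intro h' hh'
      rw [Finset.mem_coe, Finset.mem_sdiff, Finset.mem_insert] at hh'
      have hH : h' ∈ H := by
        rcases hh'.1 with rfl | h1
        · exact hh0
        · exact hm h1
      have e : (h0 : V d) + h' = (h' : V d) + h0 := add_comm _ _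
      rw [e]
      exact hfar h' hH hh'.2
  · intro m hm y hy
    rw [Finset.mem_powerset] at hm
    have hy1 : 3 * a ≤ ‖(y : V d) - x‖ := by
      by_contra hcon
      apply hy
      exact (min_le_left _ _).trans_lt (not_le.1 hcon)
    have hy2 : 3 * a ≤ ‖(y : V d) + x‖ := by
      by_contra hcon
      apply hy
      exact (min_le_right _ _).trans_lt (not_le.1 hcon)
    have hxh' : ‖(h0 : V d) - x‖ < a / 8 := by
      rw [norm_sub_rev]
      exact hxh
    constructor
    · rintro ⟨h, h1, h2, h3⟩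
      have h1' : h ∈ m := h1
      have hN : h ∉ N0 := by
        intro hN
        have h4 := hnear h hN
        have e : (y : V d) + x = ((y : V d) - h) + ((h : V d) + h0) + ((x : V d) - h0) := by abel
        have h5 : ‖(y : V d) + x‖ ≤ ‖(y : V d) - h‖ + ‖(h : V d) + h0‖ + ‖(x : V d) - h0‖ := by
          rw [e]
          exact norm_add₃_le
        linarith
      refine ⟨h, ?_, ?_, h3⟩
      · rw [Finset.mem_coe, Finset.mem_sdiff, Finset.mem_insert]
        exact ⟨Or.inr h1', hN⟩
      · intro h' hh'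
        rw [Finset.mem_coe, Finset.mem_sdiff, Finset.mem_insert] at hh'
        rcases hh'.1 with rfl | h4
        · exact hfar h (hm h1') hN
        · exact h2 h' h4
    · rintro ⟨h, h1, h2, h3⟩
      rw [Finset.mem_coe, Finset.mem_sdiff, Finset.mem_insert] at h1
      have hm1 : h ∈ m := by
        rcases h1.1 with rfl | h4
        · exfalso
          have e : (y : V d) - x = ((y : V d) - h) + ((h : V d) - x) := by abel
          have h5 : ‖(y : V d) - x‖ ≤ ‖(y : V d) - h‖ + ‖(h : V d) - x‖ := by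
            rw [e]
            exact norm_add_le _ _
          linarith
        · exact h4
      refine ⟨h, hm1, ?_, h3⟩
      intro h' hh'
      have hh'' : h' ∈ m := hh'
      by_cases hN : h' ∈ N0
      · by_contra hcon
        have h4 := hnear h' hN
        have h5 := not_le.1 hcon
        have e : (y : V d) - x = ((y : V d) - h) + (((h : V d) + h') - ((h' : V d) + h0)) +
            ((h0 : V d) - x) := by abel
        have h6 : ‖(y : V d) - x‖ ≤ ‖(y : V d) - h‖ + ‖((h : V d) + h') - ((h' : V d) + h0)‖ +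
            ‖(h0 : V d) - x‖ := by
          rw [e]
          exact norm_add₃_le
        have h7 : ‖((h : V d) + h') - ((h' : V d) + h0)‖ ≤
            ‖(h : V d) + h'‖ + ‖(h' : V d) + h0‖ := norm_sub_le _ _
        linarith
      · apply h2
        rw [Finset.mem_coe, Finset.mem_sdiff, Finset.mem_insert]
        exact ⟨Or.inr hh'', hN⟩
  · intro m' _
    calc (H.powerset.filter fun m => (insert h0 m) \ N0 = m').card
        ≤ (insert h0 N0).powerset.card := by
          refine Finset.card_le_card_of_injOn (fun m => m ∩ insert h0 N0) ?_ ?_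
          · intro m _
            rw [Finset.mem_coe, Finset.mem_powerset]
            exact Finset.inter_subset_right
          · have key : ∀ m₁ m₂ : Finset (Sph d), (insert h0 m₁) \ N0 = (insert h0 m₂) \ N0 →
                m₁ ∩ insert h0 N0 = m₂ ∩ insert h0 N0 → m₁ ⊆ m₂ := by
              intro m₁ m₂ e1 e2 h hh
              by_cases hN : h ∈ insert h0 N0
              · have : h ∈ m₁ ∩ insert h0 N0 := Finset.mem_inter.2 ⟨hh, hN⟩
                rw [e2] at this
                exact (Finset.mem_inter.1 this).1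
              · rw [Finset.mem_insert, not_or] at hN
                have : h ∈ (insert h0 m₁) \ N0 :=
                  Finset.mem_sdiff.2 ⟨Finset.mem_insert_of_mem hh, hN.2⟩
                rw [e1, Finset.mem_sdiff, Finset.mem_insert] at this
                exact this.1.resolve_left hN.1
            intro m₁ h1 m₂ h2 e2
            rw [Finset.mem_coe, Finset.mem_filter] at h1 h2
            have e1 : (insert h0 m₁) \ N0 = (insert h0 m₂) \ N0 := h1.2.trans h2.2.symm
            exact Finset.Subset.antisymm (key m₁ m₂ e1 e2) (key m₂ m₁ e1.symm e2.symm)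
      _ = 2 ^ (insert h0 N0).card := Finset.card_powerset _
      _ ≤ 2 ^ (J + 1) := by
          refine Nat.pow_le_pow_right (by norm_num) ?_
          exact (Finset.card_insert_le _ _).trans (Nat.add_le_add_right hN0c 1)

end Pool.Agent.Helper97.BG
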