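import Pool.Agent.Helper97.BG.Defs
import Pool.Agent.Helper97.BG.St.P2
import Pool.Agent.Helper97.BG.St.P11
import Pool.Agent.Helper97.BG.St.G1
import Pool.Agent.Helper97.BG.St.M1
import Pool.Agent.Helper97.BG.St.W1
import Pool.Agent.Helper97.BG.St.V1

/-!
Project BG (MP_8410f8_pr), piece D3.
-/

open MeasureTheory Set
open scoped ENNReal

namespace Pool.Agent.Helper97.BG

variable {d : ℕ}

/-- `muW W al be` is finite. -/
theorem muW_finite (W : Set (Sph d)) {al be : ℝ≥0∞} (hal : al ≠ ∞) (hbe : be ≠ ∞) :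
    IsFiniteMeasure (muW W al be) := by
  refine ⟨?_⟩
  unfold muW
  rw [Measure.add_apply, Measure.smul_apply, Measure.smul_apply, smul_eq_mul, smul_eq_mul]
  exact ENNReal.add_lt_top.2 ⟨ENNReal.mul_lt_top hal.lt_top (measure_lt_top _ _),
    ENNReal.mul_lt_top hbe.lt_top (measure_lt_top _ _)⟩

private lemma d3_split {W : Set (Sph d)} (hW : MeasurableSet W) (c : ℝ≥0∞) :
    c • sig d = c • (sig d).restrict Wᶜ + c • (sig d).restrict W := by
  rw [← smul_add, Measure.restrict_compl_add_restrict hW]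

/-- If `be ≤ al` then `be • sig ≤ muW W al be ≤ al • sig`. -/
theorem le_muW {W : Set (Sph d)} (hW : MeasurableSet W) {al be : ℝ≥0∞} (h : be ≤ al) :
    be • sig d ≤ muW W al be := by
  rw [d3_split hW be]
  unfold muW
  intro s
  simp only [Measure.add_apply, Measure.smul_apply, smul_eq_mul]
  gcongr

theorem muW_le {W : Set (Sph d)} (hW : MeasurableSet W) {al be : ℝ≥0∞} (h : be ≤ al) :
    muW W al be ≤ al • sig d := by
  rw [d3_split hW al]
  unfold muW
  intro s
  simp only [Measure.add_apply, Measure.smul_apply, smul_eq_mul]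
  gcongr

private lemma d3_restrict {W W' D : Set (Sph d)} (hW : MeasurableSet W)
    (hW' : MeasurableSet W') (hDm : MeasurableSet D) (hD : ∀ y, y ∉ D → (y ∈ W ↔ y ∈ W'))
    (al be : ℝ≥0∞) : (muW W al be).restrict Dᶜ = (muW W' al be).restrict Dᶜ := by
  unfold muW
  rw [Measure.restrict_add, Measure.restrict_add, Measure.restrict_smul, Measure.restrict_smul,
    Measure.restrict_smul, Measure.restrict_smul, Measure.restrict_restrict hDm.compl,
    Measure.restrict_restrict hDm.compl, Measure.restrict_restrict hDm.compl,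
    Measure.restrict_restrict hDm.compl]
  have e1 : Dᶜ ∩ W = Dᶜ ∩ W' := by
    ext y
    simp only [mem_inter_iff, mem_compl_iff]
    exact and_congr_right fun hy => hD y hy
  have e2 : Dᶜ ∩ Wᶜ = Dᶜ ∩ W'ᶜ := by
    ext y
    simp only [mem_inter_iff, mem_compl_iff]
    exact and_congr_right fun hy => not_congr (hD y hy)
  rw [e1, e2]

/-- Lemma E: `Poi_change` with `D = Dg x (3a)`, `mu = muW W al be`, `nu = muW W' al be`,
`f = pv (Bad a) x`. Outside `D` the measures agree; `mu ≤ al • sig`, `be • sig ≤ nu`,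
`al ≤ 2 lam ≤ 4 be`; `nu D ≤ al * sig D ≤ 2 mm` (`Dg_subset`, `3a ≤ 4a`). -/
theorem lemmaE {a : ℝ} (ha : 0 < a) {W W' : Set (Sph d)} (hW : MeasurableSet W)
    (hW' : MeasurableSet W') (x : Sph d) (hD : ∀ y, y ∉ Dg x (3 * a) → (y ∈ W ↔ y ∈ W'))
    {al be lam mm : ℝ≥0∞} (h1 : lam ≤ 2 * be) (h2 : be ≤ al) (h3 : al ≤ 2 * lam)
    (hlam : lam ≠ ∞) (hmm' : mm ≠ ∞)
    (hmm : ∀ p : Sph d, 2 * lam * sig d (Metric.ball p (4 * a)) ≤ mm) (k : ℕ) :
    UU a (muW W al be) k x ≤
      4 ^ k * ENNReal.ofReal (Real.exp (2 * mm).toReal) * Poi (muW W' al be) (pv (Bad a) x) := by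
  have h2lam : 2 * lam ≠ ∞ := ENNReal.mul_ne_top (by norm_num) hlam
  have hal : al ≠ ∞ := ne_top_of_le_ne_top h2lam h3
  have hbe : be ≠ ∞ := ne_top_of_le_ne_top hal h2
  have i1 := muW_finite W hal hbe
  have i2 := muW_finite W' hal hbe
  have hDm : MeasurableSet (Dg x (3 * a)) := measurableSet_Dg x (3 * a)
  have hal4 : al ≤ 4 * be := by
    calc al ≤ 2 * lam := h3
      _ ≤ 2 * (2 * be) := by gcongr
      _ = 4 * be := by rw [← mul_assoc]; norm_num
  have hle : (muW W al be).restrict (Dg x (3 * a)) ≤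
      (4 : ℝ≥0∞) • (muW W' al be).restrict (Dg x (3 * a)) := by
    have e1 : muW W al be ≤ (4 : ℝ≥0∞) • muW W' al be := by
      intro s
      have t1 := muW_le hW h2 s
      have t2 := le_muW hW' h2 s
      simp only [Measure.smul_apply, smul_eq_mul] at t1 t2 ⊢
      calc muW W al be s ≤ al * sig d s := t1
        _ ≤ 4 * be * sig d s := by gcongr
        _ = 4 * (be * sig d s) := mul_assoc _ _ _
        _ ≤ 4 * muW W' al be s := by gcongr
    rw [← Measure.restrict_smul]
    exact Measure.restrict_mono le_rfl e1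
  have hf : MS (pv (Bad (d := d) a) x) := MS1_at (MS1_pv (MS_Bad a)) x
  have key := Poi_change (muW W al be) (muW W' al be) hDm (d3_restrict hW hW' hDm hD al be)
    hle hf k
  have hnu : muW W' al be (Dg x (3 * a)) ≤ 2 * mm := by
    have t1 := muW_le hW' h2 (Dg x (3 * a))
    simp only [Measure.smul_apply, smul_eq_mul] at t1
    have t2 : sig d (Dg x (3 * a)) ≤
        sig d (Metric.ball x (4 * a)) + sig d (Metric.ball (-x) (4 * a)) := by
      refine (measure_mono ?_).trans (measure_union_le _ _)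
      refine (Dg_subset x (3 * a)).trans (union_subset_union ?_ ?_)
      · exact Metric.ball_subset_ball (by linarith)
      · exact Metric.ball_subset_ball (by linarith)
    calc muW W' al be (Dg x (3 * a)) ≤ al * sig d (Dg x (3 * a)) := t1
      _ ≤ 2 * lam * (sig d (Metric.ball x (4 * a)) + sig d (Metric.ball (-x) (4 * a))) := by
        gcongr
      _ = 2 * lam * sig d (Metric.ball x (4 * a)) +
          2 * lam * sig d (Metric.ball (-x) (4 * a)) := mul_add _ _ _
      _ ≤ mm + mm := add_le_add (hmm x) (hmm (-x))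
      _ = 2 * mm := (two_mul mm).symm
  have h2mm : 2 * mm ≠ ∞ := ENNReal.mul_ne_top (by norm_num) hmm'
  have hexp : ENNReal.ofReal (Real.exp (muW W' al be (Dg x (3 * a))).toReal) ≤
      ENNReal.ofReal (Real.exp (2 * mm).toReal) := by
    apply ENNReal.ofReal_le_ofReal
    apply Real.exp_le_exp.2
    exact ENNReal.toReal_mono h2mm hnu
  unfold UU
  refine key.trans ?_
  gcongr

end Pool.Agent.Helper97.BG
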