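import Pool.Agent.Helper97.BG.Defs
import Pool.Agent.Helper97.BG.St.P2
import Pool.Agent.Helper97.BG.St.G5
import Pool.Agent.Helper97.BG.St.W1
import Pool.Agent.Helper97.BG.St.D2
import Pool.Agent.Helper97.BG.St.D3

/-!
Project BG (MP_8410f8_pr), piece D4.
-/

open MeasureTheory Set
open scoped ENNReal

namespace Pool.Agent.Helper97.BG

/-- superadditivity of the upper integral -/
private lemma d4_sum {α ι : Type*} [MeasurableSpace α] (mu : Measure α) (s : Finset ι)
    (f : ι → α → ℝ≥0∞) :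
    ∑ i ∈ s, ∫⁻ x, f i x ∂mu ≤ ∫⁻ x, ∑ i ∈ s, f i x ∂mu := by
  classical
  induction s using Finset.induction_on with
  | empty => simp
  | insert a s ha ih =>
    rw [Finset.sum_insert ha]
    calc ∫⁻ x, f a x ∂mu + ∑ i ∈ s, ∫⁻ x, f i x ∂mu
        ≤ ∫⁻ x, f a x ∂mu + ∫⁻ x, ∑ i ∈ s, f i x ∂mu := by gcongr
      _ ≤ ∫⁻ x, (f a x + ∑ i ∈ s, f i x) ∂mu := le_lintegral_add _ _
      _ = ∫⁻ x, ∑ i ∈ insert a s, f i x ∂mu := by
        refine lintegral_congr fun x => ?_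
        rw [Finset.sum_insert ha]

/-- grouping -/
private lemma d4_group {α : Type*} [DecidableEq α] (P : Finset α) (Φ : α → α) (g u : α → ℝ≥0∞)
    (c : ℝ≥0∞) (h1 : ∀ m ∈ P, Φ m ∈ P) (h2 : ∀ m ∈ P, u (Φ m) = 1)
    (h3 : ∀ m' ∈ P, ((P.filter fun m => Φ m = m').card : ℝ≥0∞) ≤ c) :
    ∑ m ∈ P, g (Φ m) ≤ c * ∑ m' ∈ P, u m' * g m' := by
  rw [← Finset.sum_fiberwise_of_maps_to h1, Finset.mul_sum]
  refine Finset.sum_le_sum fun m' hm' => ?_
  rcases (P.filter fun m => Φ m = m').eq_empty_or_nonempty with he | ⟨m, hm⟩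
  · rw [he]; simp
  · have hm1 := Finset.mem_filter.1 hm
    have hu : u m' = 1 := by rw [← hm1.2]; exact h2 m hm1.1
    rw [Finset.sum_congr rfl (g := fun _ => g m')
      (fun q hq => by rw [(Finset.mem_filter.1 hq).2]), Finset.sum_const, hu, one_mul,
      nsmul_eq_mul]
    exact mul_le_mul_left (h3 m' hm') _

/-- (DI). Let `k₀` be from `lemmaD cs mm`, `J = ⌊(mm/cs).toReal⌋₊` (`card_H_le` for `lam • sig`
gives `card ≤ J` for all the sets in `exists_modify`), `C₃ = 4^k₀ * e^{2 mm}`,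
`K = 8 * C₃ * 2^(J+1)`. Write `mu_m = muW (Wset a m) al be`; `(lam/2) • sig ≤ be • sig ≤ mu_m ≤
al • sig ≤ 2 lam • sig`, so `mu_m` satisfies the hypotheses of `lemmaD`. For each `m`:
`∫ Poi mu_m (pv x) dsig ≤ (2/lam) ∫ .. dmu_m ≤ (4/lam) ∫ UU a mu_m k₀ x dmu_m ≤ 8 ∫ UU .. dsig`.
Sum over `m`; `∑ ∫ ≤ ∫ ∑` holds without measurability (`le_lintegral_add`, induction on the finset).
For each `x`, `lemmaE` with `W' = Wset a (Φ m)` (`Φ` from `exists_modify`) gives
`∑_m UU a mu_m k₀ x ≤ C₃ ∑_m Poi mu_(Φ m) (pv x) ≤ C₃ 2^(J+1) ∑_{m'} ind (x ∈ W(m')) * Poi mu_m' (pv x)`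
(group by `m' = Φ m`, `Finset.sum_fiberwise_of_maps_to`). Integrate: the functions
`x ↦ ind (x ∈ W(m')) * Poi mu_m' (pv x)` are measurable (`measurableSet_Wset`,
`MS1_measurable_Poi`, `MS1_pv`, `MS_Bad`). -/
theorem DI (cs mm : ℝ≥0∞) (hcs : cs ≠ 0) (hmm : mm ≠ ∞) : ∃ K : ℝ≥0∞, K ≠ ∞ ∧
    ∀ (d : ℕ) (a : ℝ) (H : Finset (Sph d)) (al be lam : ℝ≥0∞),
      0 < a → 400 * a ≤ 1 → lam ≠ 0 → lam ≠ ∞ → lam ≤ 2 * be → be ≤ al → al ≤ 2 * lam →
      (∀ p : Sph d, 2 * cs ≤ lam * sig d (Metric.ball p (a / 32))) →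
      (∀ p : Sph d, 2 * lam * sig d (Metric.ball p (4 * a)) ≤ mm) →
      (∀ x : Sph d, ∃ h ∈ H, ‖(x : V d) - h‖ < a / 8) →
      (∀ h ∈ H, ∀ h' ∈ H, h ≠ h' → a / 8 ≤ ‖(h : V d) - h'‖) →
      ∑ m ∈ H.powerset, ∫⁻ x, Poi (muW (Wset a (m : Set (Sph d))) al be) (pv (Bad a) x) ∂sig d ≤
        K * ∑ m ∈ H.powerset, ∫⁻ x in Wset a (m : Set (Sph d)),
          Poi (muW (Wset a (m : Set (Sph d))) al be) (pv (Bad a) x) ∂sig d := by
  classical
  obtain ⟨k₀, hD⟩ := lemmaD cs mm hcs hmm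
  obtain ⟨J, hJ⟩ : ∃ J : ℕ, J = ⌊(mm / cs).toReal⌋₊ := ⟨_, rfl⟩
  obtain ⟨C₃, hC₃⟩ : ∃ C₃ : ℝ≥0∞, C₃ = 4 ^ k₀ * ENNReal.ofReal (Real.exp (2 * mm).toReal) :=
    ⟨_, rfl⟩
  have hC₃t : C₃ ≠ ∞ := by
    rw [hC₃]
    exact ENNReal.mul_ne_top (ENNReal.pow_ne_top (by norm_num)) ENNReal.ofReal_ne_top
  have h2J : (2 : ℝ≥0∞) ^ (J + 1) ≠ ∞ := ENNReal.pow_ne_top (by norm_num)
  refine ⟨8 * (C₃ * 2 ^ (J + 1)), ENNReal.mul_ne_top (by norm_num)
    (ENNReal.mul_ne_top hC₃t h2J), ?_⟩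
  intro d a H al be lam ha ha4 hlam0 hlam h1 h2 h3 hlo hhi hnet hsep
  have hal : al ≠ ∞ := ne_top_of_le_ne_top (ENNReal.mul_ne_top (by norm_num) hlam) h3
  have hbe : be ≠ ∞ := ne_top_of_le_ne_top hal h2
  have hlo1 : ∀ p : Sph d, cs ≤ be * sig d (Metric.ball p (a / 32)) := by
    intro p
    have h4 : 2 * cs ≤ 2 * (be * sig d (Metric.ball p (a / 32))) := by
      rw [← mul_assoc]
      exact (hlo p).trans (mul_le_mul_left h1 _)
    exact (ENNReal.mul_le_mul_iff_right (by norm_num) (by norm_num)).1 h4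
  have hWm : ∀ m : Finset (Sph d), MeasurableSet (Wset a (m : Set (Sph d))) :=
    fun m => measurableSet_Wset a _
  have hfin : ∀ m : Finset (Sph d), IsFiniteMeasure (muW (Wset a (m : Set (Sph d))) al be) :=
    fun m => muW_finite _ hal hbe
  -- one region
  have hone : ∀ m : Finset (Sph d),
      ∫⁻ x, Poi (muW (Wset a (m : Set (Sph d))) al be) (pv (Bad a) x) ∂sig d ≤
        8 * ∫⁻ x, UU a (muW (Wset a (m : Set (Sph d))) al be) k₀ x ∂sig d := by
    intro m
    have := hfin m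
    have hle1 := le_muW (hWm m) h2
    have hle2 := muW_le (hWm m) h2
    have h4 := hD d a (muW (Wset a (m : Set (Sph d))) al be) ha ha4
      (fun p => (hlo1 p).trans (by
        have := hle1 (Metric.ball p (a / 32))
        rwa [Measure.smul_apply, smul_eq_mul] at this))
      (fun p => le_trans (hle2 (Metric.ball p (4 * a))) (by
        rw [Measure.smul_apply, smul_eq_mul]
        exact (mul_le_mul_left h3 _).trans (hhi p)))
    have h5 : be * ∫⁻ x, Poi (muW (Wset a (m : Set (Sph d))) al be) (pv (Bad a) x) ∂sig d ≤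
        ∫⁻ x, Poi (muW (Wset a (m : Set (Sph d))) al be) (pv (Bad a) x)
          ∂(muW (Wset a (m : Set (Sph d))) al be) := by
      have h := lintegral_mono' hle1 (le_refl
        (fun x => Poi (muW (Wset a (m : Set (Sph d))) al be) (pv (Bad a) x)))
      rwa [lintegral_smul_measure, smul_eq_mul] at h
    have h6 : ∫⁻ x, UU a (muW (Wset a (m : Set (Sph d))) al be) k₀ x
          ∂(muW (Wset a (m : Set (Sph d))) al be) ≤
        al * ∫⁻ x, UU a (muW (Wset a (m : Set (Sph d))) al be) k₀ x ∂sig d := by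
      have h := lintegral_mono' hle2 (le_refl
        (fun x => UU a (muW (Wset a (m : Set (Sph d))) al be) k₀ x))
      rwa [lintegral_smul_measure, smul_eq_mul] at h
    generalize ∫⁻ x, Poi (muW (Wset a (m : Set (Sph d))) al be) (pv (Bad a) x) ∂sig d = I1 at *
    generalize ∫⁻ x, UU a (muW (Wset a (m : Set (Sph d))) al be) k₀ x ∂sig d = I2 at *
    have h7 : lam * I1 ≤ lam * (8 * I2) := by
      calc lam * I1 ≤ 2 * be * I1 := mul_le_mul_left h1 _
        _ = 2 * (be * I1) := by ring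
        _ ≤ 2 * (2 * (al * I2)) := by
          refine mul_le_mul_right (h5.trans (h4.trans ?_)) _
          exact mul_le_mul_right h6 _
        _ = 4 * (al * I2) := by ring
        _ ≤ 4 * (2 * lam * I2) := by
          refine mul_le_mul_right (mul_le_mul_left h3 _) _
        _ = lam * (8 * I2) := by ring
    exact (ENNReal.mul_le_mul_iff_right hlam0 hlam).1 h7
  have hcard : ∀ y : Sph d, (H.filter fun h => ‖(h : V d) + y‖ < 5 / 4 * a).card ≤ J := by
    intro y
    have h4 := card_H_le (lam • sig d) ha (cs := cs) (mm := mm)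
      (fun p => by
        rw [Measure.smul_apply, smul_eq_mul]
        refine le_trans ?_ (hlo p)
        rw [two_mul]
        exact le_self_add)
      (fun p => by
        rw [Measure.smul_apply, smul_eq_mul]
        refine le_trans ?_ (hhi p)
        rw [two_mul, add_mul]
        exact le_self_add) H hsep y
    rw [hJ]
    apply Nat.le_floor
    have h5 : ((H.filter fun h => ‖(h : V d) + y‖ < 5 / 4 * a).card : ℝ≥0∞) ≤ mm / cs := by
      rw [ENNReal.le_div_iff_mul_le (Or.inl hcs) (Or.inr hmm)]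
      exact h4
    have h6 : mm / cs ≠ ∞ := ENNReal.div_ne_top hmm hcs
    have h7 := ENNReal.toReal_mono h6 h5
    rwa [ENNReal.toReal_natCast] at h7
  have hpt : ∀ x : Sph d,
      ∑ m ∈ H.powerset, UU a (muW (Wset a (m : Set (Sph d))) al be) k₀ x ≤
        C₃ * (2 ^ (J + 1) * ∑ m ∈ H.powerset, ind (x ∈ Wset a (m : Set (Sph d))) *
          Poi (muW (Wset a (m : Set (Sph d))) al be) (pv (Bad a) x)) := by
    intro x
    obtain ⟨Φ, hΦ1, hΦ2, hΦ3, hΦ4⟩ := exists_modify ha (by linarith) H x (hnet x) J hcard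
    calc ∑ m ∈ H.powerset, UU a (muW (Wset a (m : Set (Sph d))) al be) k₀ x
        ≤ ∑ m ∈ H.powerset, C₃ *
            Poi (muW (Wset a (Φ m : Set (Sph d))) al be) (pv (Bad a) x) := by
          refine Finset.sum_le_sum fun m hm => ?_
          rw [hC₃]
          exact lemmaE ha (hWm m) (hWm (Φ m)) x (hΦ3 m hm) h1 h2 h3 hlam hmm hhi k₀
      _ = C₃ * ∑ m ∈ H.powerset,
            Poi (muW (Wset a (Φ m : Set (Sph d))) al be) (pv (Bad a) x) := by
          rw [Finset.mul_sum]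
      _ ≤ _ := by
          refine mul_le_mul_right ?_ _
          exact d4_group H.powerset Φ
            (fun m => Poi (muW (Wset a (m : Set (Sph d))) al be) (pv (Bad a) x))
            (fun m => ind (x ∈ Wset a (m : Set (Sph d)))) (2 ^ (J + 1)) hΦ1
            (fun m hm => by simp only [ind]; rw [if_pos (hΦ2 m hm)])
            (fun m' hm' => by exact_mod_cast hΦ4 m' hm')
  have hmeas : ∀ m : Finset (Sph d), Measurable fun x : Sph d =>
      Poi (muW (Wset a (m : Set (Sph d))) al be) (pv (Bad a) x) := by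
    intro m
    have := hfin m
    exact MS1_measurable_Poi _ (MS1_pv (MS_Bad a))
  have hindeq : ∀ m : Finset (Sph d),
      (fun x => ind (x ∈ Wset a (m : Set (Sph d))) *
        Poi (muW (Wset a (m : Set (Sph d))) al be) (pv (Bad a) x)) =
      (Wset a (m : Set (Sph d))).indicator
        (fun x => Poi (muW (Wset a (m : Set (Sph d))) al be) (pv (Bad a) x)) := by
    intro m
    funext x
    by_cases hx : x ∈ Wset a (m : Set (Sph d))
    · rw [Set.indicator_of_mem hx, ind, if_pos hx, one_mul]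
    · rw [Set.indicator_of_notMem hx, ind, if_neg hx, zero_mul]
  calc ∑ m ∈ H.powerset, ∫⁻ x, Poi (muW (Wset a (m : Set (Sph d))) al be) (pv (Bad a) x) ∂sig d
      ≤ ∑ m ∈ H.powerset,
          8 * ∫⁻ x, UU a (muW (Wset a (m : Set (Sph d))) al be) k₀ x ∂sig d :=
        Finset.sum_le_sum fun m _ => hone m
    _ = 8 * ∑ m ∈ H.powerset,
          ∫⁻ x, UU a (muW (Wset a (m : Set (Sph d))) al be) k₀ x ∂sig d := by
        rw [Finset.mul_sum]
    _ ≤ 8 * ∫⁻ x, ∑ m ∈ H.powerset,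
          UU a (muW (Wset a (m : Set (Sph d))) al be) k₀ x ∂sig d :=
        mul_le_mul_right (d4_sum _ _ _) _
    _ ≤ 8 * ∫⁻ x, C₃ * (2 ^ (J + 1) * ∑ m ∈ H.powerset,
          ind (x ∈ Wset a (m : Set (Sph d))) *
            Poi (muW (Wset a (m : Set (Sph d))) al be) (pv (Bad a) x)) ∂sig d :=
        mul_le_mul_right (lintegral_mono hpt) _
    _ = 8 * (C₃ * (2 ^ (J + 1) * ∫⁻ x, ∑ m ∈ H.powerset,
          ind (x ∈ Wset a (m : Set (Sph d))) *
            Poi (muW (Wset a (m : Set (Sph d))) al be) (pv (Bad a) x) ∂sig d)) := by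
        rw [lintegral_const_mul' _ _ hC₃t, lintegral_const_mul' _ _ h2J]
    _ = 8 * (C₃ * (2 ^ (J + 1) * ∑ m ∈ H.powerset, ∫⁻ x in Wset a (m : Set (Sph d)),
            Poi (muW (Wset a (m : Set (Sph d))) al be) (pv (Bad a) x) ∂sig d)) := by
        congr 3
        rw [lintegral_finsetSum]
        · refine Finset.sum_congr rfl fun m _ => ?_
          rw [hindeq m, lintegral_indicator (hWm m)]
        · intro m _
          rw [hindeq m]
          exact (hmeas m).indicator (hWm m)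
    _ = _ := by ring

end Pool.Agent.Helper97.BG
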