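import Pool.Agent.Helper97.BG.Defs
import Pool.Agent.Helper97.BG.St.P1
import Pool.Agent.Helper97.BG.St.P2
import Pool.Agent.Helper97.BG.St.P3
import Pool.Agent.Helper97.BG.St.P4

/-!
Project BG (MP_8410f8_pr), piece P10.
-/

open MeasureTheory Set
open scoped ENNReal

namespace Pool.Agent.Helper97.BG

variable {S : Type*} [MeasurableSpace S]

private theorem P10_tup_one (nu : Measure S) [IsFiniteMeasure nu] {g : Set S → ℝ≥0∞} (hg : MS g) :
    tup nu 1 g = ∫⁻ x, g (insert x ∅) ∂nu := by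
  have h := tup_succ nu hg 0
  rw [zero_add] at h
  rw [h]
  simp only [tup_zero]

private theorem P10_em (nu : Measure S) [IsFiniteMeasure nu] :
    em nu * ∑' n : ℕ, ((n.factorial : ℝ≥0∞))⁻¹ * (nu univ) ^ n = 1 := by
  have h := Poi_const nu 1
  unfold Poi at h
  simpa only [tup_const, one_mul] using h

private theorem P10_em_mul (nu : Measure S) [IsFiniteMeasure nu] :
    em nu * (1 + nu univ) ≤ 1 := by
  have h := ENNReal.sum_le_tsum (f := fun n : ℕ => ((n.factorial : ℝ≥0∞))⁻¹ * (nu univ) ^ n)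
    (Finset.range 2)
  have h' : 1 + nu univ ≤ ∑' n : ℕ, ((n.factorial : ℝ≥0∞))⁻¹ * (nu univ) ^ n := by
    refine le_trans (le_of_eq ?_) h
    simp [Finset.sum_range_succ]
  exact (mul_le_mul' le_rfl h').trans (le_of_eq (P10_em nu))

private theorem P10_em_le (nu : Measure S) [IsFiniteMeasure nu] : em nu ≤ 1 := by
  refine le_trans ?_ (P10_em_mul nu)
  calc em nu = em nu * 1 := (mul_one _).symm
    _ ≤ em nu * (1 + nu univ) := by
      gcongr
      exact le_self_add

private theorem P10_em_add (nu : Measure S) [IsFiniteMeasure nu] : 1 ≤ em nu + nu univ := by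
  have hm : nu univ = ENNReal.ofReal (nu univ).toReal :=
    (ENNReal.ofReal_toReal (measure_ne_top nu univ)).symm
  unfold em
  rw [hm, ENNReal.toReal_ofReal ENNReal.toReal_nonneg,
    ← ENNReal.ofReal_add (Real.exp_pos _).le ENNReal.toReal_nonneg]
  rw [← ENNReal.ofReal_one]
  apply ENNReal.ofReal_le_ofReal
  have := Real.add_one_le_exp (-(nu univ).toReal)
  linarith

private theorem P10_ind_le (p : Prop) : ind p ≤ 1 := by
  unfold ind; split_ifs <;> simp

/-- the pointwise upper bound -/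
private theorem P10_up (nu : Measure S) [IsFiniteMeasure nu] (E : Set S → Prop)
    (hE : MS (fun A => ind (E A))) {A : Set S}
    (hA : A.Finite) :
    Poi nu (fun B => ind (E (A ∪ B))) ≤ ind (E A) + (∫⁻ t, pv E t A ∂nu + (nu univ) ^ 2) := by
  have hg : MS (fun B => ind (E (A ∪ B))) := MS_union_left hE hA
  have h0 : tup nu 0 (fun B => ind (E (A ∪ B))) = ind (E A) := by
    rw [tup_zero, union_empty]
  have h1 : tup nu 1 (fun B => ind (E (A ∪ B))) ≤
      ind (E A) * nu univ + ∫⁻ t, pv E t A ∂nu := by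
    rw [P10_tup_one nu hg]
    calc ∫⁻ x, ind (E (A ∪ insert x ∅)) ∂nu ≤ ∫⁻ x, (ind (E A) + pv E x A) ∂nu := by
          apply lintegral_mono
          intro x
          have e : A ∪ insert x ∅ = insert x A := by
            rw [union_insert, union_empty]
          simp only [e]
          unfold pv ind
          by_cases h : E A
          · simp only [h, if_true]
            split_ifs <;> simp
          · by_cases h' : E (insert x A)
            · simp [h, h']
            · simp [h, h']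
      _ = ind (E A) * nu univ + ∫⁻ t, pv E t A ∂nu := by
          rw [lintegral_add_left measurable_const, lintegral_const]
  have h2 : ∀ n : ℕ, (((n + 2).factorial : ℝ≥0∞))⁻¹ *
      tup nu (n + 2) (fun B => ind (E (A ∪ B))) ≤
      (nu univ) ^ 2 * (((n.factorial : ℝ≥0∞))⁻¹ * (nu univ) ^ n) := by
    intro n
    have e1 : tup nu (n + 2) (fun B => ind (E (A ∪ B))) ≤ 1 * (nu univ) ^ (n + 2) :=
      tup_le nu (n + 2) 1 (fun B => P10_ind_le _)
    have e2 : (((n + 2).factorial : ℝ≥0∞))⁻¹ ≤ ((n.factorial : ℝ≥0∞))⁻¹ := by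
      rw [ENNReal.inv_le_inv]
      exact_mod_cast Nat.factorial_le (by omega)
    calc (((n + 2).factorial : ℝ≥0∞))⁻¹ * tup nu (n + 2) (fun B => ind (E (A ∪ B)))
        ≤ ((n.factorial : ℝ≥0∞))⁻¹ * (1 * (nu univ) ^ (n + 2)) := mul_le_mul' e2 e1
      _ = (nu univ) ^ 2 * (((n.factorial : ℝ≥0∞))⁻¹ * (nu univ) ^ n) := by
          rw [pow_add]; ring
  have hsplit : ∑' n : ℕ, ((n.factorial : ℝ≥0∞))⁻¹ * tup nu n (fun B => ind (E (A ∪ B))) ≤
      (ind (E A) * (1 + nu univ) + ∫⁻ t, pv E t A ∂nu) +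
        (nu univ) ^ 2 * ∑' n : ℕ, ((n.factorial : ℝ≥0∞))⁻¹ * (nu univ) ^ n := by
    rw [← Summable.sum_add_tsum_nat_add' (k := 2) ENNReal.summable]
    refine add_le_add ?_ ?_
    · rw [Finset.sum_range_succ, Finset.sum_range_succ, Finset.sum_range_zero, h0]
      simp only [Nat.factorial_zero, Nat.factorial_one, Nat.cast_one, inv_one, one_mul, zero_add]
      rw [mul_add, mul_one, add_assoc]
      gcongr
    · rw [← ENNReal.tsum_mul_left]
      exact ENNReal.tsum_le_tsum h2
  unfold Poi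
  calc em nu * ∑' n : ℕ, ((n.factorial : ℝ≥0∞))⁻¹ * tup nu n (fun B => ind (E (A ∪ B)))
      ≤ em nu * ((ind (E A) * (1 + nu univ) + ∫⁻ t, pv E t A ∂nu) +
        (nu univ) ^ 2 * ∑' n : ℕ, ((n.factorial : ℝ≥0∞))⁻¹ * (nu univ) ^ n) := by
        gcongr
    _ = ind (E A) * (em nu * (1 + nu univ)) + (em nu * ∫⁻ t, pv E t A ∂nu +
        (nu univ) ^ 2 * (em nu * ∑' n : ℕ, ((n.factorial : ℝ≥0∞))⁻¹ * (nu univ) ^ n)) := by
        ring
    _ ≤ ind (E A) * 1 + (1 * ∫⁻ t, pv E t A ∂nu + (nu univ) ^ 2 * 1) := by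
        rw [P10_em nu]
        gcongr
        · exact P10_em_mul nu
        · exact P10_em_le nu
    _ = ind (E A) + (∫⁻ t, pv E t A ∂nu + (nu univ) ^ 2) := by
        rw [mul_one, mul_one, one_mul]

/-- the pointwise lower bound -/
private theorem P10_lo (nu : Measure S) [IsFiniteMeasure nu] (E : Set S → Prop)
    (hmono : ∀ A B, A ⊆ B → E A → E B) (hE : MS (fun A => ind (E A))) {A : Set S}
    (hA : A.Finite) :
    ind (E A) + ∫⁻ t, pv E t A ∂nu ≤ Poi nu (fun B => ind (E (A ∪ B))) + (nu univ) ^ 2 := by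
  have hg : MS (fun B => ind (E (A ∪ B))) := MS_union_left hE hA
  by_cases h : E A
  · have e1 : ∀ t, pv E t A = 0 := by
      intro t
      unfold pv ind
      simp [h]
    have e2 : (fun B => ind (E (A ∪ B))) = fun _ => (1 : ℝ≥0∞) := by
      funext B
      unfold ind
      rw [if_pos (hmono _ _ subset_union_left h)]
    rw [e2, Poi_const]
    simp only [e1, lintegral_zero, add_zero]
    exact (P10_ind_le _).trans le_self_add
  · have e1 : ind (E A) = 0 := by
      unfold ind
      rw [if_neg h]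
    rw [e1, zero_add]
    have hI : ∫⁻ t, pv E t A ∂nu ≤ nu univ := by
      calc ∫⁻ t, pv E t A ∂nu ≤ ∫⁻ _, 1 ∂nu := lintegral_mono fun t => P10_ind_le _
        _ = nu univ := by rw [lintegral_one]
    have hP : em nu * ∫⁻ t, pv E t A ∂nu ≤ Poi nu (fun B => ind (E (A ∪ B))) := by
      unfold Poi
      gcongr
      have h1 : ∫⁻ t, pv E t A ∂nu ≤ tup nu 1 (fun B => ind (E (A ∪ B))) := by
        rw [P10_tup_one nu hg]
        apply lintegral_mono
        intro x
        have e : A ∪ insert x ∅ = insert x A := by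
          rw [union_insert, union_empty]
        simp only [e]
        unfold pv ind
        by_cases h' : E (insert x A)
        · simp [h, h']
        · simp [h, h']
      calc ∫⁻ t, pv E t A ∂nu ≤ tup nu 1 (fun B => ind (E (A ∪ B))) := h1
        _ = ((Nat.factorial 1 : ℕ) : ℝ≥0∞)⁻¹ * tup nu 1 (fun B => ind (E (A ∪ B))) := by simp
        _ ≤ ∑' n : ℕ, ((n.factorial : ℝ≥0∞))⁻¹ * tup nu n (fun B => ind (E (A ∪ B))) :=
            ENNReal.le_tsum (f := fun n : ℕ => ((n.factorial : ℝ≥0∞))⁻¹ *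
              tup nu n (fun B => ind (E (A ∪ B)))) 1
    calc ∫⁻ t, pv E t A ∂nu = 1 * ∫⁻ t, pv E t A ∂nu := (one_mul _).symm
      _ ≤ (em nu + nu univ) * ∫⁻ t, pv E t A ∂nu := by
          gcongr
          exact P10_em_add nu
      _ = em nu * ∫⁻ t, pv E t A ∂nu + nu univ * ∫⁻ t, pv E t A ∂nu := add_mul _ _ _
      _ ≤ Poi nu (fun B => ind (E (A ∪ B))) + (nu univ) ^ 2 := by
          rw [pow_two]
          gcongr

/-- First order upper bound. Superposition: the left side is
`Poi kap (A ↦ Poi nu (B ↦ ind (E (A ∪ B))))`. For fixed `A` (a finite set `range X`), with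
`m = nu univ`, the inner value is at most `ind (E A) + ∫ pv E t A dnu(t) + m^2`:
the term `n = 0` is `em nu * ind (E A)`, the term `n = 1` is at most
`em nu * (m * ind (E A) + ∫ pv E t A dnu)` since `ind (E (A ∪ {t})) ≤ ind (E A) + pv E t A`,
`em nu * (1 + m) ≤ 1`, and the terms `n ≥ 2` are at most `em nu * ∑_{n≥2} m^n/n! ≤ m^2`.
Integrate over `A` with `Poi_add_fun`, `Poi_swap`, `Poi_const`, `Poi_mono`. (`Poi_mono` only needs the
inequality for finite `A`; for those `B ↦ ind (E (A ∪ B))` is `MS` by `MS_union_left`.) -/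
theorem Poi_step_up (kap nu : Measure S) [IsFiniteMeasure kap] [IsFiniteMeasure nu]
    (E : Set S → Prop) (hmono : ∀ A B, A ⊆ B → E A → E B) (hE : MS (fun A => ind (E A))) :
    Poi (kap + nu) (fun A => ind (E A)) ≤
      Poi kap (fun A => ind (E A)) + ∫⁻ t, Poi kap (pv E t) ∂nu + (nu univ) ^ 2 := by
  rw [Poi_add_measure kap nu hE]
  calc Poi kap (fun A => Poi nu (fun B => ind (E (A ∪ B))))
      ≤ Poi kap (fun A => ind (E A) + (∫⁻ t, pv E t A ∂nu + (nu univ) ^ 2)) :=
        Poi_mono kap fun A hA => P10_up nu E hE hA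
    _ = Poi kap (fun A => ind (E A)) + (Poi kap (fun A => ∫⁻ t, pv E t A ∂nu) +
        (nu univ) ^ 2) := by
        rw [Poi_add_fun kap hE, Poi_add_fun kap (MS_lintegral nu (MS1_pv hE)), Poi_const]
    _ = Poi kap (fun A => ind (E A)) + ∫⁻ t, Poi kap (pv E t) ∂nu + (nu univ) ^ 2 := by
        rw [Poi_swap kap nu (MS1_pv hE), add_assoc]

/-- First order lower bound. For fixed `A`, `ind (E A) + ∫ pv E t A dnu(t) ≤
Poi nu (B ↦ ind (E (A ∪ B))) + m^2`: if `E A` then `pv E t A = 0` and the Poisson value is `1`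
(monotone `E`, `Poi_const`); if `¬ E A` let `I = ∫ pv E t A dnu(t) ≤ m`; the term `n = 1` of the
series gives the value `≥ em nu * I`, and `I ≤ em nu * I + m * I ≤ em nu * I + m^2` because
`1 ≤ em nu + m` (`1 - m ≤ e^{-m}`). -/
theorem Poi_step_lo (kap nu : Measure S) [IsFiniteMeasure kap] [IsFiniteMeasure nu]
    (E : Set S → Prop) (hmono : ∀ A B, A ⊆ B → E A → E B) (hE : MS (fun A => ind (E A))) :
    Poi kap (fun A => ind (E A)) + ∫⁻ t, Poi kap (pv E t) ∂nu ≤
      Poi (kap + nu) (fun A => ind (E A)) + (nu univ) ^ 2 := by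
  rw [Poi_add_measure kap nu hE]
  calc Poi kap (fun A => ind (E A)) + ∫⁻ t, Poi kap (pv E t) ∂nu
      = Poi kap (fun A => ind (E A) + ∫⁻ t, pv E t A ∂nu) := by
        rw [Poi_add_fun kap hE, Poi_swap kap nu (MS1_pv hE)]
    _ ≤ Poi kap (fun A => Poi nu (fun B => ind (E (A ∪ B))) + (nu univ) ^ 2) :=
        Poi_mono kap fun A hA => P10_lo nu E hmono hE hA
    _ = Poi kap (fun A => Poi nu (fun B => ind (E (A ∪ B)))) + (nu univ) ^ 2 := by
        rw [Poi_add_fun kap (MS_union_Poi nu hE), Poi_const]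

end Pool.Agent.Helper97.BG
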