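import Pool.Agent.Helper97.BG.Defs
import Pool.Agent.Helper97.BG.St.P2
import Pool.Agent.Helper97.BG.St.P3
import Pool.Agent.Helper97.BG.St.P4
import Pool.Agent.Helper97.BG.St.P6
import Pool.Agent.Helper97.BG.St.P10
import Pool.Agent.Helper97.BG.St.G1
import Pool.Agent.Helper97.BG.St.M1
import Pool.Agent.Helper97.BG.St.W1
import Pool.Agent.Helper97.BG.St.V1
import Pool.Agent.Helper97.BG.St.D3

/-!
Project BG (MP_8410f8_pr), piece D5.
-/

open MeasureTheory Set
open scoped ENNReal

namespace Pool.Agent.Helper97.BG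

variable {d : ℕ}

/-- Increasing the intensity on `W` resp. off `W`. -/
private theorem d5_split (W : Set (Sph d)) (al be c : ℝ≥0∞) :
    muW W al (be + c) = muW W al be + c • (sig d).restrict W := by
  unfold muW
  rw [add_smul, add_assoc]

private theorem d5_split' (W : Set (Sph d)) (al be c : ℝ≥0∞) :
    muW W (al + c) be = muW W al be + c • (sig d).restrict Wᶜ := by
  unfold muW
  rw [add_smul, add_assoc, add_assoc, add_comm (c • _)]

private theorem d5_up {a : ℝ} (W : Set (Sph d)) (hW : MeasurableSet W) {al be c : ℝ≥0∞}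
    (hal : al ≠ ∞) (hbe : be ≠ ∞) (hc : c ≠ ∞) :
    Poi (muW W (al + c) be) (fun A => ind (Bad a A)) ≤
      Poi (muW W al be) (fun A => ind (Bad a A)) +
        c * ∫⁻ x in Wᶜ, Poi (muW W al be) (pv (Bad a) x) ∂sig d + c ^ 2 := by
  have h1 : IsFiniteMeasure (muW W al be) := muW_finite W hal hbe
  have h2 : IsFiniteMeasure (c • (sig d).restrict Wᶜ) := Measure.smul_finite _ hc
  rw [d5_split']
  refine (Poi_step_up _ _ (Bad a) (fun A B h hA => Bad_mono A B h hA) (MS_Bad a)).trans ?_
  rw [lintegral_smul_measure]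
  refine add_le_add le_rfl ?_
  have h3 : (c • (sig d).restrict Wᶜ) univ ≤ c := by
    rw [Measure.smul_apply, smul_eq_mul]
    calc c * (sig d).restrict Wᶜ univ ≤ c * 1 := by
          gcongr
          rw [Measure.restrict_apply_univ]
          exact prob_le_one
      _ = c := mul_one c
  gcongr

private theorem d5_lo {a : ℝ} (W : Set (Sph d)) (hW : MeasurableSet W) {al be c : ℝ≥0∞}
    (hal : al ≠ ∞) (hbe : be ≠ ∞) (hc : c ≠ ∞) :
    Poi (muW W al be) (fun A => ind (Bad a A)) +
        c * ∫⁻ x in W, Poi (muW W al be) (pv (Bad a) x) ∂sig d ≤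
      Poi (muW W al (be + c)) (fun A => ind (Bad a A)) + c ^ 2 := by
  have h1 : IsFiniteMeasure (muW W al be) := muW_finite W hal hbe
  have h2 : IsFiniteMeasure (c • (sig d).restrict W) := Measure.smul_finite _ hc
  rw [d5_split]
  have h4 := Poi_step_lo (muW W al be) (c • (sig d).restrict W) (Bad a)
    (fun A B h hA => Bad_mono A B h hA) (MS_Bad a)
  rw [lintegral_smul_measure] at h4
  refine h4.trans (add_le_add le_rfl ?_)
  have h3 : (c • (sig d).restrict W) univ ≤ c := by
    rw [Measure.smul_apply, smul_eq_mul]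
    calc c * (sig d).restrict W univ ≤ c * 1 := by
          gcongr
          rw [Measure.restrict_apply_univ]
          exact prob_le_one
      _ = c := mul_one c
  gcongr

/-- The path. For `N ≥ 1` let `h = lam/(2 K N)`, `t_j = j h`, and
`F_j = ∑_m Poi (muW W_m (lam + t_j) (lam - K t_j)) (ind Bad)`, `j = 0, ..., N`; `F_N` is the left
side and `F_0` the right side. With `kap_m = muW W_m (lam + t_j) (lam - K t_{j+1})`:
`muW W_m (lam + t_j) (lam - K t_j) = kap_m + (K h) • sig|W_m` and
`muW W_m (lam + t_{j+1}) (lam - K t_{j+1}) = kap_m + h • sig|W_mᶜ`. By `Poi_step_up`, `hDI` and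
`Poi_step_lo` (`sig` is a probability measure):
`F_{j+1} ≤ ∑ Poi kap_m + h ∑ ∫_{W_mᶜ} Poi kap_m (pv x) + P h² ≤ ∑ (Poi kap_m + K h ∫_{W_m} ..) + P h²
≤ F_j + P (K h)² + P h²`, `P = 2^card H`. Summing, `F_N ≤ F_0 + P (1 + K²) (lam/(2K))² / N`; let
`N → ∞`. -/
theorem path_le {a : ℝ} (H : Finset (Sph d)) (K lam : ℝ) (hK : 1 ≤ K) (hlam : 0 < lam)
    (hDI : ∀ al be : ℝ, lam / 2 ≤ be → be ≤ lam → lam ≤ al → al ≤ 2 * lam →
      ∑ m ∈ H.powerset, ∫⁻ x in (Wset a (m : Set (Sph d)))ᶜ,
        Poi (muW (Wset a (m : Set (Sph d))) (ENNReal.ofReal al) (ENNReal.ofReal be))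
          (pv (Bad a) x) ∂sig d ≤
      ENNReal.ofReal K * ∑ m ∈ H.powerset, ∫⁻ x in Wset a (m : Set (Sph d)),
        Poi (muW (Wset a (m : Set (Sph d))) (ENNReal.ofReal al) (ENNReal.ofReal be))
          (pv (Bad a) x) ∂sig d) :
    ∑ m ∈ H.powerset, Poi (muW (Wset a (m : Set (Sph d)))
        (ENNReal.ofReal (lam * (1 + 1 / (2 * K)))) (ENNReal.ofReal (lam / 2)))
        (fun A => ind (Bad a A)) ≤
      ∑ m ∈ H.powerset, Poi (muW (Wset a (m : Set (Sph d)))
        (ENNReal.ofReal lam) (ENNReal.ofReal lam)) (fun A => ind (Bad a A)) := by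
  have hK0 : 0 < K := by linarith
  set P : ℝ≥0∞ := (H.powerset.card : ℝ≥0∞) with hP
  have key : ∀ N : ℕ, 0 < N → ∀ j : ℕ, j ≤ N →
      ∑ m ∈ H.powerset, Poi (muW (Wset a (m : Set (Sph d)))
        (ENNReal.ofReal (lam + j * (lam / (2 * K * N))))
        (ENNReal.ofReal (lam - K * (j * (lam / (2 * K * N))))))
        (fun A => ind (Bad a A)) ≤
      ∑ m ∈ H.powerset, Poi (muW (Wset a (m : Set (Sph d)))
        (ENNReal.ofReal lam) (ENNReal.ofReal lam)) (fun A => ind (Bad a A)) +
        j * (P * (ENNReal.ofReal (lam / (2 * K * N)) ^ 2 +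
          ENNReal.ofReal (K * (lam / (2 * K * N))) ^ 2)) := by
    intro N hN j
    have hN0 : (0 : ℝ) < N := by exact_mod_cast hN
    set h : ℝ := lam / (2 * K * N) with hh
    have hh0 : 0 < h := by positivity
    have hhN : K * (N * h) = lam / 2 := by
      rw [hh]; field_simp
    induction j with
    | zero => intro _; simp
    | succ j ih =>
      intro hj
      have ih' := ih (by omega)
      have hjN : ((j : ℝ) + 1) ≤ N := by exact_mod_cast hj
      have hj0 : (0 : ℝ) ≤ j := by positivity
      have hb1 : K * ((j + 1) * h) ≤ lam / 2 := by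
        rw [← hhN]
        gcongr
      have hb0 : 0 ≤ K * ((j + 1) * h) := by positivity
      have ha1 : (j : ℝ) * h ≤ lam := by
        have : (j : ℝ) * h ≤ K * ((j + 1) * h) := by nlinarith [mul_nonneg hj0 hh0.le]
        linarith
      have hDI' := hDI (lam + j * h) (lam - K * ((j + 1) * h)) (by linarith) (by linarith)
        (by nlinarith [mul_nonneg hj0 hh0.le]) (by linarith)
      have eal : ENNReal.ofReal (lam + ((j + 1 : ℕ) : ℝ) * h) =
          ENNReal.ofReal (lam + j * h) + ENNReal.ofReal h := by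
        rw [← ENNReal.ofReal_add (by positivity) hh0.le]
        congr 1
        push_cast
        ring
      have ebe : ENNReal.ofReal (lam - K * (j * h)) =
          ENNReal.ofReal (lam - K * ((j + 1) * h)) + ENNReal.ofReal (K * h) := by
        rw [← ENNReal.ofReal_add (by linarith) (by positivity)]
        congr 1
        ring
      have ebe' : ENNReal.ofReal (lam - K * (((j + 1 : ℕ) : ℝ) * h)) =
          ENNReal.ofReal (lam - K * ((j + 1) * h)) := by
        push_cast
        rfl
      rw [eal, ebe']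
      set A1 := ENNReal.ofReal (lam + j * h) with hA1
      set B1 := ENNReal.ofReal (lam - K * ((j + 1) * h)) with hB1
      have hA1t : A1 ≠ ∞ := ENNReal.ofReal_ne_top
      have hB1t : B1 ≠ ∞ := ENNReal.ofReal_ne_top
      have s1 : ∑ m ∈ H.powerset, Poi (muW (Wset a (m : Set (Sph d)))
          (A1 + ENNReal.ofReal h) B1) (fun A => ind (Bad a A)) ≤
          ∑ m ∈ H.powerset, Poi (muW (Wset a (m : Set (Sph d))) A1 B1)
            (fun A => ind (Bad a A)) +
          ENNReal.ofReal h * ∑ m ∈ H.powerset, ∫⁻ x in (Wset a (m : Set (Sph d)))ᶜ,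
            Poi (muW (Wset a (m : Set (Sph d))) A1 B1) (pv (Bad a) x) ∂sig d +
          P * ENNReal.ofReal h ^ 2 := by
        have := Finset.sum_le_sum fun m (_ : m ∈ H.powerset) =>
          d5_up (a := a) (Wset a (m : Set (Sph d)))
          (measurableSet_Wset a _) hA1t hB1t (c := ENNReal.ofReal h) ENNReal.ofReal_ne_top
        rw [Finset.sum_add_distrib, Finset.sum_add_distrib, ← Finset.mul_sum, Finset.sum_const,
          nsmul_eq_mul] at this
        exact this
      have s2 : ∑ m ∈ H.powerset, Poi (muW (Wset a (m : Set (Sph d))) A1 B1)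
            (fun A => ind (Bad a A)) +
          ENNReal.ofReal (K * h) * ∑ m ∈ H.powerset, ∫⁻ x in Wset a (m : Set (Sph d)),
            Poi (muW (Wset a (m : Set (Sph d))) A1 B1) (pv (Bad a) x) ∂sig d ≤
          ∑ m ∈ H.powerset, Poi (muW (Wset a (m : Set (Sph d)))
            A1 (B1 + ENNReal.ofReal (K * h))) (fun A => ind (Bad a A)) +
          P * ENNReal.ofReal (K * h) ^ 2 := by
        have := Finset.sum_le_sum fun m (_ : m ∈ H.powerset) =>
          d5_lo (a := a) (Wset a (m : Set (Sph d)))
          (measurableSet_Wset a _) hA1t hB1t (c := ENNReal.ofReal (K * h)) ENNReal.ofReal_ne_top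
        rw [Finset.sum_add_distrib, Finset.sum_add_distrib, ← Finset.mul_sum, Finset.sum_const,
          nsmul_eq_mul] at this
        exact this
      rw [← ebe] at s2
      have e3 : ENNReal.ofReal (K * h) = ENNReal.ofReal h * ENNReal.ofReal K := by
        rw [mul_comm, ENNReal.ofReal_mul hh0.le]
      calc _ ≤ _ := s1
        _ ≤ ∑ m ∈ H.powerset, Poi (muW (Wset a (m : Set (Sph d))) A1 B1)
            (fun A => ind (Bad a A)) +
          ENNReal.ofReal h * (ENNReal.ofReal K * ∑ m ∈ H.powerset,
            ∫⁻ x in Wset a (m : Set (Sph d)),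
            Poi (muW (Wset a (m : Set (Sph d))) A1 B1) (pv (Bad a) x) ∂sig d) +
          P * ENNReal.ofReal h ^ 2 := by gcongr
        _ = ∑ m ∈ H.powerset, Poi (muW (Wset a (m : Set (Sph d))) A1 B1)
            (fun A => ind (Bad a A)) +
          ENNReal.ofReal (K * h) * ∑ m ∈ H.powerset,
            ∫⁻ x in Wset a (m : Set (Sph d)),
            Poi (muW (Wset a (m : Set (Sph d))) A1 B1) (pv (Bad a) x) ∂sig d +
          P * ENNReal.ofReal h ^ 2 := by rw [e3, mul_assoc]
        _ ≤ (∑ m ∈ H.powerset, Poi (muW (Wset a (m : Set (Sph d)))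
            A1 (ENNReal.ofReal (lam - K * (j * h)))) (fun A => ind (Bad a A)) +
          P * ENNReal.ofReal (K * h) ^ 2) + P * ENNReal.ofReal h ^ 2 := by gcongr
        _ ≤ (_ + j * (P * (ENNReal.ofReal h ^ 2 + ENNReal.ofReal (K * h) ^ 2)) +
          P * ENNReal.ofReal (K * h) ^ 2) + P * ENNReal.ofReal h ^ 2 := by gcongr
        _ = _ := by
          push_cast
          ring
  have key2 : ∀ n : ℕ,
      ∑ m ∈ H.powerset, Poi (muW (Wset a (m : Set (Sph d)))
        (ENNReal.ofReal (lam * (1 + 1 / (2 * K)))) (ENNReal.ofReal (lam / 2)))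
        (fun A => ind (Bad a A)) ≤
      ∑ m ∈ H.powerset, Poi (muW (Wset a (m : Set (Sph d)))
        (ENNReal.ofReal lam) (ENNReal.ofReal lam)) (fun A => ind (Bad a A)) +
        ENNReal.ofReal ((H.powerset.card : ℝ) * ((lam / (2 * K)) ^ 2 + (lam / 2) ^ 2) /
          ((n : ℝ) + 1)) := by
    intro n
    have h1 := key (n + 1) (by omega) (n + 1) le_rfl
    have hn0 : (0 : ℝ) < (n : ℝ) + 1 := by positivity
    have e1 : lam + ((n + 1 : ℕ) : ℝ) * (lam / (2 * K * ((n + 1 : ℕ) : ℝ))) =
        lam * (1 + 1 / (2 * K)) := by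
      push_cast
      field_simp
    have e2 : lam - K * (((n + 1 : ℕ) : ℝ) * (lam / (2 * K * ((n + 1 : ℕ) : ℝ)))) = lam / 2 := by
      push_cast
      field_simp
      ring
    rw [e1, e2] at h1
    refine h1.trans (add_le_add le_rfl (le_of_eq ?_))
    have e4 : ((n + 1 : ℕ) : ℝ≥0∞) = ENNReal.ofReal ((n : ℝ) + 1) := by
      rw [← Nat.cast_succ, ENNReal.ofReal_natCast]
    have e5 : P = ENNReal.ofReal (H.powerset.card : ℝ) := by
      rw [ENNReal.ofReal_natCast]
    rw [e4, e5, ← ENNReal.ofReal_pow (by positivity), ← ENNReal.ofReal_pow (by positivity),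
      ← ENNReal.ofReal_add (by positivity) (by positivity),
      ← ENNReal.ofReal_mul (by positivity), ← ENNReal.ofReal_mul (by positivity)]
    congr 1
    push_cast
    field_simp
  have ht : Filter.Tendsto (fun n : ℕ =>
      ∑ m ∈ H.powerset, Poi (muW (Wset a (m : Set (Sph d)))
        (ENNReal.ofReal lam) (ENNReal.ofReal lam)) (fun A => ind (Bad a A)) +
        ENNReal.ofReal ((H.powerset.card : ℝ) * ((lam / (2 * K)) ^ 2 + (lam / 2) ^ 2) /
          ((n : ℝ) + 1))) Filter.atTop (nhds (∑ m ∈ H.powerset,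
        Poi (muW (Wset a (m : Set (Sph d)))
        (ENNReal.ofReal lam) (ENNReal.ofReal lam)) (fun A => ind (Bad a A)) + 0)) := by
    apply Filter.Tendsto.add tendsto_const_nhds
    rw [← ENNReal.ofReal_zero]
    apply ENNReal.tendsto_ofReal
    have h1 := (tendsto_one_div_add_atTop_nhds_zero_nat (𝕜 := ℝ)).const_mul
      ((H.powerset.card : ℝ) * ((lam / (2 * K)) ^ 2 + (lam / 2) ^ 2))
    rw [mul_zero] at h1
    refine h1.congr fun n => ?_
    ring
  rw [add_zero] at ht
  exact ge_of_tendsto' ht key2

/-- End of the path: `al • sig = muW W al be + (al - be) • sig|W`, `Poi_add_measure`; for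
`B ⊆ W` (`Poi_restrict_mono`) a 2-colouring of `A` extends to a 3-colouring of `A ∪ B` (third
colour on `B`: by `hind` no two points of `W` are adjacent), so
`ind (¬ Col a 3 (A ∪ B)) ≤ ind (Bad a A)`; `Poi_const`. -/
theorem end_le {a : ℝ} {W : Set (Sph d)} (hW : MeasurableSet W)
    (hind : ∀ u ∈ W, ∀ v ∈ W, a ≤ ‖(u : V d) + v‖) {al be : ℝ≥0∞} (h : be ≤ al) (hal : al ≠ ∞) :
    Poi (al • sig d) (fun A => ind (¬ Col a 3 A)) ≤
      Poi (muW W al be) (fun A => ind (Bad a A)) := by
  have hbe : be ≠ ∞ := ne_top_of_le_ne_top hal h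
  have hc : al - be ≠ ∞ := ne_top_of_le_ne_top hal tsub_le_self
  have h1 : IsFiniteMeasure (muW W al be) := muW_finite W hal hbe
  have h2 : IsFiniteMeasure ((al - be) • sig d) := Measure.smul_finite _ hc
  have h3 : al • sig d = muW W al be + ((al - be) • sig d).restrict W := by
    have e1 : sig d = (sig d).restrict Wᶜ + (sig d).restrict W :=
      (Measure.restrict_compl_add_restrict hW).symm
    have e2 : ((al - be) • sig d).restrict W = (al - be) • (sig d).restrict W :=
      Measure.restrict_smul _ _ _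
    rw [e2]
    conv_lhs => rw [e1]
    unfold muW
    rw [smul_add, add_assoc, ← add_smul, add_tsub_cancel_of_le h]
  rw [h3, Poi_add_measure _ _ (MS_notCol a 3)]
  apply Poi_mono
  intro A hA
  calc Poi (((al - be) • sig d).restrict W) (fun B => ind (¬ Col a 3 (A ∪ B)))
      ≤ Poi (((al - be) • sig d).restrict W) (fun _ => ind (Bad a A)) := by
        apply Poi_restrict_mono _ hW
        intro B hB hBW
        by_cases hbad : Bad a A
        · simp only [ind, hbad, if_true]
          split_ifs
          · exact zero_le_one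
          · exact le_rfl
        · have hcol : Col a 3 (A ∪ B) := by
            unfold Bad at hbad
            push Not at hbad
            obtain ⟨c, hc⟩ := hbad
            classical
            refine ⟨fun x => if x ∈ B then 2 else if c x = true then 1 else 0, ?_⟩
            intro u hu v hv huv
            by_cases hub : u ∈ B
            · by_cases hvb : v ∈ B
              · exact absurd huv (not_lt.2 (hind u (hBW hub) v (hBW hvb)))
              · simp only [hub, hvb, if_true, if_false]
                split_ifs <;> decide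
            · by_cases hvb : v ∈ B
              · simp only [hub, hvb, if_true, if_false]
                split_ifs <;> decide
              · have huA : u ∈ A := hu.resolve_right hub
                have hvA : v ∈ A := hv.resolve_right hvb
                have hne := hc u huA v hvA huv
                simp only [hub, hvb, if_false]
                cases hcu : c u <;> cases hcv : c v <;> simp_all
          simp [ind, hcol]
    _ = ind (Bad a A) := Poi_const _ _

end Pool.Agent.Helper97.BG
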