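import Pool.Agent.Helper97.BG.Defs
import Pool.Agent.Helper97.BG.St.G1
import Pool.Agent.Helper97.BG.St.G5
import Pool.Agent.Helper97.BG.St.W1
import Pool.Agent.Helper97.BG.St.V1
import Pool.Agent.Helper97.BG.St.D3
import Pool.Agent.Helper97.BG.St.D4
import Pool.Agent.Helper97.BG.St.D5

/-!
Project BG (MP_8410f8_pr), piece D6.
-/

open MeasureTheory Set
open scoped ENNReal

namespace Pool.Agent.Helper97.BG

/-- MAIN. Let `K'` be from `DI cs mm` and `K = max 1 K'.toReal`. Given `d, a, lam` take `H` from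
`exists_H`. `path_le` applies: `hDI` follows from `DI` (`∫ over Wᶜ ≤ ∫` over everything; `be ≤ al`,
`lam ≤ 2 be`, `al ≤ 2 lam`). By `end_le` (`Wset_indep`) each summand on the left of `path_le` is at
least `Poi (ofReal (lam (1 + 1/(2K))) • sig) (ind ¬Col a 3)`; and `muW W lam lam = lam • sig`. Divide
by `2^card H` and use `Col_two_iff`. -/
theorem main_ineq (cs mm : ℝ≥0∞) (hcs : cs ≠ 0) (hmm : mm ≠ ∞) : ∃ K : ℝ, 1 ≤ K ∧
    ∀ (d : ℕ) (a lam : ℝ), 0 < a → 400 * a ≤ 1 → 0 < lam →
      (∀ p : Sph d, 2 * cs ≤ ENNReal.ofReal lam * sig d (Metric.ball p (a / 32))) →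
      (∀ p : Sph d, 2 * ENNReal.ofReal lam * sig d (Metric.ball p (4 * a)) ≤ mm) →
      Poi (ENNReal.ofReal (lam * (1 + 1 / (2 * K))) • sig d) (fun A => ind (¬ Col a 3 A)) ≤
        Poi (ENNReal.ofReal lam • sig d) (fun A => ind (¬ Col a 2 A)) := by
  obtain ⟨K', hK', hDI⟩ := DI cs mm hcs hmm
  refine ⟨max 1 K'.toReal, le_max_left _ _, ?_⟩
  intro d a lam ha ha4 hlam h1 h2
  have hK1 : 1 ≤ max 1 K'.toReal := le_max_left _ _
  have hKK : K' ≤ ENNReal.ofReal (max 1 K'.toReal) := by
    rw [← ENNReal.ofReal_toReal hK']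
    exact ENNReal.ofReal_le_ofReal (by rw [ENNReal.toReal_ofReal ENNReal.toReal_nonneg]; exact le_max_right _ _)
  generalize max 1 K'.toReal = K at hK1 hKK ⊢
  obtain ⟨H, hH1, hH2⟩ := exists_H d ha
  have hpath := path_le (a := a) H K lam hK1 hlam (by
    intro al be hb1 hb2 ha1 ha2
    have hd := hDI d a H (ENNReal.ofReal al) (ENNReal.ofReal be) (ENNReal.ofReal lam) ha ha4
      (by simpa using hlam) ENNReal.ofReal_ne_top
      (by
        rw [show (2 : ℝ≥0∞) = ENNReal.ofReal 2 by simp, ← ENNReal.ofReal_mul (by norm_num)]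
        exact ENNReal.ofReal_le_ofReal (by linarith))
      (ENNReal.ofReal_le_ofReal (by linarith))
      (by
        rw [show (2 : ℝ≥0∞) = ENNReal.ofReal 2 by simp, ← ENNReal.ofReal_mul (by norm_num)]
        exact ENNReal.ofReal_le_ofReal (by linarith))
      h1 h2 hH1 hH2
    refine le_trans (Finset.sum_le_sum fun m _ => setLIntegral_le_lintegral _ _) (hd.trans ?_)
    gcongr)
  have hbad : (fun A : Set (Sph d) => ind (¬ Col a 2 A)) = fun A => ind (Bad a A) := by
    funext A
    have : (¬ Col a 2 A) = Bad a A := by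
      unfold Bad
      rw [Col_two_iff]
    rw [this]
  rw [hbad]
  have hmu : ∀ m : Finset (Sph d), muW (Wset a (m : Set (Sph d))) (ENNReal.ofReal lam)
      (ENNReal.ofReal lam) = ENNReal.ofReal lam • sig d := by
    intro m
    unfold muW
    rw [← smul_add, Measure.restrict_compl_add_restrict (measurableSet_Wset a _)]
  have hle : ∀ m ∈ H.powerset,
      Poi (ENNReal.ofReal (lam * (1 + 1 / (2 * K))) • sig d) (fun A => ind (¬ Col a 3 A)) ≤
      Poi (muW (Wset a (m : Set (Sph d)))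
        (ENNReal.ofReal (lam * (1 + 1 / (2 * K)))) (ENNReal.ofReal (lam / 2)))
        (fun A => ind (Bad a A)) := by
    intro m _
    refine end_le (measurableSet_Wset a _) (fun u hu v hv => Wset_indep hu hv) ?_
      ENNReal.ofReal_ne_top
    apply ENNReal.ofReal_le_ofReal
    have : 0 ≤ 1 / (2 * K) := by positivity
    nlinarith
  have h3 := (Finset.sum_le_sum hle).trans hpath
  simp only [hmu, Finset.sum_const, nsmul_eq_mul] at h3
  have hc0 : ((H.powerset.card : ℕ) : ℝ≥0∞) ≠ 0 := by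
    rw [Finset.card_powerset]
    simp
  exact (ENNReal.mul_le_mul_iff_right hc0 (ENNReal.natCast_ne_top _)).1 h3

end Pool.Agent.Helper97.BG
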